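import Mathlib

/-!
# The Fibonacci Hamiltonian and its periodic approximants: definitions
-/

set_option autoImplicit false

noncomputable section

open Polynomial

namespace Pool.Agent.H22.Fib

/-! ### The trace polynomials -/

/-- The trace polynomials of the periodic approximants at coupling `lam`, as polynomials in the
energy. `tp lam k` is the discriminant of the approximant of period `fib k`. -/
def tp (lam : ℝ) : ℕ → Polynomial ℝ
  | 0 => C 2
  | 1 => X
  | 2 => X - C lam
  | (k + 3) => tp lam (k + 2) * tp lam (k + 1) - tp lam k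

/-- The derivative of `tp lam k` with respect to the coupling `lam`. -/
def dp (lam : ℝ) : ℕ → Polynomial ℝ
  | 0 => 0
  | 1 => 0
  | 2 => -1
  | (k + 3) => dp lam (k + 2) * tp lam (k + 1) + tp lam (k + 2) * dp lam (k + 1) - dp lam k

/-- The `i`-th smallest root of `p` (starting with `i = 0`); the value is `0` if there is none. -/
def srt (p : Polynomial ℝ) (i : ℕ) : ℝ := p.roots.toFinset.sort.getD i 0

/-- The roots of the trace polynomial, in increasing order. -/
def rt (lam : ℝ) (k j : ℕ) : ℝ := srt (tp lam k) j

/-- The critical points of the trace polynomial, in increasing order. -/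
def cr (lam : ℝ) (k j : ℕ) : ℝ := srt (derivative (tp lam k)) j

/-- The left end point of the `j`-th band. -/
def lo (lam : ℝ) (k j : ℕ) : ℝ := srt (tp lam k ^ 2 - C 4) (2 * j)

/-- The right end point of the `j`-th band. -/
def hi (lam : ℝ) (k j : ℕ) : ℝ := srt (tp lam k ^ 2 - C 4) (2 * j + 1)

/-- The number of roots of the trace polynomial below `E`. -/
def Zc (lam : ℝ) (k : ℕ) (E : ℝ) : ℕ := ((tp lam k).roots.toFinset.filter (fun x => x < E)).card

/-- The spectrum of the `k`-th periodic approximant. -/
def sig (lam : ℝ) (k : ℕ) : Set ℝ := {E | |(tp lam k).eval E| ≤ 2}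

/-! ### Words and transfer matrices -/

/-- The lower Christoffel words of the slopes `fib (n - 1) / fib n`. -/
def cw : ℕ → List Bool
  | 0 => []
  | 1 => [false]
  | 2 => [true]
  | (n + 3) => if n % 2 = 0 then cw (n + 1) ++ cw (n + 2) else cw (n + 2) ++ cw (n + 1)

/-- The potential of a letter. -/
def lv (lam : ℝ) (b : Bool) : ℝ := if b then lam else 0

/-- One step transfer matrix. -/
def tm (a : ℝ) : Matrix (Fin 2) (Fin 2) ℝ := !![a, -1; 1, 0]

/-- The transfer matrix over a word. -/
def mon (lam E : ℝ) : List Bool → Matrix (Fin 2) (Fin 2) ℝ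
  | [] => 1
  | (b :: w) => mon lam E w * tm (E - lv lam b)

/-- The Schrödinger operator of a word on a cycle of length `w.length`, with twisted boundary
condition of phase `π / 2`. -/
def cyc (lam : ℝ) (w : List Bool) : Matrix (Fin w.length) (Fin w.length) ℂ := fun i j =>
  (if i = j then (lv lam (w.get i) : ℂ) else 0)
    + (if (i : ℕ) + 1 = j then 1 else 0) + (if (j : ℕ) + 1 = i then 1 else 0)
    + (if (i : ℕ) + 1 = w.length ∧ (j : ℕ) = 0 then Complex.I else 0)
    + (if (i : ℕ) = 0 ∧ (j : ℕ) + 1 = w.length then -Complex.I else 0)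

/-! ### The Hamiltonian -/

/-- The rotation number `(√5 - 1) / 2`. -/
def alpha : ℝ := (Real.sqrt 5 - 1) / 2

/-- The letter at the site `n` of the Fibonacci sequence with phase `om`. -/
def fw (om : ℝ) (n : ℤ) : Bool :=
  @decide (Int.fract ((n : ℝ) * alpha + om) ∈ Set.Ico (1 - alpha) 1) (Classical.dec _)

/-- The Fibonacci potential `lam * χ_{[1 - α, 1)} (n α + om mod 1)`. -/
def fibV (lam om : ℝ) (n : ℤ) : ℝ :=
  lam * Set.indicator (Set.Ico (1 - alpha) 1) (fun _ => (1 : ℝ)) (Int.fract ((n : ℝ) * alpha + om))

end Pool.Agent.H22.Fib
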