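import Pool.Agent.H22.Fib.Defs

/-!
# The Fibonacci Hamiltonian on `ℓ²(ℤ)`
-/

set_option autoImplicit false

noncomputable section

namespace Pool.Agent.H22.Fib

/-- The Hilbert space `ℓ²(ℤ)`. -/
abbrev ell2 : Type := lp (fun _ : ℤ => ℂ) 2

theorem memlp_shift (k : ℤ) (f : ell2) : Memℓp (fun n : ℤ => f (n + k)) 2 := by
  have h := lp.memℓp f
  rw [memℓp_gen_iff (by norm_num)] at h ⊢
  exact (Equiv.addRight k).summable_iff (f := fun n : ℤ => ‖f n‖ ^ (2 : ENNReal).toReal) |>.2 h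

/-- The translation `(U f)(n) = f (n + k)`. -/
def shiftL (k : ℤ) : ell2 →ₗ[ℂ] ell2 where
  toFun f := ⟨fun n : ℤ => f (n + k), memlp_shift k f⟩
  map_add' f g := by ext n; simp
  map_smul' c f := by ext n; simp

@[simp] theorem shiftL_apply (k : ℤ) (f : ell2) (n : ℤ) : shiftL k f n = f (n + k) := rfl

theorem norm_shiftL (k : ℤ) (f : ell2) : ‖shiftL k f‖ = ‖f‖ := by
  rw [lp.norm_eq_tsum_rpow (by norm_num), lp.norm_eq_tsum_rpow (by norm_num)]
  congr 1
  exact (Equiv.addRight k).tsum_eq (fun n : ℤ => ‖f n‖ ^ (2 : ENNReal).toReal)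

/-- The translation by `k` as a bounded operator. -/
def shift (k : ℤ) : ell2 →L[ℂ] ell2 :=
  (shiftL k).mkContinuous 1 (fun f => by rw [norm_shiftL, one_mul])

@[simp] theorem shift_apply (k : ℤ) (f : ell2) (n : ℤ) : shift k f n = f (n + k) := rfl

theorem memlp_mul (v : ℤ → ℝ) (B : ℝ) (hv : ∀ n, |v n| ≤ B) (f : ell2) :
    Memℓp (fun n : ℤ => (v n : ℂ) * f n) 2 := by
  have h := lp.memℓp f
  rw [memℓp_gen_iff (by norm_num)] at h ⊢
  refine Summable.of_nonneg_of_le (fun n => by positivity) (fun n => ?_)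
    (h.mul_left (B ^ (2 : ENNReal).toReal))
  rw [norm_mul, Real.mul_rpow (norm_nonneg _) (norm_nonneg _)]
  gcongr
  simpa using hv n

/-- Multiplication by a bounded function. -/
def mulL (v : ℤ → ℝ) (B : ℝ) (hv : ∀ n, |v n| ≤ B) : ell2 →ₗ[ℂ] ell2 where
  toFun f := ⟨fun n : ℤ => (v n : ℂ) * f n, memlp_mul v B hv f⟩
  map_add' f g := by ext n; simp [mul_add]
  map_smul' c f := by ext n; simp; ring

theorem norm_mulL_le (v : ℤ → ℝ) (B : ℝ) (hv : ∀ n, |v n| ≤ B) (f : ell2) :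
    ‖mulL v B hv f‖ ≤ B * ‖f‖ := by
  have hB : 0 ≤ B := (abs_nonneg _).trans (hv 0)
  refine lp.norm_le_of_tsum_le (by norm_num) (by positivity) ?_
  rw [Real.mul_rpow hB (norm_nonneg _), lp.norm_rpow_eq_tsum (by norm_num), ← tsum_mul_left]
  have h := lp.memℓp f
  rw [memℓp_gen_iff (by norm_num)] at h
  have h2 := lp.memℓp (mulL v B hv f)
  rw [memℓp_gen_iff (by norm_num)] at h2
  refine Summable.tsum_le_tsum (fun n => ?_) h2 (h.mul_left _)
  change ‖(v n : ℂ) * f n‖ ^ (2 : ENNReal).toReal ≤ _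
  rw [norm_mul, Real.mul_rpow (norm_nonneg _) (norm_nonneg _)]
  gcongr
  simpa using hv n

theorem abs_fibV_le (lam om : ℝ) (n : ℤ) : |fibV lam om n| ≤ |lam| := by
  unfold fibV
  rw [abs_mul]
  have : |Set.indicator (Set.Ico (1 - alpha) 1) (fun _ => (1 : ℝ))
      (Int.fract ((n : ℝ) * alpha + om))| ≤ 1 := by
    by_cases h : Int.fract ((n : ℝ) * alpha + om) ∈ Set.Ico (1 - alpha) 1
    · rw [Set.indicator_of_mem h]; simp
    · rw [Set.indicator_of_notMem h]; simp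
  calc |lam| * _ ≤ |lam| * 1 := by gcongr
    _ = |lam| := mul_one _

/-- The Fibonacci Hamiltonian
`(H ψ)(n) = ψ(n + 1) + ψ(n - 1) + lam * χ_{[1 - α, 1)} (n α + om mod 1) * ψ(n)` on `ℓ²(ℤ)`. -/
def ham (lam om : ℝ) : ell2 →L[ℂ] ell2 :=
  shift 1 + shift (-1) +
    (mulL (fibV lam om) |lam| (abs_fibV_le lam om)).mkContinuous |lam|
      (norm_mulL_le _ _ (abs_fibV_le lam om))

theorem ham_apply (lam om : ℝ) (f : ell2) (n : ℤ) :
    ham lam om f n = f (n + 1) + f (n - 1) + (fibV lam om n : ℂ) * f n := rfl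

/-- The spectrum of the Fibonacci Hamiltonian, as a set of real numbers. -/
def Sig (lam om : ℝ) : Set ℝ := {E : ℝ | (E : ℂ) ∈ spectrum ℂ (ham lam om)}

end Pool.Agent.H22.Fib
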