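import Pool.Agent.H22.Fib.Ham

/-!
Module L: the Hamiltonian.
-/

set_option autoImplicit false

noncomputable section

open Polynomial Filter Topology

namespace Pool.Agent.H22.Fib

theorem fibV_eq (lam om : ℝ) (n : ℤ) : fibV lam om n = lv lam (fw om n) := by
  classical
  unfold fibV lv fw
  by_cases h : Int.fract ((n : ℝ) * alpha + om) ∈ Set.Ico (1 - alpha) 1
  · rw [Set.indicator_of_mem h]
    simp only [h, decide_true, if_true, mul_one]
  · rw [Set.indicator_of_notMem h]
    simp only [h, decide_false, mul_zero]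
    simp

theorem Sig_compact (lam om : ℝ) : IsCompact (Sig lam om) := by
  have h : IsCompact (spectrum ℂ (ham lam om)) := spectrum.isCompact (ham lam om)
  exact Complex.isometry_ofReal.isClosedEmbedding.isCompact_preimage h

/-- The norm of a finitely supported element of `ℓ²(ℤ)`. -/
private theorem modL_norm_sq (f : ell2) (s : Finset ℤ) (h : ∀ n, n ∉ s → f n = 0) :
    ‖f‖ ^ 2 = ∑ n ∈ s, ‖f n‖ ^ 2 := by
  have h1 := lp.norm_rpow_eq_tsum (p := 2) (by norm_num) f
  have h2 : ∀ x : ℝ, x ^ (2 : ENNReal).toReal = x ^ 2 := by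
    intro x
    rw [ENNReal.toReal_ofNat, Real.rpow_two]
  simp only [h2] at h1
  rw [h1]
  exact tsum_eq_sum (fun n hn => by rw [h n hn]; simp)

/-- The operator `H - E`. -/
private def modL_T (lam om E : ℝ) : ell2 →L[ℂ] ell2 :=
  ham lam om - (E : ℂ) • (1 : ell2 →L[ℂ] ell2)

private theorem modL_T_apply (lam om E : ℝ) (f : ell2) (n : ℤ) :
    modL_T lam om E f n =
      f (n + 1) + f (n - 1) + (fibV lam om n : ℂ) * f n - (E : ℂ) * f n := by
  change (ham lam om f - (E : ℂ) • f : ell2) n = _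
  change ham lam om f n - (E : ℂ) * f n = _
  rw [ham_apply]

private theorem modL_mem_Sig_iff (lam om E : ℝ) :
    E ∉ Sig lam om ↔ IsUnit (modL_T lam om E) := by
  unfold Sig
  rw [Set.mem_ofPred_eq, spectrum.notMem_iff, ← IsUnit.neg_iff]
  have : -((algebraMap ℂ (ell2 →L[ℂ] ell2)) (E : ℂ) - ham lam om) = modL_T lam om E := by
    unfold modL_T
    rw [Algebra.algebraMap_eq_smul_one]
    abel
  rw [this]

/-- `H` is symmetric. -/
private theorem modL_symm (lam om E : ℝ) (f g : ell2) :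
    inner ℂ (modL_T lam om E f) g = inner ℂ f (modL_T lam om E g) := by
  have hs : ∀ (k : ℤ) (f g : ell2), inner ℂ (shift k f) g = inner ℂ f (shift (-k) g) := by
    intro k f g
    rw [lp.inner_eq_tsum, lp.inner_eq_tsum]
    rw [← (Equiv.addRight k).tsum_eq (fun n : ℤ => inner ℂ (f n) (shift (-k) g n))]
    refine tsum_congr fun n => ?_
    simp [shift_apply]
  have hm : inner ℂ ((mulL (fibV lam om) |lam| (abs_fibV_le lam om)).mkContinuous |lam|
      (norm_mulL_le _ _ (abs_fibV_le lam om)) f) g =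
      inner ℂ f ((mulL (fibV lam om) |lam| (abs_fibV_le lam om)).mkContinuous |lam|
      (norm_mulL_le _ _ (abs_fibV_le lam om)) g) := by
    rw [lp.inner_eq_tsum, lp.inner_eq_tsum]
    refine tsum_congr fun n => ?_
    change inner ℂ ((fibV lam om n : ℂ) * f n) (g n) = inner ℂ (f n) ((fibV lam om n : ℂ) * g n)
    simp only [RCLike.inner_apply, map_mul, Complex.conj_ofReal]
    ring
  unfold modL_T ham
  simp only [_root_.sub_apply, _root_.add_apply,
    _root_.smul_apply, one_apply_eq_self, inner_sub_left,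
    inner_sub_right, inner_add_left, inner_add_right, hs, hm, inner_smul_left, inner_smul_right,
    Complex.conj_ofReal, neg_neg]
  ring

theorem not_mem_Sig (lam om E δ : ℝ) (hδ : 0 < δ)
    (h : ∀ (L : ℕ) (f : ℤ → ℂ), (∀ n : ℤ, (L : ℤ) < |n| → f n = 0) →
      δ ^ 2 * ∑ n ∈ Finset.Icc (-(L : ℤ)) L, ‖f n‖ ^ 2 ≤
        ∑ n ∈ Finset.Icc (-(L : ℤ) - 1) (L + 1),
          ‖f (n + 1) + f (n - 1) + (fibV lam om n : ℂ) * f n - (E : ℂ) * f n‖ ^ 2) :
    E ∉ Sig lam om := by
  classical
  rw [modL_mem_Sig_iff]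
  set T := modL_T lam om E with hT
  -- bound for finitely supported vectors
  have hfin : ∀ (s : Finset ℤ) (f : ell2), (∀ n, n ∉ s → f n = 0) → δ * ‖f‖ ≤ ‖T f‖ := by
    intro s f hf
    obtain ⟨L, hL⟩ : ∃ L : ℕ, ∀ n ∈ s, |n| ≤ (L : ℤ) := by
      refine ⟨s.sup Int.natAbs, fun n hn => ?_⟩
      have : n.natAbs ≤ s.sup Int.natAbs := Finset.le_sup (f := Int.natAbs) hn
      rw [Int.abs_eq_natAbs]
      exact_mod_cast this
    have hf' : ∀ n : ℤ, (L : ℤ) < |n| → f n = 0 := by
      intro n hn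
      apply hf
      intro hns
      exact absurd (hL n hns) (not_le.2 hn)
    have key := h L (fun n => f n) hf'
    have e1 : ‖f‖ ^ 2 = ∑ n ∈ Finset.Icc (-(L : ℤ)) L, ‖f n‖ ^ 2 := by
      apply modL_norm_sq
      intro n hn
      apply hf'
      rw [Finset.mem_Icc, ← abs_le] at hn
      exact not_le.1 hn
    have e2 : ‖T f‖ ^ 2 = ∑ n ∈ Finset.Icc (-(L : ℤ) - 1) (L + 1), ‖T f n‖ ^ 2 := by
      apply modL_norm_sq
      intro n hn
      rw [hT, modL_T_apply]
      have hn' : ¬ (-(L : ℤ) - 1 ≤ n ∧ n ≤ L + 1) := by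
        rwa [Finset.mem_Icc] at hn
      have h1 : f (n + 1) = 0 := by
        apply hf'
        rw [lt_abs]
        omega
      have h2 : f (n - 1) = 0 := by
        apply hf'
        rw [lt_abs]
        omega
      have h3 : f n = 0 := by
        apply hf'
        rw [lt_abs]
        omega
      rw [h1, h2, h3]
      simp
    have e3 : (δ * ‖f‖) ^ 2 ≤ ‖T f‖ ^ 2 := by
      rw [mul_pow, e1, e2]
      refine key.trans (le_of_eq ?_)
      refine Finset.sum_congr rfl fun n _ => ?_
      rw [hT, modL_T_apply]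
    exact (pow_le_pow_iff_left₀ (by positivity) (norm_nonneg _) two_ne_zero).1 e3
  have hall : ∀ f : ell2, δ * ‖f‖ ≤ ‖T f‖ := by
    intro f
    have hs := lp.hasSum_single (E := fun _ : ℤ => ℂ) (p := 2) (by norm_num) f
    have l1 : Tendsto (fun s : Finset ℤ => δ * ‖∑ n ∈ s, lp.single (E := fun _ : ℤ => ℂ) 2 n (f n)‖)
        atTop (𝓝 (δ * ‖f‖)) := (hs.norm).const_mul δ
    have l2 : Tendsto (fun s : Finset ℤ => ‖T (∑ n ∈ s, lp.single (E := fun _ : ℤ => ℂ) 2 n (f n))‖)
        atTop (𝓝 ‖T f‖) := ((T.continuous.tendsto f).comp hs).norm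
    refine le_of_tendsto_of_tendsto' l1 l2 fun s => ?_
    apply hfin s
    intro n hn
    have : (∑ m ∈ s, lp.single (E := fun _ : ℤ => ℂ) 2 m (f m) : ell2) n
        = ∑ m ∈ s, (lp.single (E := fun _ : ℤ => ℂ) 2 m (f m) : ell2) n := by
      rw [lp.coeFn_sum, Finset.sum_apply]
    rw [this]
    apply Finset.sum_eq_zero
    intro m hm
    rw [lp.single_apply_ne]
    rintro rfl
    exact hn hm
  have hanti : AntilipschitzWith (Real.toNNReal δ⁻¹) T := by
    apply ContinuousLinearMap.antilipschitz_of_bound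
    intro f
    rw [Real.coe_toNNReal _ (by positivity)]
    rw [← div_eq_inv_mul, le_div_iff₀ hδ, mul_comm]
    exact hall f
  have hinj : Function.Injective T := hanti.injective
  have hclosed : IsClosed (Set.range T) := hanti.isClosed_range T.uniformContinuous
  have hbot : (LinearMap.range (T : ell2 →ₗ[ℂ] ell2))ᗮ = ⊥ := by
    rw [Submodule.eq_bot_iff]
    intro g hg
    rw [Submodule.mem_orthogonal] at hg
    have h1 : T g = 0 := by
      have h2 : ∀ f : ell2, inner ℂ f (T g) = 0 := by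
        intro f
        rw [hT, ← modL_symm]
        exact hg _ ⟨f, rfl⟩
      exact inner_self_eq_zero.1 (h2 (T g))
    have h3 := hall g
    rw [h1, norm_zero] at h3
    have : ‖g‖ ≤ 0 := by
      by_contra hc
      push Not at hc
      have := mul_pos hδ hc
      linarith
    exact norm_le_zero_iff.1 this
  have hsurj : Function.Surjective T := by
    rw [← Set.range_eq_univ]
    have hd : Dense ((LinearMap.range (T : ell2 →ₗ[ℂ] ell2) : Submodule ℂ ell2) : Set ell2) := by
      rw [Submodule.dense_iff_topologicalClosure_eq_top,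
        Submodule.topologicalClosure_eq_top_iff]
      exact hbot
    have hr : ((LinearMap.range (T : ell2 →ₗ[ℂ] ell2) : Submodule ℂ ell2) : Set ell2)
        = Set.range T := by
      ext x
      simp
    rw [hr] at hd
    rw [← hclosed.closure_eq]
    exact hd.closure_eq
  rw [ContinuousLinearMap.isUnit_iff_bijective]
  exact ⟨hinj, hsurj⟩

theorem bound_of_not_mem (lam om E : ℝ) (hE : E ∉ Sig lam om) :
    ∃ δ : ℝ, 0 < δ ∧ ∀ (a b : ℤ) (f : ℤ → ℂ), (∀ n, n < a ∨ b < n → f n = 0) →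
      δ ^ 2 * ∑ n ∈ Finset.Icc a b, ‖f n‖ ^ 2 ≤
        ∑ n ∈ Finset.Icc (a - 1) (b + 1),
          ‖f (n + 1) + f (n - 1) + (fibV lam om n : ℂ) * f n - (E : ℂ) * f n‖ ^ 2 := by
  rw [modL_mem_Sig_iff] at hE
  obtain ⟨u, hu⟩ := hE
  set S : ell2 →L[ℂ] ell2 := (↑u⁻¹ : ell2 →L[ℂ] ell2) with hS
  have hSu : ∀ f : ell2, S (modL_T lam om E f) = f := by
    intro f
    have h1 : S * modL_T lam om E = 1 := by
      rw [← hu, hS]
      exact u.inv_mul
    have h2 : (S * modL_T lam om E) f = f := by rw [h1]; rfl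
    exact h2
  refine ⟨(‖S‖ + 1)⁻¹, by positivity, ?_⟩
  intro a b f hf
  have hmem : Memℓp f 2 := by
    refine (memℓp_gen_iff (by norm_num)).2 ?_
    refine summable_of_ne_finset_zero (s := Finset.Icc a b) ?_
    intro n hn
    have : n < a ∨ b < n := by
      rw [Finset.mem_Icc] at hn
      omega
    rw [hf n this]
    simp
  let F : ell2 := ⟨f, hmem⟩
  have hF : ∀ n, F n = f n := fun _ => rfl
  have e1 : ‖F‖ ^ 2 = ∑ n ∈ Finset.Icc a b, ‖f n‖ ^ 2 := by
    refine modL_norm_sq F _ ?_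
    intro n hn
    have : n < a ∨ b < n := by
      rw [Finset.mem_Icc] at hn
      omega
    exact hf n this
  have e2 : ‖modL_T lam om E F‖ ^ 2 = ∑ n ∈ Finset.Icc (a - 1) (b + 1),
          ‖f (n + 1) + f (n - 1) + (fibV lam om n : ℂ) * f n - (E : ℂ) * f n‖ ^ 2 := by
    rw [modL_norm_sq _ (Finset.Icc (a - 1) (b + 1))]
    · refine Finset.sum_congr rfl fun n _ => ?_
      rw [modL_T_apply]
    · intro n hn
      rw [Finset.mem_Icc] at hn
      rw [modL_T_apply]
      rw [hF, hF, hF, hf (n + 1) (by omega), hf (n - 1) (by omega), hf n (by omega)]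
      simp
  rw [← e1, ← e2, ← mul_pow]
  have h3 : ‖F‖ ≤ ‖S‖ * ‖modL_T lam om E F‖ := by
    conv_lhs => rw [← hSu F]
    exact S.le_opNorm _
  have h4 : (‖S‖ + 1)⁻¹ * ‖F‖ ≤ ‖modL_T lam om E F‖ := by
    rw [← div_eq_inv_mul, div_le_iff₀ (by positivity)]
    nlinarith [norm_nonneg (modL_T lam om E F), norm_nonneg S]
  gcongr

end Pool.Agent.H22.Fib
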