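import Pool.Agent.H22.Fib.Defs

/-!
Module M: words in the Fibonacci sequence.
-/

set_option autoImplicit false

noncomputable section

open Polynomial Filter Topology

namespace Pool.Agent.H22.Fib

private theorem modM_sqrt : Real.sqrt 5 * Real.sqrt 5 = 5 := Real.mul_self_sqrt (by norm_num)

private theorem modM_alpha_sq : alpha * alpha = 1 - alpha := by
  unfold alpha
  have := modM_sqrt
  ring_nf
  ring_nf at this
  rw [this]
  ring

private theorem modM_alpha_pos : 0 < alpha := by
  unfold alpha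
  have : (1 : ℝ) < Real.sqrt 5 := by
    rw [Real.lt_sqrt] <;> norm_num
  linarith

private theorem modM_alpha_lt : alpha < 1 := by
  have h := modM_alpha_sq
  have := modM_alpha_pos
  nlinarith

private theorem modM_alpha_irr : Irrational alpha := by
  have h5 : Irrational (Real.sqrt 5) := by
    have := Nat.Prime.irrational_sqrt (p := 5) (by norm_num)
    simpa using this
  unfold alpha
  have h1 : Irrational (Real.sqrt 5 - 1) := by
    have := h5.sub_intCast 1
    simpa using this
  have := h1.div_intCast (m := 2) (by norm_num)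
  simpa using this

private theorem modM_fib (k : ℕ) :
    (Nat.fib (k + 1) : ℝ) * alpha - Nat.fib k = -(-alpha) ^ (k + 1) := by
  induction k using Nat.twoStepInduction with
  | zero => simp
  | one =>
    simp only [Nat.reduceAdd, Nat.fib_two, Nat.fib_one, Nat.cast_one, one_mul]
    have := modM_alpha_sq
    nlinarith
  | more k h1 h2 =>
    have e1 : (Nat.fib (k + 2 + 1) : ℝ) = Nat.fib (k + 1) + Nat.fib (k + 1 + 1) := by
      rw [show k + 2 + 1 = (k + 1) + 2 by ring, Nat.fib_add_two]; push_cast; ring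
    have e2 : (Nat.fib (k + 2) : ℝ) = Nat.fib k + Nat.fib (k + 1) := by
      rw [Nat.fib_add_two]; push_cast; ring
    have e3 : (-alpha) ^ (k + 2 + 1) = (-alpha) ^ (k + 1) * (1 + (-alpha)) := by
      have : (-alpha) ^ (k + 2 + 1) = (-alpha) ^ (k + 1) * (alpha * alpha) := by ring
      rw [this, modM_alpha_sq]; ring
    rw [e1, e2, e3]
    have : (-alpha) ^ (k + 1 + 1) = (-alpha) ^ (k + 1) * (-alpha) := by ring
    rw [this] at h2
    have e4 : (Nat.fib (k + 1 + 1) : ℝ) = Nat.fib k + Nat.fib (k + 1) := e2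
    linear_combination h1 + h2 - alpha * e4

private theorem modM_abs (k : ℕ) :
    |(Nat.fib (k + 1) : ℝ) * alpha - Nat.fib k| = alpha ^ (k + 1) := by
  rw [modM_fib, abs_neg, abs_pow, abs_neg, abs_of_pos modM_alpha_pos]

/-- `q α^n < 1/2` for `n ≥ 3`. -/
private theorem modM_half (k : ℕ) (hk : 2 ≤ k) :
    (Nat.fib (k + 1) : ℝ) * alpha ^ (k + 1) < 1 / 2 := by
  have ha := modM_alpha_pos
  have ha1 := modM_alpha_lt
  have hs := modM_alpha_sq
  -- fib (k+1) * sqrt 5 = phi^(k+1) - (-alpha)^(k+1), alpha * phi = 1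
  have key : ∀ j : ℕ, (Nat.fib j : ℝ) * alpha ^ j * (2 * alpha + 1) = 1 - (-(alpha * alpha)) ^ j := by
    intro j
    induction j using Nat.twoStepInduction with
    | zero => simp
    | one =>
      simp only [Nat.fib_one, Nat.cast_one, one_mul, pow_one]
      nlinarith
    | more j h1 h2 =>
      have e2 : (Nat.fib (j + 2) : ℝ) = Nat.fib j + Nat.fib (j + 1) := by
        rw [Nat.fib_add_two]; push_cast; ring
      rw [e2]
      have e3 : ((Nat.fib j : ℝ) + Nat.fib (j + 1)) * alpha ^ (j + 2) * (2 * alpha + 1) =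
          (alpha * alpha) * ((Nat.fib j : ℝ) * alpha ^ j * (2 * alpha + 1))
          + alpha * ((Nat.fib (j + 1) : ℝ) * alpha ^ (j + 1) * (2 * alpha + 1)) := by ring
      rw [e3, h1, h2]
      have e4 : (-(alpha * alpha)) ^ (j + 2) = (-(alpha * alpha)) ^ j * ((alpha * alpha) * (alpha * alpha)) := by
        ring
      have e5 : (-(alpha * alpha)) ^ (j + 1) = (-(alpha * alpha)) ^ j * (-(alpha * alpha)) := by
        ring
      rw [e4, e5]
      linear_combination (1 + (-(alpha * alpha)) ^ j * (alpha * alpha)) * hs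
  have h1 := key (k + 1)
  have h2 : |(-(alpha * alpha)) ^ (k + 1)| ≤ (alpha * alpha) ^ 3 := by
    rw [abs_pow, abs_neg, abs_of_pos (by positivity : 0 < alpha * alpha)]
    exact pow_le_pow_of_le_one (by positivity) (by nlinarith) (by omega)
  have h3 : (alpha * alpha) ^ 3 < 0.06 := by
    have : alpha < 0.6181 := by
      unfold alpha
      have : Real.sqrt 5 < 2.2362 := by
        rw [Real.sqrt_lt' (by norm_num)]; norm_num
      linarith
    calc (alpha * alpha) ^ 3 ≤ (0.6181 * 0.6181) ^ 3 := by gcongr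
      _ < 0.06 := by norm_num
  have h4 : (2.236 : ℝ) < 2 * alpha + 1 := by
    unfold alpha
    have : (2.236 : ℝ) < Real.sqrt 5 := by
      rw [Real.lt_sqrt (by norm_num)]; norm_num
    linarith
  have h5 := (abs_le.1 h2).1
  have h6 : 0 ≤ (Nat.fib (k + 1) : ℝ) * alpha ^ (k + 1) := by positivity
  nlinarith

/-! ### Integer words -/

private def modM_c (p q j m : ℤ) : Bool := decide (((m + 1) * p + j) / q = (m * p + j) / q + 1)

private theorem modM_c_add (p q j m t : ℤ) (hq : 0 < q) : modM_c p q j (m + q * t) = modM_c p q j m := by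
  unfold modM_c
  have e1 : (m + q * t + 1) * p + j = ((m + 1) * p + j) + q * (t * p) := by ring
  have e2 : (m + q * t) * p + j = (m * p + j) + q * (t * p) := by ring
  rw [e1, e2, Int.add_mul_ediv_left _ _ hq.ne', Int.add_mul_ediv_left _ _ hq.ne']
  congr 1
  apply propext
  constructor <;> intro h <;> linarith

private theorem modM_floor_i (p q p' q' m : ℤ) (hq : 0 < q) (hq' : 0 < q') (h : p' * q = p * q' + 1)
    (hm0 : 0 ≤ m) (hmq : m ≤ q) : (m * (p + p')) / (q + q') = (m * p) / q := by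
  set k := (m * p) / q with hk
  have h1 : k * q ≤ m * p := Int.ediv_mul_le _ hq.ne'
  have h2 : m * p < (k + 1) * q := Int.lt_ediv_add_one_mul_self _ hq
  have e : (m * (p + p')) * q = (q + q') * (m * p) + m := by linear_combination m * h
  rw [Int.ediv_eq_iff_of_pos (by linarith)]
  constructor
  · have : (k * (q + q')) * q ≤ (m * (p + p')) * q := by
      rw [e]
      have : (q + q') * (k * q) ≤ (q + q') * (m * p) := mul_le_mul_of_nonneg_left h1 (by linarith)
      linarith
    exact le_of_mul_le_mul_right this hq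
  · have : (m * (p + p')) * q < (k * (q + q') + (q + q')) * q := by
      rw [e]
      have h3 : m * p ≤ (k + 1) * q - 1 := by linarith
      have : (q + q') * (m * p) ≤ (q + q') * ((k + 1) * q - 1) :=
        mul_le_mul_of_nonneg_left h3 (by linarith)
      nlinarith
    exact lt_of_mul_lt_mul_right this hq.le

private theorem modM_floor_ii (p q p' q' i : ℤ) (hq : 0 < q) (hq' : 0 < q') (h : p' * q = p * q' + 1)
    (hm0 : 0 ≤ i) (hmq : i ≤ q') : ((q + i) * (p + p')) / (q + q') = p + (i * p') / q' := by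
  set k := (i * p') / q' with hk
  have h1 : k * q' ≤ i * p' := Int.ediv_mul_le _ hq'.ne'
  have h2 : i * p' < (k + 1) * q' := Int.lt_ediv_add_one_mul_self _ hq'
  have e : ((q + i) * (p + p')) * q' = (q + q') * (p * q' + i * p') + (q' - i) := by
    linear_combination (q' - i) * h
  rw [Int.ediv_eq_iff_of_pos (by linarith)]
  constructor
  · have : ((p + k) * (q + q')) * q' ≤ ((q + i) * (p + p')) * q' := by
      rw [e]
      have : (q + q') * (k * q') ≤ (q + q') * (i * p') := mul_le_mul_of_nonneg_left h1 (by linarith)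
      nlinarith
    exact le_of_mul_le_mul_right this hq'
  · have : ((q + i) * (p + p')) * q' < ((p + k) * (q + q') + (q + q')) * q' := by
      rw [e]
      have h3 : i * p' ≤ (k + 1) * q' - 1 := by linarith
      have : (q + q') * (i * p') ≤ (q + q') * ((k + 1) * q' - 1) :=
        mul_le_mul_of_nonneg_left h3 (by linarith)
      nlinarith
    exact lt_of_mul_lt_mul_right this hq'.le

private theorem modM_concat (u v : List Bool) (p q p' q' : ℕ) (hu : u.length = q) (_hv : v.length = q')
    (hq : 0 < q) (hq' : 0 < q') (h : p' * q = p * q' + 1)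
    (hcu : ∀ i : ℕ, i < q → u.getD i false = modM_c p q 0 i)
    (hcv : ∀ i : ℕ, i < q' → v.getD i false = modM_c p' q' 0 i) :
    ∀ i : ℕ, i < q + q' → (u ++ v).getD i false = modM_c ((p + p' : ℕ) : ℤ) ((q + q' : ℕ) : ℤ) 0 i := by
  intro i hi
  have hqz : (0 : ℤ) < q := by exact_mod_cast hq
  have hqz' : (0 : ℤ) < q' := by exact_mod_cast hq'
  have hz : (p' : ℤ) * q = p * q' + 1 := by exact_mod_cast h
  by_cases hiq : i < q
  · rw [List.getD_append _ _ _ _ (by omega), hcu i hiq]
    unfold modM_c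
    push_cast
    rw [add_zero, add_zero, add_zero, add_zero,
      modM_floor_i p q p' q' (i + 1) hqz hqz' hz (by positivity) (by exact_mod_cast hiq),
      modM_floor_i p q p' q' i hqz hqz' hz (by positivity) (by exact_mod_cast hiq.le)]
  · rw [List.getD_append_right _ _ _ _ (by omega), hu, hcv (i - q) (by omega)]
    obtain ⟨j, rfl⟩ : ∃ j, i = q + j := ⟨i - q, by omega⟩
    have hj : j < q' := by omega
    rw [show q + j - q = j by omega]
    unfold modM_c
    push_cast
    rw [add_zero, add_zero, add_zero, add_zero, add_assoc (q : ℤ) j 1,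
      modM_floor_ii p q p' q' (j + 1) hqz hqz' hz (by positivity) (by exact_mod_cast hj),
      modM_floor_ii p q p' q' j hqz hqz' hz (by positivity) (by exact_mod_cast hj.le)]
    congr 1
    apply propext
    constructor <;> intro h <;> linarith

private theorem modM_cassini (n : ℕ) :
    (Nat.fib (n + 1) : ℤ) * Nat.fib (n + 1) - Nat.fib n * Nat.fib (n + 2) = (-1) ^ n := by
  induction n with
  | zero => simp
  | succ n ih =>
    have e1 : (Nat.fib (n + 2) : ℤ) = Nat.fib n + Nat.fib (n + 1) := by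
      rw [Nat.fib_add_two]; push_cast; ring
    have e2 : (Nat.fib (n + 3) : ℤ) = Nat.fib (n + 1) + Nat.fib (n + 2) := by
      rw [show n + 3 = (n + 1) + 2 by ring, Nat.fib_add_two]; push_cast; ring
    rw [show n + 1 + 1 = n + 2 by ring, show n + 1 + 2 = n + 3 by ring, e2, pow_succ, ← ih, e1]
    ring

private theorem modM_length (n : ℕ) : (cw n).length = Nat.fib n := by
  induction n using Nat.strong_induction_on with
  | _ n ih =>
    match n with
    | 0 => simp [cw]
    | 1 => simp [cw]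
    | 2 => simp [cw]
    | (n + 3) =>
      have h1 := ih (n + 1) (by omega)
      have h2 := ih (n + 2) (by omega)
      have e2 : Nat.fib (n + 3) = Nat.fib (n + 1) + Nat.fib (n + 2) := by
        rw [show n + 3 = (n + 1) + 2 by ring, Nat.fib_add_two]
      rw [cw]
      split_ifs <;> rw [List.length_append, h1, h2, e2]
      ring

private theorem modM_cw (n : ℕ) : ∀ i : ℕ, i < Nat.fib (n + 1) →
    (cw (n + 1)).getD i false = modM_c (Nat.fib n) (Nat.fib (n + 1)) 0 i := by
  induction n using Nat.strong_induction_on with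
  | _ n ih =>
    match n with
    | 0 =>
      intro i hi
      have : i = 0 := by simpa using hi
      subst this
      simp [cw, modM_c]
    | 1 =>
      intro i hi
      have : i = 0 := by simpa using hi
      subst this
      simp [cw, modM_c]
    | (n + 2) =>
      have h1 := ih n (by omega)
      have h2 := ih (n + 1) (by omega)
      have e2 : Nat.fib (n + 3) = Nat.fib (n + 1) + Nat.fib (n + 2) := by
        rw [show n + 3 = (n + 1) + 2 by ring, Nat.fib_add_two]
      have e1 : Nat.fib (n + 2) = Nat.fib n + Nat.fib (n + 1) := by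
        rw [Nat.fib_add_two]
      have hc := modM_cassini n
      have hp1 : 0 < Nat.fib (n + 1) := Nat.fib_pos.2 (by omega)
      have hp2 : 0 < Nat.fib (n + 2) := Nat.fib_pos.2 (by omega)
      rw [show n + 2 + 1 = n + 3 by ring]
      rw [show n + 1 + 1 = n + 2 by ring] at h2
      rw [cw]
      split_ifs with hpar
      · have hev : Even n := Nat.even_iff.2 hpar
        rw [hev.neg_one_pow] at hc
        have hc' : Nat.fib (n + 1) * Nat.fib (n + 1) = Nat.fib n * Nat.fib (n + 2) + 1 := by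
          have : (Nat.fib (n + 1) : ℤ) * Nat.fib (n + 1) = Nat.fib n * Nat.fib (n + 2) + 1 := by
            linarith
          exact_mod_cast this
        have := modM_concat (cw (n + 1)) (cw (n + 2)) (Nat.fib n) (Nat.fib (n + 1))
          (Nat.fib (n + 1)) (Nat.fib (n + 2)) (modM_length _) (modM_length _) hp1 hp2 hc' h1 h2
        rw [← e1, ← e2] at this
        exact this
      · have hodd : Odd n := Nat.odd_iff.2 (by omega)
        rw [hodd.neg_one_pow] at hc
        have hc' : Nat.fib n * Nat.fib (n + 2) = Nat.fib (n + 1) * Nat.fib (n + 1) + 1 := by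
          have : (Nat.fib n : ℤ) * Nat.fib (n + 2) = Nat.fib (n + 1) * Nat.fib (n + 1) + 1 := by
            linarith
          exact_mod_cast this
        have := modM_concat (cw (n + 2)) (cw (n + 1)) (Nat.fib (n + 1)) (Nat.fib (n + 2))
          (Nat.fib n) (Nat.fib (n + 1)) (modM_length _) (modM_length _) hp2 hp1 hc' h2 h1
        rw [add_comm (Nat.fib (n + 1)) (Nat.fib n), ← e1,
          add_comm (Nat.fib (n + 2)) (Nat.fib (n + 1)), ← e2] at this
        exact this

private theorem modM_cwcw (n : ℕ) : ∀ i : ℕ, i < 2 * Nat.fib (n + 1) →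
    (cw (n + 1) ++ cw (n + 1)).getD i false = modM_c (Nat.fib n) (Nat.fib (n + 1)) 0 i := by
  intro i hi
  have hp : 0 < Nat.fib (n + 1) := Nat.fib_pos.2 (by omega)
  by_cases h : i < Nat.fib (n + 1)
  · rw [List.getD_append _ _ _ _ (by rw [modM_length]; exact h), modM_cw n i h]
  · rw [List.getD_append_right _ _ _ _ (by rw [modM_length]; omega), modM_length,
      modM_cw n _ (by omega)]
    obtain ⟨j, rfl⟩ : ∃ j, i = j + Nat.fib (n + 1) := ⟨i - Nat.fib (n + 1), by omega⟩
    rw [Nat.add_sub_cancel]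
    have := modM_c_add (Nat.fib n) (Nat.fib (n + 1)) 0 j 1 (by exact_mod_cast hp)
    rw [mul_one] at this
    push_cast
    exact this.symm

private theorem modM_fw_iff (om : ℝ) (n : ℤ) :
    fw om n = true ↔ ⌊((n : ℝ) + 1) * alpha + om⌋ = ⌊(n : ℝ) * alpha + om⌋ + 1 := by
  unfold fw
  refine (@decide_eq_true_iff _ (Classical.dec _)).trans ?_
  rw [Set.mem_Ico]
  have e : ((n : ℝ) + 1) * alpha + om = ((n : ℝ) * alpha + om) + alpha := by ring
  rw [e]
  generalize (n : ℝ) * alpha + om = y
  have h0 := modM_alpha_pos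
  have h1 := modM_alpha_lt
  have hf := Int.self_sub_floor y
  have hl := Int.fract_lt_one y
  constructor
  · rintro ⟨h, -⟩
    rw [Int.floor_eq_iff]
    push_cast
    constructor <;> linarith
  · intro h
    rw [Int.floor_eq_iff] at h
    push_cast at h
    exact ⟨by linarith [h.1], hl⟩

/-- comparison of letters through floors. -/
private theorem modM_letter (om : ℝ) (n : ℤ) (p q j m N : ℤ)
    (h0 : ⌊(n : ℝ) * alpha + om⌋ = N + (m * p + j) / q)
    (h1 : ⌊((n : ℝ) + 1) * alpha + om⌋ = N + ((m + 1) * p + j) / q) :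
    modM_c p q j m = fw om n := by
  rw [Bool.eq_iff_iff, modM_fw_iff, h0, h1, modM_c, decide_eq_true_iff]
  constructor <;> intro h <;> linarith

private theorem modM_floor_real (x : ℝ) (a q : ℤ) (hq : 0 < q) (h1 : (a : ℝ) ≤ q * x)
    (h2 : q * x < a + 1) : ⌊x⌋ = a / q := by
  have hq' : (0 : ℝ) < q := by exact_mod_cast hq
  have e1 : a / q * q ≤ a := Int.ediv_mul_le _ hq.ne'
  have e2 : a < (a / q + 1) * q := Int.lt_ediv_add_one_mul_self _ hq
  have e3 : a + 1 ≤ (a / q + 1) * q := e2
  have e1' : ((a / q : ℤ) : ℝ) * q ≤ a := by exact_mod_cast e1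
  have e3' : (a : ℝ) + 1 ≤ (((a / q : ℤ) : ℝ) + 1) * q := by exact_mod_cast e3
  rw [Int.floor_eq_iff]
  constructor
  · have : ((a / q : ℤ) : ℝ) * q ≤ x * q := by linarith
    exact le_of_mul_le_mul_right this hq'
  · have : x * q < (((a / q : ℤ) : ℝ) + 1) * q := by linarith
    exact lt_of_mul_lt_mul_right this hq'.le

theorem square_in_seq (om : ℝ) (n : ℕ) (hn : 3 ≤ n) : ∃ m : ℤ,
    ∀ i : ℕ, i < 2 * Nat.fib n → (cw n ++ cw n).getD i false = fw om (m + i) := by
  obtain ⟨k, rfl⟩ : ∃ k, n = k + 1 := ⟨n - 1, by omega⟩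
  have hk : 2 ≤ k := by omega
  set q := Nat.fib (k + 1) with hqdef
  set p := Nat.fib k with hpdef
  have hq0 : 0 < q := Nat.fib_pos.2 (by omega)
  have hqr : (0 : ℝ) < q := by exact_mod_cast hq0
  have hhalf := modM_half k hk
  rw [← hqdef] at hhalf
  have habs := modM_abs k
  rw [← hqdef, ← hpdef] at habs
  set e : ℝ := alpha ^ (k + 1) with he
  have he0 : 0 ≤ e := pow_nonneg modM_alpha_pos.le _
  -- find m0, N with |m0 α + om - N - 1/(2q)| < 1/(2q) - e
  have hgap : 0 < 1 / (2 * (q : ℝ)) - e := by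
    have : e < 1 / (2 * (q : ℝ)) := by
      rw [lt_div_iff₀ (by positivity)]
      linarith
    linarith
  have hd : Dense (AddSubgroup.closure {alpha, 1} : Set ℝ) :=
    dense_addSubgroupClosure_pair_iff.2 (by simpa using modM_alpha_irr)
  obtain ⟨z, hz, hzd⟩ := hd.exists_dist_lt (1 / (2 * (q : ℝ)) - om) hgap
  obtain ⟨m0, N', hmN⟩ := AddSubgroup.mem_closure_pair.1 hz
  simp only [zsmul_eq_mul, mul_one] at hmN
  rw [Real.dist_eq, ← hmN] at hzd
  refine ⟨m0 - q, ?_⟩
  intro i hi
  rw [modM_cwcw k i hi]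
  rw [← hqdef, ← hpdef]
  have hqz : (0 : ℤ) < q := by exact_mod_cast hq0
  -- floor identity
  have hfl : ∀ j : ℤ, |j| ≤ q → ⌊((m0 : ℝ) + j) * alpha + om⌋ = -N' + (j * p + 0) / q := by
    intro j hj
    have hjr : |(j : ℝ)| ≤ q := by exact_mod_cast hj
    have h1 : ⌊((m0 : ℝ) + j) * alpha + om + N'⌋ = (j * p + 0) / q := by
      refine modM_floor_real _ _ _ hqz ?_ ?_
      all_goals
        have hb : |(j : ℝ) * (q * alpha - p)| ≤ q * e := by
          rw [abs_mul, habs]
          exact mul_le_mul_of_nonneg_right hjr he0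
        have hx : |(q : ℝ) * (1 / (2 * (q : ℝ)) - om - (m0 * alpha + N'))| < q * (1 / (2 * (q : ℝ)) - e) := by
          rw [abs_mul, abs_of_pos hqr]
          exact mul_lt_mul_of_pos_left hzd hqr
        have hq1 : (q : ℝ) * (1 / (2 * (q : ℝ))) = 1 / 2 := by field_simp
        have hx' := abs_lt.1 hx
        have hb' := abs_le.1 hb
        have e1 : (q : ℝ) * (1 / (2 * (q : ℝ)) - om - (m0 * alpha + N')) =
          1 / 2 - q * om - q * (m0 * alpha + N') := by
            rw [mul_sub, mul_sub, hq1]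
        have e2 : (q : ℝ) * (1 / (2 * (q : ℝ)) - e) = 1 / 2 - q * e := by
            rw [mul_sub, hq1]
        rw [e1, e2] at hx'
        push_cast
      · nlinarith [hx'.1, hx'.2, hb'.1, hb'.2]
      · nlinarith [hx'.1, hx'.2, hb'.1, hb'.2]
    rw [Int.floor_add_intCast] at h1
    linarith
  -- use j = i - q
  have hper := modM_c_add p q 0 ((i : ℤ) - q) 1 hqz
  rw [mul_one, sub_add_cancel] at hper
  rw [hper]
  have hj0 : |(i : ℤ) - q| ≤ q := by
    rw [abs_le]; constructor <;> omega
  have hj1 : |(i : ℤ) - q + 1| ≤ q := by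
    rw [abs_le]; constructor <;> omega
  refine modM_letter om _ p q 0 ((i : ℤ) - q) (-N') ?_ ?_
  · rw [← hfl _ hj0]
    congr 1
    push_cast
    ring
  · rw [← hfl _ hj1]
    congr 1
    push_cast
    ring

private theorem modM_finmin (L : ℕ) (om : ℝ) : ∃ δ : ℝ, 0 < δ ∧ ∀ m : ℤ, |m| ≤ L + 1 →
    (m : ℝ) * alpha + om + δ < ⌊(m : ℝ) * alpha + om⌋ + 1 := by
  have hfin : (Set.Icc (-((L : ℤ) + 1)) (L + 1)).Finite := Set.finite_Icc _ _
  set g : ℤ → ℝ := fun m => (⌊(m : ℝ) * alpha + om⌋ + 1 - ((m : ℝ) * alpha + om)) / 2 with hg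
  have hgpos : ∀ m, 0 < g m := by
    intro m
    have := Int.lt_floor_add_one ((m : ℝ) * alpha + om)
    simp only [hg]
    linarith
  obtain ⟨m0, hm0, hmin⟩ := Set.exists_min_image _ g hfin ⟨0, by constructor <;> omega⟩
  refine ⟨g m0, hgpos m0, ?_⟩
  intro m hm
  have h1 := hmin m (abs_le.1 hm)
  have h2 := hgpos m
  simp only [hg] at h1 h2 ⊢
  linarith

/-- `cw k ++ cw k` is a factor of `cw (k + 2)` for `k ≥ 2`. -/
private theorem modM_factor (k : ℕ) (hk : 2 ≤ k) : ∃ u v : List Bool,
    cw (k + 2) = u ++ ((cw k ++ cw k) ++ v) := by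
  obtain ⟨n, rfl⟩ : ∃ n, k = n + 2 := ⟨k - 2, by omega⟩
  -- cw (n+4), cw (n+2), cw (n+1)
  have h4 : cw (n + 4) = if (n + 1) % 2 = 0 then cw (n + 2) ++ cw (n + 3) else cw (n + 3) ++ cw (n + 2) := by
    rw [show n + 4 = (n + 1) + 3 by ring, cw]
  have h3 : cw (n + 3) = if n % 2 = 0 then cw (n + 1) ++ cw (n + 2) else cw (n + 2) ++ cw (n + 1) := by
    rw [cw]
  rcases Nat.even_or_odd n with hn | hn
  · have hn' := Nat.even_iff.1 hn
    rw [if_pos hn'] at h3
    rw [if_neg (by omega), h3] at h4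
    exact ⟨cw (n + 1), [], by rw [h4]; simp⟩
  · have hn' := Nat.odd_iff.1 hn
    rw [if_neg (by omega)] at h3
    rw [if_pos (by omega), h3] at h4
    exact ⟨[], cw (n + 1), by rw [h4]; simp⟩

theorem window_in_word (om : ℝ) (L N : ℕ) : ∃ n, N ≤ n ∧ 1 ≤ n ∧ ∃ s : ℕ,
    s + 2 * L + 1 ≤ Nat.fib n ∧
    ∀ i : ℕ, i < 2 * L + 1 → (cw n).getD (s + i) false = fw om ((i : ℤ) - L) := by
  obtain ⟨δ, hδ, hfl⟩ := modM_finmin L om
  have ha := modM_alpha_pos
  have ha1 := modM_alpha_lt
  -- choose k large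
  obtain ⟨k, hk1, hk2, hk3, hk4⟩ : ∃ k : ℕ, N ≤ k ∧ 2 ≤ k ∧ ((L : ℝ) + 1) * alpha ^ (k + 1) ≤ 1 ∧
      3 < δ * Nat.fib (k + 1) ∧ 2 * L + 1 ≤ Nat.fib (k + 1) := by
    have t1 : Tendsto (fun k : ℕ => ((L : ℝ) + 1) * alpha ^ (k + 1)) atTop (𝓝 0) := by
      have := ((tendsto_pow_atTop_nhds_zero_of_lt_one ha.le ha1).comp (tendsto_add_atTop_nat 1)).const_mul
        ((L : ℝ) + 1)
      simpa using this
    have f1 : ∀ᶠ k : ℕ in atTop, ((L : ℝ) + 1) * alpha ^ (k + 1) ≤ 1 :=
      (t1.eventually (gt_mem_nhds one_pos)).mono fun k hk => hk.le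
    have hfib : Tendsto (fun k : ℕ => Nat.fib (k + 1)) atTop atTop := by
      refine tendsto_atTop_mono' atTop ?_ (tendsto_id (α := ℕ) (x := atTop))
      filter_upwards [eventually_ge_atTop 5] with k hk
      exact (Nat.le_fib_self hk).trans (Nat.fib_mono (by omega))
    have f2 : ∀ᶠ k : ℕ in atTop, 3 < δ * Nat.fib (k + 1) := by
      have := (tendsto_natCast_atTop_atTop (R := ℝ)).comp hfib
      have := this.const_mul_atTop hδ
      exact this.eventually_gt_atTop 3
    have f3 : ∀ᶠ k : ℕ in atTop, 2 * L + 1 ≤ Nat.fib (k + 1) := hfib.eventually_ge_atTop _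
    have := ((f1.and f2).and f3).and ((eventually_ge_atTop N).and (eventually_ge_atTop 2))
    obtain ⟨k, ⟨⟨⟨h1, h2⟩, h3⟩, h4, h5⟩⟩ := this.exists
    exact ⟨k, h4, h5, h1, h2, h3⟩
  obtain ⟨hk4, hk5⟩ := hk4
  set q := Nat.fib (k + 1) with hqdef
  set p := Nat.fib k with hpdef
  have hq0 : 0 < q := Nat.fib_pos.2 (by omega)
  have hqr : (0 : ℝ) < q := by exact_mod_cast hq0
  have hqz : (0 : ℤ) < q := by exact_mod_cast hq0
  have habs := modM_abs k
  rw [← hqdef, ← hpdef] at habs
  set e : ℝ := alpha ^ (k + 1) with he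
  set j : ℤ := ⌈(q : ℝ) * om⌉ + 1 with hj
  have hj1 : (q : ℝ) * om + 1 ≤ j := by
    have := Int.le_ceil ((q : ℝ) * om)
    rw [hj]; push_cast; linarith
  have hj2 : (j : ℝ) < q * om + 2 := by
    have := Int.ceil_lt_add_one ((q : ℝ) * om)
    rw [hj]; push_cast; linarith
  -- floors
  have hfloor : ∀ m : ℤ, |m| ≤ L + 1 → ⌊(m : ℝ) * alpha + om⌋ = (m * p + j) / q := by
    intro m hm
    symm
    rw [Int.ediv_eq_iff_of_pos hqz]
    have hmr : |(m : ℝ)| ≤ L + 1 := by exact_mod_cast hm
    have hb : |(m : ℝ) * (q * alpha - p)| ≤ 1 := by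
      rw [abs_mul, habs]
      exact (mul_le_mul_of_nonneg_right hmr (by positivity)).trans hk3
    have hb' := abs_le.1 hb
    have h1 := Int.floor_le ((m : ℝ) * alpha + om)
    have h2 := hfl m hm
    set z := ⌊(m : ℝ) * alpha + om⌋ with hz
    constructor
    · have : ((z * q : ℤ) : ℝ) ≤ ((m * p + j : ℤ) : ℝ) := by
        push_cast
        have : (z : ℝ) * q ≤ ((m : ℝ) * alpha + om) * q := mul_le_mul_of_nonneg_right h1 hqr.le
        nlinarith [hb'.1, hb'.2]
      exact_mod_cast this
    · have : ((m * p + j : ℤ) : ℝ) < ((z * q + q : ℤ) : ℝ) := by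
        push_cast
        have h3 : ((m : ℝ) * alpha + om + δ) * q < ((z : ℝ) + 1) * q := mul_lt_mul_of_pos_right h2 hqr
        nlinarith [hb'.1, hb'.2]
      exact_mod_cast this
  -- inverse of p mod q
  have hcop : IsCoprime (p : ℤ) (q : ℤ) := by
    rw [Int.isCoprime_iff_gcd_eq_one]
    have := Nat.fib_coprime_fib_succ k
    rw [← hqdef, ← hpdef] at this
    simpa [Int.gcd_natCast_natCast] using this
  obtain ⟨a, b, hab⟩ := hcop
  set t : ℤ := j * a with ht
  set s0 : ℤ := (t - L) % q with hs0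
  have hs0n : 0 ≤ s0 := Int.emod_nonneg _ hqz.ne'
  have hs0l : s0 < q := Int.emod_lt_of_pos _ hqz
  obtain ⟨s1, hs1⟩ := Int.eq_ofNat_of_zero_le hs0n
  have hs1l : s1 < q := by
    have : (s1 : ℤ) < q := by rw [← hs1]; exact hs0l
    exact_mod_cast this
  obtain ⟨u, v, huv⟩ := modM_factor (k + 1) (by omega)
  refine ⟨k + 1 + 2, by omega, by omega, u.length + s1, ?_, ?_⟩
  · have hlen := congrArg List.length huv
    rw [List.length_append, List.length_append, List.length_append, modM_length, modM_length] at hlen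
    rw [hlen, ← hqdef]
    omega
  · intro i hi
    rw [huv, List.getD_append_right _ _ _ _ (by omega), show u.length + s1 + i - u.length = s1 + i by omega,
      List.getD_append _ _ _ _ (by rw [List.length_append, modM_length]; omega),
      modM_cwcw k _ (by omega)]
    rw [← hqdef, ← hpdef]
    have h1 : ((s1 + i : ℕ) : ℤ) = (t + ((i : ℤ) - L)) + q * (-((t - L) / q)) := by
      push_cast
      have h2 : (s1 : ℤ) = s0 := by rw [hs1]
      have h3 := Int.emod_add_mul_ediv (t - L) q
      rw [← hs0] at h3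
      rw [h2]
      linarith
    rw [h1, modM_c_add _ _ _ _ _ hqz]
    refine modM_letter om ((i : ℤ) - L) p q 0 (t + ((i : ℤ) - L)) (j * b) ?_ ?_
    · rw [hfloor _ (by rw [abs_le]; constructor <;> omega)]
      have : (t + ((i : ℤ) - L)) * p + 0 = (((i : ℤ) - L) * p + j) + q * (-(j * b)) := by
        rw [ht]; linear_combination j * hab
      rw [this, Int.add_mul_ediv_left _ _ hqz.ne']
      ring
    · have hc : (((i : ℤ) - L : ℤ) : ℝ) + 1 = (((i : ℤ) - L + 1 : ℤ) : ℝ) := by push_cast; ring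
      rw [hc, hfloor _ (by rw [abs_le]; constructor <;> omega)]
      have : (t + ((i : ℤ) - L) + 1) * p + 0 = (((i : ℤ) - L + 1) * p + j) + q * (-(j * b)) := by
        rw [ht]; linear_combination j * hab
      rw [this, Int.add_mul_ediv_left _ _ hqz.ne']
      ring

end Pool.Agent.H22.Fib
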