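import Pool.Agent.H22.Fib.ModK2
import Pool.Agent.H22.Fib.ModL
import Pool.Agent.H22.Fib.ModM

/-!
Module N1: the spectrum is covered by the periodic approximants.
-/

set_option autoImplicit false

noncomputable section

open Polynomial Filter Topology

namespace Pool.Agent.H22.Fib

private theorem modN1_sum (q : ℕ) (a b c : ℤ) (G : ℤ → ℝ)
    (hsupp : ∀ x, ¬ (a + c ≤ x ∧ x ≤ b + c) → G x = 0) (h0 : 0 ≤ a + c) (h1 : b + c < q) :
    ∑ j : Fin q, G ((j : ℕ) : ℤ) = ∑ n ∈ Finset.Icc a b, G (n + c) := by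
  rw [Fin.sum_univ_eq_sum_range (fun j => G ((j : ℕ) : ℤ)) q]
  symm
  refine Finset.sum_of_injOn (fun n : ℤ => (n + c).toNat) ?_ ?_ ?_ ?_
  · intro x hx y hy hxy
    simp only [Finset.coe_Icc, Set.mem_Icc] at hx hy
    simp only at hxy
    omega
  · intro x hx
    simp only [Finset.coe_Icc, Set.mem_Icc] at hx
    simp only [Finset.coe_range, Set.mem_Iio]
    omega
  · intro i hi hni
    apply hsupp
    intro hcon
    apply hni
    refine ⟨(i : ℤ) - c, ?_, ?_⟩
    · simp only [Finset.coe_Icc, Set.mem_Icc]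
      omega
    · simp
  · intro i hi
    simp only [Finset.mem_Icc] at hi
    congr 1
    omega

private theorem modN1_sum_ite_succ {q : ℕ} (j : Fin q) (v : Fin q → ℂ) (F : ℤ → ℂ)
    (hF : ∀ i : Fin q, v i = F ((i : ℕ) : ℤ)) (hq : F q = 0) :
    ∑ i : Fin q, (if (j : ℕ) + 1 = (i : ℕ) then (1 : ℂ) else 0) * v i = F ((j : ℕ) + 1) := by
  by_cases h : (j : ℕ) + 1 < q
  · rw [Finset.sum_eq_single (⟨(j : ℕ) + 1, h⟩ : Fin q)]
    · simp [hF]
    · intro b _ hb
      have : ¬ ((j : ℕ) + 1 = (b : ℕ)) := by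
        intro h'
        apply hb
        ext
        exact h'.symm
      simp [this]
    · intro h'
      exact absurd (Finset.mem_univ _) h'
  · have hj : (j : ℕ) + 1 = q := by omega
    have : ((j : ℕ) : ℤ) + 1 = q := by exact_mod_cast hj
    rw [this, hq]
    apply Finset.sum_eq_zero
    intro i _
    have hi := i.2
    rw [if_neg (by omega), zero_mul]

private theorem modN1_sum_ite_pred {q : ℕ} (j : Fin q) (v : Fin q → ℂ) (F : ℤ → ℂ)
    (hF : ∀ i : Fin q, v i = F ((i : ℕ) : ℤ)) (hq : F (-1) = 0) :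
    ∑ i : Fin q, (if (i : ℕ) + 1 = (j : ℕ) then (1 : ℂ) else 0) * v i = F ((j : ℕ) - 1) := by
  by_cases h : 1 ≤ (j : ℕ)
  · rw [Finset.sum_eq_single (⟨(j : ℕ) - 1, by omega⟩ : Fin q)]
    · have : (j : ℕ) - 1 + 1 = (j : ℕ) := by omega
      simp [hF, this, Nat.cast_sub h]
    · intro b _ hb
      have : ¬ ((b : ℕ) + 1 = (j : ℕ)) := by
        intro h'
        apply hb
        ext
        show (b : ℕ) = (j : ℕ) - 1
        omega
      simp [this]
    · intro h'
      exact absurd (Finset.mem_univ _) h'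
  · have hj : (j : ℕ) = 0 := by omega
    have : ((j : ℕ) : ℤ) - 1 = -1 := by rw [hj]; rfl
    rw [this, hq]
    apply Finset.sum_eq_zero
    intro i _
    rw [if_neg (by omega), zero_mul]

private theorem modN1_cyc (lam : ℝ) (w : List Bool) (v : Fin w.length → ℂ) (F : ℤ → ℂ)
    (hF : ∀ i : Fin w.length, v i = F ((i : ℕ) : ℤ)) (h0 : F 0 = 0)
    (h1 : F (w.length - 1) = 0) (h2 : F w.length = 0) (h3 : F (-1) = 0) (j : Fin w.length) :
    ((cyc lam w).mulVec v) j =
      F ((j : ℕ) + 1) + F ((j : ℕ) - 1) + (lv lam (w.get j) : ℂ) * F (j : ℕ) := by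
  have e1 := modN1_sum_ite_succ j v F hF h2
  have e2 := modN1_sum_ite_pred j v F hF h3
  have e3 : ∑ i : Fin w.length, (if j = i then (lv lam (w.get j) : ℂ) else 0) * v i =
      (lv lam (w.get j) : ℂ) * F (j : ℕ) := by
    rw [Finset.sum_eq_single j]
    · simp [hF]
    · intro b _ hb
      simp [Ne.symm hb]
    · intro h'
      exact absurd (Finset.mem_univ _) h'
  have e4 : ∑ i : Fin w.length,
      (if (j : ℕ) + 1 = w.length ∧ (i : ℕ) = 0 then Complex.I else 0) * v i = 0 := by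
    apply Finset.sum_eq_zero
    intro i _
    by_cases h : (i : ℕ) = 0
    · rw [hF i, h]
      simp [h0]
    · rw [if_neg (by tauto), zero_mul]
  have e5 : ∑ i : Fin w.length,
      (if (j : ℕ) = 0 ∧ (i : ℕ) + 1 = w.length then -Complex.I else 0) * v i = 0 := by
    apply Finset.sum_eq_zero
    intro i _
    by_cases h : (i : ℕ) + 1 = w.length
    · have : ((i : ℕ) : ℤ) = w.length - 1 := by
        have : ((i : ℕ) : ℤ) + 1 = w.length := by exact_mod_cast h
        omega
      rw [hF i, this, h1, mul_zero]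
    · rw [if_neg (by tauto), zero_mul]
  have : ((cyc lam w).mulVec v) j =
      (∑ i : Fin w.length, (if j = i then (lv lam (w.get j) : ℂ) else 0) * v i) +
      (∑ i : Fin w.length, (if (j : ℕ) + 1 = (i : ℕ) then (1 : ℂ) else 0) * v i) +
      (∑ i : Fin w.length, (if (i : ℕ) + 1 = (j : ℕ) then (1 : ℂ) else 0) * v i) +
      (∑ i : Fin w.length,
        (if (j : ℕ) + 1 = w.length ∧ (i : ℕ) = 0 then Complex.I else 0) * v i) +
      (∑ i : Fin w.length,
        (if (j : ℕ) = 0 ∧ (i : ℕ) + 1 = w.length then -Complex.I else 0) * v i) := by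
    rw [← Finset.sum_add_distrib, ← Finset.sum_add_distrib, ← Finset.sum_add_distrib,
      ← Finset.sum_add_distrib]
    unfold Matrix.mulVec dotProduct
    apply Finset.sum_congr rfl
    intro i _
    unfold cyc
    ring
  rw [this, e1, e2, e3, e4, e5]
  ring

theorem Sig_subset (lam om : ℝ) (k : ℕ) (hk : 1 ≤ k) :
    Sig lam om ⊆ sig lam k ∪ sig lam (k + 1) := by
  intro E hE
  by_contra hcon
  rw [Set.mem_union, not_or] at hcon
  obtain ⟨hk1, hk2⟩ := hcon
  have hk1 : 2 < |(tp lam k).eval E| := not_le.1 hk1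
  have hk2 : 2 < |(tp lam (k + 1)).eval E| := not_le.1 hk2
  -- a neighbourhood where both are large
  have hc1 : Continuous (fun x : ℝ => |(tp lam k).eval x|) := (tp lam k).continuous.abs
  have hc2 : Continuous (fun x : ℝ => |(tp lam (k + 1)).eval x|) :=
    (tp lam (k + 1)).continuous.abs
  have ho : IsOpen {x : ℝ | 2 < |(tp lam k).eval x| ∧ 2 < |(tp lam (k + 1)).eval x|} :=
    (isOpen_lt continuous_const hc1).inter (isOpen_lt continuous_const hc2)
  obtain ⟨δ, hδ, hball⟩ := Metric.isOpen_iff.1 ho E ⟨hk1, hk2⟩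
  have hroot : ∀ n, k ≤ n → ∀ x, (tp lam n).eval x = 0 → δ ≤ |x - E| := by
    intro n hn x hx
    by_contra hlt
    rw [not_le] at hlt
    have hmem := hball (show x ∈ Metric.ball E δ by rw [Metric.mem_ball, Real.dist_eq]; exact hlt)
    have := escape lam x k hmem.1 hmem.2 n hn
    rw [hx, abs_zero] at this
    linarith
  refine not_mem_Sig lam om E δ hδ ?_ hE
  intro L f hf
  obtain ⟨n, hkn, hn1, s, hs, hw⟩ := window_in_word om (L + 1) k
  rw [← cw_length] at hs
  -- the transplanted vector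
  set c : ℤ := (s : ℤ) + L + 1 with hc
  set F : ℤ → ℂ := fun x => f (x - c) with hFdef
  have hFz : ∀ x : ℤ, (L : ℤ) < |x - c| → F x = 0 := fun x hx => hf _ hx
  have hF0 : ∀ x : ℤ, ¬ (-(L : ℤ) + c ≤ x ∧ x ≤ (L : ℤ) + c) → F x = 0 := by
    intro x hx
    apply hFz
    rw [lt_abs]
    omega
  set q := (cw n).length with hq
  have hb := cyc_bound lam n hn1 E δ hδ.le (hroot n hkn) (fun j => F ((j : ℕ) : ℤ))
  have hcyc : ∀ j : Fin q, ((cyc lam (cw n)).mulVec (fun j => F ((j : ℕ) : ℤ))) j =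
      F ((j : ℕ) + 1) + F ((j : ℕ) - 1) + (lv lam ((cw n).get j) : ℂ) * F (j : ℕ) := by
    intro j
    refine modN1_cyc lam (cw n) _ F (fun _ => rfl) ?_ ?_ ?_ ?_ j
    all_goals
      apply hF0
      omega
  -- left side
  have hL : ∑ j : Fin q, ‖F ((j : ℕ) : ℤ)‖ ^ 2 = ∑ n ∈ Finset.Icc (-(L : ℤ)) L, ‖f n‖ ^ 2 := by
    rw [modN1_sum q (-(L : ℤ)) L c (fun x => ‖F x‖ ^ 2)]
    · apply Finset.sum_congr rfl
      intro x _
      simp [hFdef]
    · intro x hx
      rw [hF0 x hx]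
      simp
    · omega
    · omega
  -- right side
  set G : ℤ → ℝ := fun x =>
    ‖F (x + 1) + F (x - 1) + (fibV lam om (x - c) : ℂ) * F x - (E : ℂ) * F x‖ ^ 2 with hG
  have hR1 : ∀ j : Fin q, ‖((cyc lam (cw n)).mulVec (fun j => F ((j : ℕ) : ℤ))) j -
      (E : ℂ) * F ((j : ℕ) : ℤ)‖ ^ 2 = G ((j : ℕ) : ℤ) := by
    intro j
    rw [hcyc j, hG]
    simp only
    by_cases hj : (-(L : ℤ) + c ≤ ((j : ℕ) : ℤ) ∧ ((j : ℕ) : ℤ) ≤ (L : ℤ) + c)
    · have hfib : lv lam ((cw n).get j) = fibV lam om (((j : ℕ) : ℤ) - c) := by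
        rw [fibV_eq]
        congr 1
        have hi := hw ((j : ℕ) - s) (by omega)
        have e1 : s + ((j : ℕ) - s) = (j : ℕ) := by omega
        rw [e1] at hi
        have e2 : (((j : ℕ) - s : ℕ) : ℤ) - ((L + 1 : ℕ) : ℤ) = ((j : ℕ) : ℤ) - c := by omega
        rw [e2] at hi
        rw [← hi]
        have hjl : (j : ℕ) < (cw n).length := j.2
        rw [List.getD_eq_getElem _ _ hjl]
        rfl
      rw [hfib]
    · rw [hF0 _ hj]
      simp
  have hR : ∑ j : Fin q, ‖((cyc lam (cw n)).mulVec (fun j => F ((j : ℕ) : ℤ))) j -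
      (E : ℂ) * F ((j : ℕ) : ℤ)‖ ^ 2 = ∑ n ∈ Finset.Icc (-(L : ℤ) - 1) (L + 1),
          ‖f (n + 1) + f (n - 1) + (fibV lam om n : ℂ) * f n - (E : ℂ) * f n‖ ^ 2 := by
    rw [Finset.sum_congr rfl (fun j _ => hR1 j)]
    rw [modN1_sum q (-(L : ℤ) - 1) (L + 1) c G]
    · apply Finset.sum_congr rfl
      intro x _
      simp only [hG, hFdef]
      have e1 : x + c + 1 - c = x + 1 := by ring
      have e2 : x + c - 1 - c = x - 1 := by ring
      have e3 : x + c - c = x := by ring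
      rw [e1, e2, e3]
    · intro x hx
      simp only [hG]
      rw [hF0 x (by omega), hF0 (x + 1) (by omega), hF0 (x - 1) (by omega)]
      simp
    · omega
    · omega
  rw [← hL, ← hR]
  exact hb

end Pool.Agent.H22.Fib
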