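import Pool.Agent.H22.Fib.Defs

/-!
Module I: words and transfer matrices.
-/

set_option autoImplicit false

noncomputable section

open Polynomial Filter Topology

namespace Pool.Agent.H22.Fib

theorem cw_length (n : ℕ) : (cw n).length = Nat.fib n := by
  induction n using Nat.strong_induction_on with
  | _ n ih =>
    match n, ih with
    | 0, _ => rfl
    | 1, _ => rfl
    | 2, _ => rfl
    | (n + 3), ih =>
      have h1 := ih (n + 1) (by omega)
      have h2 := ih (n + 2) (by omega)
      have h3 : Nat.fib (n + 3) = Nat.fib (n + 1) + Nat.fib (n + 2) := Nat.fib_add_two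
      rw [cw, h3]
      split_ifs
      · rw [List.length_append, h1, h2]
      · rw [List.length_append, h1, h2]
        ring

theorem mon_append (lam E : ℝ) (w w' : List Bool) :
    mon lam E (w ++ w') = mon lam E w' * mon lam E w := by
  induction w with
  | nil => simp [mon]
  | cons b w ih => rw [List.cons_append, mon, ih, mon, Matrix.mul_assoc]

theorem modI_det_tm (a : ℝ) : (tm a).det = 1 := by
  unfold tm
  rw [Matrix.det_fin_two_of]
  ring

theorem mon_det (lam E : ℝ) (w : List Bool) : (mon lam E w).det = 1 := by
  induction w with
  | nil => simp [mon]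
  | cons b w ih => rw [mon, Matrix.det_mul, ih, modI_det_tm, one_mul]

theorem modI_trace (A B : Matrix (Fin 2) (Fin 2) ℝ) :
    (A * B).trace = A.trace * B.trace - (A * B.adjugate).trace := by
  rw [Matrix.adjugate_fin_two]
  simp only [Matrix.trace_fin_two, Matrix.mul_apply, Fin.sum_univ_two, Matrix.of_apply,
    Matrix.cons_val', Matrix.cons_val_zero, Matrix.cons_val_one, Matrix.cons_val_fin_one]
  ring

theorem mon_trace (lam E : ℝ) (n : ℕ) (hn : 1 ≤ n) :
    (mon lam E (cw n)).trace = (tp lam n).eval E := by
  induction n using Nat.strong_induction_on with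
  | _ n ih =>
    match n, hn, ih with
    | 1, _, _ => simp [cw, mon, tm, tp, lv, Matrix.trace_fin_two]
    | 2, _, _ => simp [cw, mon, tm, tp, lv, Matrix.trace_fin_two]
    | (n + 3), _, ih =>
      have h1 := ih (n + 1) (by omega) (by omega)
      have h2 := ih (n + 2) (by omega) (by omega)
      have htr : (mon lam E (cw (n + 3))).trace =
          (mon lam E (cw (n + 2)) * mon lam E (cw (n + 1))).trace := by
        rw [cw]
        split_ifs
        · rw [mon_append]
        · rw [mon_append, Matrix.trace_mul_comm]
      have hadj : (mon lam E (cw (n + 2)) * (mon lam E (cw (n + 1))).adjugate).trace =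
          (tp lam n).eval E := by
        rcases n with _ | n
        · simp [cw, mon, tm, tp, lv, Matrix.trace_fin_two, Matrix.adjugate_fin_two]
          norm_num
        · have h3 := ih (n + 1) (by omega) (by omega)
          have hd := mon_det lam E (cw (n + 2))
          have e1 : n + 1 + 2 = n + 3 := rfl
          have e2 : n + 1 + 1 = n + 2 := rfl
          rw [e1, e2, cw]
          split_ifs
          · rw [mon_append, Matrix.trace_mul_cycle, Matrix.adjugate_mul, hd, one_smul,
              Matrix.one_mul, h3]
          · rw [mon_append, Matrix.mul_assoc, Matrix.mul_adjugate, hd, one_smul,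
              Matrix.mul_one, h3]
      rw [htr, modI_trace, h1, h2, hadj, tp]
      simp

end Pool.Agent.H22.Fib
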