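import Pool.Agent.H22.Fib.ModA
import Pool.Agent.H22.Fib.ModI
import Pool.Agent.H22.Fib.ModL
import Pool.Agent.H22.Fib.ModM

/-!
Module N2: the roots of the trace polynomials are close to the spectrum.
-/

set_option autoImplicit false

noncomputable section

open Polynomial Filter Topology

namespace Pool.Agent.H22.Fib

/-- the bound from below for `H - E` on finitely supported functions -/
def modN2_bd (lam om E δ : ℝ) : Prop :=
  ∀ (a b : ℤ) (f : ℤ → ℂ), (∀ n, n < a ∨ b < n → f n = 0) →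
    δ ^ 2 * ∑ n ∈ Finset.Icc a b, ‖f n‖ ^ 2 ≤
      ∑ n ∈ Finset.Icc (a - 1) (b + 1),
        ‖f (n + 1) + f (n - 1) + (fibV lam om n : ℂ) * f n - (E : ℂ) * f n‖ ^ 2

lemma modN2_bd_mono {lam om E δ δ' : ℝ} (h : modN2_bd lam om E δ) (h0 : 0 ≤ δ') (h1 : δ' ≤ δ) :
    modN2_bd lam om E δ' := by
  intro a b f hf
  refine le_trans ?_ (h a b f hf)
  gcongr

lemma modN2_bd_near {lam om E E' δ : ℝ} (h : modN2_bd lam om E δ) (hE : |E - E'| ≤ δ / 2) :
    modN2_bd lam om E' (δ / 2) := by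
  intro a b f hf
  have h1 := h a b f hf
  have h2 : ∑ n ∈ Finset.Icc (a - 1) (b + 1),
        ‖f (n + 1) + f (n - 1) + (fibV lam om n : ℂ) * f n - (E : ℂ) * f n‖ ^ 2 ≤
      2 * ∑ n ∈ Finset.Icc (a - 1) (b + 1),
        ‖f (n + 1) + f (n - 1) + (fibV lam om n : ℂ) * f n - (E' : ℂ) * f n‖ ^ 2 +
      2 * (δ / 2) ^ 2 * ∑ n ∈ Finset.Icc (a - 1) (b + 1), ‖f n‖ ^ 2 := by
    rw [Finset.mul_sum, Finset.mul_sum, ← Finset.sum_add_distrib]
    refine Finset.sum_le_sum fun n _ => ?_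
    have e1 : f (n + 1) + f (n - 1) + (fibV lam om n : ℂ) * f n - (E : ℂ) * f n =
        (f (n + 1) + f (n - 1) + (fibV lam om n : ℂ) * f n - (E' : ℂ) * f n) +
          ((E' - E : ℝ) : ℂ) * f n := by
      push_cast; ring
    rw [e1]
    set A := f (n + 1) + f (n - 1) + (fibV lam om n : ℂ) * f n - (E' : ℂ) * f n
    have e2 : ‖((E' - E : ℝ) : ℂ) * f n‖ ≤ δ / 2 * ‖f n‖ := by
      rw [norm_mul, Complex.norm_real, Real.norm_eq_abs, abs_sub_comm]
      gcongr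
    have e3 := norm_add_le A (((E' - E : ℝ) : ℂ) * f n)
    have e4 : ‖A + ((E' - E : ℝ) : ℂ) * f n‖ ≤ ‖A‖ + δ / 2 * ‖f n‖ := e3.trans (by linarith)
    have e5 : ‖A + ((E' - E : ℝ) : ℂ) * f n‖ ^ 2 ≤ (‖A‖ + δ / 2 * ‖f n‖) ^ 2 := by
      gcongr
    nlinarith [sq_nonneg (‖A‖ - δ / 2 * ‖f n‖)]
  have h3 : ∑ n ∈ Finset.Icc (a - 1) (b + 1), ‖f n‖ ^ 2 = ∑ n ∈ Finset.Icc a b, ‖f n‖ ^ 2 := by
    symm
    refine Finset.sum_subset (Finset.Icc_subset_Icc (by omega) (by omega)) fun n _ hn => ?_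
    rw [Finset.mem_Icc, not_and_or, not_le, not_le] at hn
    rw [hf n hn]; simp
  rw [h3] at h2
  nlinarith

lemma modN2_unif (lam om : ℝ) (K : Set ℝ) (hK : IsCompact K) (hKS : ∀ E ∈ K, E ∉ Sig lam om) :
    ∃ δ : ℝ, 0 < δ ∧ ∀ E ∈ K, modN2_bd lam om E δ := by
  refine hK.induction_on (p := fun s => ∃ δ : ℝ, 0 < δ ∧ ∀ E ∈ s, modN2_bd lam om E δ) ?_ ?_ ?_ ?_
  · exact ⟨1, one_pos, fun E hE => hE.elim⟩
  · rintro s t hst ⟨δ, h0, h⟩
    exact ⟨δ, h0, fun E hE => h E (hst hE)⟩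
  · rintro s t ⟨δ, h0, h⟩ ⟨δ', h0', h'⟩
    refine ⟨min δ δ', lt_min h0 h0', fun E hE => ?_⟩
    rcases hE with hE | hE
    · exact modN2_bd_mono (h E hE) (lt_min h0 h0').le (min_le_left _ _)
    · exact modN2_bd_mono (h' E hE) (lt_min h0 h0').le (min_le_right _ _)
  · intro E hE
    obtain ⟨δ, h0, h⟩ := bound_of_not_mem lam om E (hKS E hE)
    refine ⟨Metric.closedBall E (δ / 2), mem_nhdsWithin_of_mem_nhds
      (Metric.closedBall_mem_nhds _ (half_pos h0)), δ / 2, half_pos h0, fun E' hE' => ?_⟩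
    refine modN2_bd_near h ?_
    rw [Metric.mem_closedBall, dist_comm, Real.dist_eq] at hE'
    exact hE'

/-- solutions of the recursion -/
def modN2_phi (V : ℕ → ℝ) (E : ℝ) (x0 x1 : ℂ) : ℕ → ℂ
  | 0 => x0
  | 1 => x1
  | (k + 2) => ((E - V k : ℝ) : ℂ) * modN2_phi V E x0 x1 (k + 1) - modN2_phi V E x0 x1 k

lemma modN2_transfer (lam E : ℝ) (w : List Bool) (V : ℕ → ℝ) (φ : ℕ → ℂ)
    (hφ : ∀ k, φ (k + 2) = ((E - V k : ℝ) : ℂ) * φ (k + 1) - φ k)
    (hV : ∀ k, k < w.length → V k = lv lam (w.getD k false)) :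
    φ (w.length + 1) = (mon lam E w 0 0 : ℂ) * φ 1 + (mon lam E w 0 1 : ℂ) * φ 0 ∧
    φ w.length = (mon lam E w 1 0 : ℂ) * φ 1 + (mon lam E w 1 1 : ℂ) * φ 0 := by
  induction w generalizing V φ with
  | nil => simp [mon]
  | cons b w ih =>
    have h := ih (fun k => V (k + 1)) (fun k => φ (k + 1)) (fun k => hφ (k + 1))
      (fun k hk => by
        have := hV (k + 1) (by simpa using hk)
        simpa using this)
    have h0 : V 0 = lv lam b := by simpa using hV 0 (by simp)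
    have h2 := hφ 0
    rw [h0] at h2
    simp only [zero_add] at h2 h
    simp only [List.length_cons, mon, tm, Matrix.mul_apply, Fin.sum_univ_two, Matrix.of_apply,
      Matrix.cons_val_zero, Matrix.cons_val_one, Matrix.cons_val', Matrix.empty_val',
      Matrix.cons_val_fin_one]
    refine ⟨h.1.trans ?_, h.2.trans ?_⟩
    · rw [h2]; push_cast; ring
    · rw [h2]; push_cast; ring

lemma modN2_getD (w : List Bool) (i : ℕ) (hi : i < 2 * w.length) :
    (w ++ w).getD i false = w.getD (i % w.length) false := by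
  rcases lt_or_ge i w.length with h | h
  · rw [List.getD_append _ _ _ _ h, Nat.mod_eq_of_lt h]
  · rw [List.getD_append_right _ _ _ _ h, Nat.mod_eq_sub_mod h, Nat.mod_eq_of_lt (by omega)]

/-- the tent function -/
def modN2_rho (q : ℕ) (x : ℤ) : ℝ := max 0 (min (((x : ℝ) + 1) / q) ((2 * q - 1 - x) / q))

lemma modN2_rho_lip (q : ℕ) (hq : 0 < q) (x : ℤ) :
    |modN2_rho q (x + 1) - modN2_rho q x| ≤ 1 / q := by
  have hq' : (0 : ℝ) < q := by exact_mod_cast hq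
  unfold modN2_rho
  have h1 : ((x + 1 : ℤ) : ℝ) = x + 1 := by push_cast; ring
  rw [h1]
  have e1 : ((x : ℝ) + 1 + 1) / q = (x + 1) / q + 1 / q := by ring
  have e2 : (2 * (q : ℝ) - 1 - (x + 1)) / q = (2 * q - 1 - x) / q - 1 / q := by ring
  rw [e1, e2]
  have h3 : 0 < 1 / (q : ℝ) := by positivity
  set A := ((x : ℝ) + 1) / q
  set B := (2 * (q : ℝ) - 1 - x) / q
  set c := 1 / (q : ℝ)
  rw [abs_le]
  constructor
  · rcases max_cases 0 (min (A + c) (B - c)) with ⟨h, _⟩ | ⟨h, _⟩ <;>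
    rcases max_cases 0 (min A B) with ⟨h', _⟩ | ⟨h', _⟩ <;>
    rcases min_cases (A + c) (B - c) with ⟨h'', _⟩ | ⟨h'', _⟩ <;>
    rcases min_cases A B with ⟨h''', _⟩ | ⟨h''', _⟩ <;>
    rw [h, h'] <;> linarith
  · rcases max_cases 0 (min (A + c) (B - c)) with ⟨h, _⟩ | ⟨h, _⟩ <;>
    rcases max_cases 0 (min A B) with ⟨h', _⟩ | ⟨h', _⟩ <;>
    rcases min_cases (A + c) (B - c) with ⟨h'', _⟩ | ⟨h'', _⟩ <;>
    rcases min_cases A B with ⟨h''', _⟩ | ⟨h''', _⟩ <;>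
    rw [h, h'] <;> linarith

lemma modN2_sum (h : ℤ → ℝ) (a : ℤ) (N : ℕ) :
    ∑ n ∈ Finset.Icc a (a + N - 1), h n = ∑ x ∈ Finset.range N, h (a + x) := by
  refine Finset.sum_nbij' (fun j => (j - a).toNat) (fun x => a + x) ?_ ?_ ?_ ?_ ?_
  · intro j hj
    rw [Finset.mem_Icc] at hj
    rw [Finset.mem_range]
    omega
  · intro x hx
    rw [Finset.mem_range] at hx
    rw [Finset.mem_Icc]
    omega
  · intro j hj
    rw [Finset.mem_Icc] at hj
    omega
  · intro x hx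
    omega
  · intro j hj
    rw [Finset.mem_Icc] at hj
    congr 1
    omega

lemma modN2_per (c : ℕ → ℝ) (q : ℕ) (hc : ∀ k, c (k + q) = c k) :
    ∑ x ∈ Finset.range q, c (x + 1) = ∑ x ∈ Finset.range q, c x := by
  have h1 := Finset.sum_range_succ' c q
  have h2 := Finset.sum_range_succ c q
  have h3 := hc 0
  rw [zero_add] at h3
  linarith

lemma modN2_two (c : ℕ → ℝ) (q : ℕ) (hc : ∀ k, c (k + q) = c k) :
    ∑ x ∈ Finset.range (2 * q), c x = 2 * ∑ x ∈ Finset.range q, c x := by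
  rw [two_mul q, Finset.sum_range_add, two_mul]
  congr 1
  refine Finset.sum_congr rfl fun x _ => ?_
  rw [add_comm, hc]

lemma modN2_rho_lo (q : ℕ) (x : ℤ) (hx : x ≤ -1) : modN2_rho q x = 0 := by
  unfold modN2_rho
  refine max_eq_left ((min_le_left _ _).trans ?_)
  refine div_nonpos_of_nonpos_of_nonneg ?_ (Nat.cast_nonneg q)
  have : (x : ℝ) ≤ -1 := by exact_mod_cast hx
  linarith

lemma modN2_rho_hi (q : ℕ) (x : ℤ) (hx : 2 * (q : ℤ) - 1 ≤ x) : modN2_rho q x = 0 := by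
  unfold modN2_rho
  refine max_eq_left ((min_le_right _ _).trans ?_)
  refine div_nonpos_of_nonpos_of_nonneg ?_ (Nat.cast_nonneg q)
  have : (2 * (q : ℝ) - 1 : ℝ) ≤ x := by exact_mod_cast hx
  linarith

lemma modN2_rho_a (q : ℕ) (hq : 0 < q) (x : ℕ) (hx : x < q) :
    modN2_rho q (x : ℤ) = ((x : ℝ) + 1) / q := by
  have hq' : (0 : ℝ) < q := by exact_mod_cast hq
  have hx' : (x : ℝ) + 1 ≤ q := by exact_mod_cast hx
  unfold modN2_rho
  rw [Int.cast_natCast, min_eq_left, max_eq_right]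
  · positivity
  · gcongr
    linarith

lemma modN2_rho_b (q : ℕ) (hq : 0 < q) (x : ℕ) (hx : x < q) :
    modN2_rho q ((q + x : ℕ) : ℤ) = ((q : ℝ) - 1 - x) / q := by
  have hq' : (0 : ℝ) < q := by exact_mod_cast hq
  have hx' : (x : ℝ) + 1 ≤ q := by exact_mod_cast hx
  unfold modN2_rho
  have e : ((q + x : ℕ) : ℤ) = ((q : ℤ) + x) := by push_cast; ring
  rw [e]
  push_cast
  rw [min_eq_right, max_eq_right]
  · congr 1; ring
  · apply div_nonneg _ hq'.le
    linarith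
  · gcongr
    linarith

lemma modN2_main (lam om : ℝ) (n : ℕ) (hn : 3 ≤ n) (E δ : ℝ)
    (hE : (tp lam n).eval E = 0) (hb : modN2_bd lam om E δ) :
    δ ^ 2 * (Nat.fib n : ℝ) ^ 2 ≤ 18 := by
  obtain ⟨m, hm⟩ := square_in_seq om n hn
  set q := Nat.fib n with hqdef
  have hlen : (cw n).length = q := cw_length n
  have hq : 0 < q := Nat.fib_pos.mpr (by omega)
  have hq' : (0 : ℝ) < q := by exact_mod_cast hq
  set M := mon lam E (cw n) with hM
  have htr : M.trace = 0 := by rw [hM, mon_trace lam E n (by omega), hE]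
  have hdet : M.det = 1 := mon_det lam E (cw n)
  rw [Matrix.trace_fin_two] at htr
  rw [Matrix.det_fin_two] at hdet
  let V : ℕ → ℝ := fun k => lv lam ((cw n).getD (k % q) false)
  let φ : ℕ → ℂ := modN2_phi V E (Complex.I - M 0 0) (M 0 1)
  have hφ : ∀ k, φ (k + 2) = ((E - V k : ℝ) : ℂ) * φ (k + 1) - φ k := fun k => rfl
  have hφ0 : φ 0 = Complex.I - M 0 0 := rfl
  have hφ1 : φ 1 = M 0 1 := rfl
  have hT := modN2_transfer lam E (cw n) V φ hφ (fun k hk => by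
    rw [hlen] at hk
    show lv lam ((cw n).getD (k % q) false) = _
    rw [Nat.mod_eq_of_lt hk])
  rw [hlen, ← hM, hφ0, hφ1] at hT
  have htr' : (M 1 1 : ℂ) = -(M 0 0 : ℂ) := by
    have : M 1 1 = -M 0 0 := by linarith
    rw [this]; push_cast; ring
  have hdet' : (M 1 0 : ℂ) * M 0 1 = (M 0 0 : ℂ) * M 1 1 - 1 := by
    have : M 1 0 * M 0 1 = M 0 0 * M 1 1 - 1 := by linarith
    exact_mod_cast this
  have hI : Complex.I ^ 2 = -1 := Complex.I_sq
  have hp1 : φ (q + 1) = Complex.I * φ 1 := by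
    rw [hT.1, hφ1]; ring
  have hp0 : φ q = Complex.I * φ 0 := by
    rw [hT.2, hφ0, hdet', htr']
    linear_combination (-1 : ℂ) * hI
  have hper : ∀ k, φ (k + q) = Complex.I * φ k ∧ φ (k + 1 + q) = Complex.I * φ (k + 1) := by
    intro k
    induction k with
    | zero =>
      rw [zero_add, zero_add, add_comm 1 q]
      exact ⟨hp0, hp1⟩
    | succ k ih =>
      refine ⟨ih.2, ?_⟩
      have e1 : k + 1 + 1 + q = (k + q) + 2 := by ring
      have e2 : V (k + q) = V k := by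
        show lv lam ((cw n).getD ((k + q) % q) false) = lv lam ((cw n).getD (k % q) false)
        rw [Nat.add_mod_right]
      have e3 : k + q + 1 = k + 1 + q := by ring
      rw [e1, hφ (k + q), e2, e3, ih.1, ih.2, show k + 1 + 1 = k + 2 from rfl, hφ k]
      ring
  let c : ℕ → ℝ := fun k => ‖φ k‖ ^ 2
  have hcdef : ∀ k, c k = ‖φ k‖ ^ 2 := fun k => rfl
  have hc : ∀ k, c (k + q) = c k := by
    intro k
    rw [hcdef, hcdef, (hper k).1, norm_mul, Complex.norm_I, one_mul]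
  have hc0 : ∀ k, 0 ≤ c k := fun k => by positivity
  set S := ∑ x ∈ Finset.range q, c x with hS
  have hS1 : ∑ x ∈ Finset.range q, c (x + 1) = S := modN2_per c q hc
  have hS2 : ∑ x ∈ Finset.range q, c (x + 2) = S := by
    rw [← hS1]
    exact modN2_per (fun k => c (k + 1)) q (fun k => by
      rw [show k + q + 1 = k + 1 + q by ring]; exact hc (k + 1))
  have hSpos : 0 < S := by
    have h01 : M 0 1 ≠ 0 := by
      intro h0
      rw [h0] at hdet
      have h11 : M 1 1 = -M 0 0 := by linarith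
      rw [h11] at hdet
      nlinarith [sq_nonneg (M 0 0)]
    have h1 : 0 < c (0 + 1) := by
      have : φ 1 ≠ 0 := by rw [hφ1]; exact_mod_cast h01
      have := norm_pos_iff.mpr this
      rw [hcdef]; positivity
    rw [← hS1]
    exact Finset.sum_pos' (fun x _ => hc0 _) ⟨0, Finset.mem_range.mpr hq, h1⟩
  have hc1 : c 1 ≤ S := by
    rw [← hS1]
    exact Finset.single_le_sum (f := fun x => c (x + 1)) (fun x _ => hc0 _)
      (Finset.mem_range.mpr hq)
  -- the test function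
  let f : ℤ → ℂ := fun j => (modN2_rho q (j - m) : ℂ) * φ (j - m + 1).toNat
  have hfx : ∀ x : ℕ, f (m + x) = (modN2_rho q (x : ℤ) : ℂ) * φ (x + 1) := by
    intro x
    have e1 : m + (x : ℤ) - m = x := by ring
    have e2 : ((x : ℤ) + 1).toNat = x + 1 := by omega
    show (modN2_rho q (m + x - m) : ℂ) * φ (m + x - m + 1).toNat = _
    rw [e1, e2]
  have hflo : ∀ j : ℤ, j < m → f j = 0 := by
    intro j hj
    show (modN2_rho q (j - m) : ℂ) * _ = 0
    rw [modN2_rho_lo q (j - m) (by omega)]; simp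
  have hfhi : ∀ j : ℤ, m + (2 * q : ℕ) - 1 ≤ j → f j = 0 := by
    intro j hj
    show (modN2_rho q (j - m) : ℂ) * _ = 0
    rw [modN2_rho_hi q (j - m) (by push_cast at hj; omega)]; simp
  have hfsupp : ∀ j : ℤ, j < m ∨ m + (2 * q : ℕ) - 1 < j → f j = 0 := by
    rintro j (hj | hj)
    · exact hflo j hj
    · exact hfhi j hj.le
  have key := hb m (m + (2 * q : ℕ) - 1) f hfsupp
  rw [modN2_sum] at key
  have eIcc : m + ((2 * q : ℕ) : ℤ) - 1 + 1 = (m - 1) + ((2 * q + 2 : ℕ) : ℤ) - 1 := by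
    push_cast; ring
  rw [eIcc, modN2_sum (fun n => ‖f (n + 1) + f (n - 1) + (fibV lam om n : ℂ) * f n -
    (E : ℂ) * f n‖ ^ 2)] at key
  set g : ℤ → ℂ := fun n => f (n + 1) + f (n - 1) + (fibV lam om n : ℂ) * f n - (E : ℂ) * f n
    with hg
  have key' : δ ^ 2 * ∑ x ∈ Finset.range (2 * q), ‖f (m + x)‖ ^ 2 ≤
      ∑ x ∈ Finset.range (2 * q + 2), ‖g (m - 1 + x)‖ ^ 2 := key
  -- lower bound
  have hlow : S / 2 ≤ ∑ x ∈ Finset.range (2 * q), ‖f (m + x)‖ ^ 2 := by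
    rw [two_mul q, Finset.sum_range_add, ← Finset.sum_add_distrib, ← hS1, Finset.sum_div]
    refine Finset.sum_le_sum fun x hx => ?_
    rw [Finset.mem_range] at hx
    rw [hfx, hfx, modN2_rho_a q hq x hx, modN2_rho_b q hq x hx]
    rw [norm_mul, norm_mul, Complex.norm_real, Complex.norm_real, mul_pow, mul_pow,
      Real.norm_eq_abs, Real.norm_eq_abs, sq_abs, sq_abs]
    have e1 : ‖φ (q + x + 1)‖ ^ 2 = c (x + 1) := by
      rw [show q + x + 1 = x + 1 + q by ring]; exact hc (x + 1)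
    rw [e1, ← hcdef]
    have h1 : (1 : ℝ) / 2 ≤ (((x : ℝ) + 1) / q) ^ 2 + (((q : ℝ) - 1 - x) / q) ^ 2 := by
      have : ((x : ℝ) + 1) / q + ((q : ℝ) - 1 - x) / q = 1 := by field_simp; ring
      nlinarith [sq_nonneg (((x : ℝ) + 1) / q - ((q : ℝ) - 1 - x) / q)]
    nlinarith [hc0 (x + 1)]
  -- upper bound
  have hmid : ∀ x : ℕ, x < 2 * q → ‖g (m + x)‖ ^ 2 ≤ 2 / (q : ℝ) ^ 2 * (c (x + 2) + c x) := by
    intro x hx
    have e1 : f (m + x + 1) = (modN2_rho q ((x : ℤ) + 1) : ℂ) * φ (x + 2) := by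
      have := hfx (x + 1)
      push_cast at this
      rw [show m + (x : ℤ) + 1 = m + (x + 1) by ring]
      exact this
    have e2 : f (m + x - 1) = (modN2_rho q ((x : ℤ) - 1) : ℂ) * φ x := by
      show (modN2_rho q (m + x - 1 - m) : ℂ) * φ (m + x - 1 - m + 1).toNat = _
      have e3 : m + (x : ℤ) - 1 - m = x - 1 := by ring
      have e4 : ((x : ℤ) - 1 + 1).toNat = x := by omega
      rw [e3, e4]
    have e5 : fibV lam om (m + x) = V x := by
      rw [fibV_eq, ← hm x hx, modN2_getD _ _ (by rw [hlen]; exact hx), hlen]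
    have e6 : g (m + x) = ((modN2_rho q ((x : ℤ) + 1) - modN2_rho q x : ℝ) : ℂ) * φ (x + 2) +
        ((modN2_rho q ((x : ℤ) - 1) - modN2_rho q x : ℝ) : ℂ) * φ x := by
      show f (m + x + 1) + f (m + x - 1) + (fibV lam om (m + x) : ℂ) * f (m + x) -
        (E : ℂ) * f (m + x) = _
      rw [e1, e2, hfx, e5]
      have := hφ x
      push_cast at this ⊢
      linear_combination (modN2_rho q (x : ℤ) : ℂ) * this
    have l1 := modN2_rho_lip q hq x
    have l2 := modN2_rho_lip q hq ((x : ℤ) - 1)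
    rw [sub_add_cancel, abs_sub_comm] at l2
    have e7 : ‖g (m + x)‖ ≤ 1 / q * (‖φ (x + 2)‖ + ‖φ x‖) := by
      rw [e6]
      refine (norm_add_le _ _).trans ?_
      rw [norm_mul, norm_mul, Complex.norm_real, Complex.norm_real, Real.norm_eq_abs,
        Real.norm_eq_abs, mul_add]
      gcongr
    calc ‖g (m + x)‖ ^ 2 ≤ (1 / q * (‖φ (x + 2)‖ + ‖φ x‖)) ^ 2 := by gcongr
      _ = 1 / (q : ℝ) ^ 2 * (‖φ (x + 2)‖ + ‖φ x‖) ^ 2 := by ring
      _ ≤ 1 / (q : ℝ) ^ 2 * (2 * (c (x + 2) + c x)) := by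
          gcongr
          rw [hcdef, hcdef]
          nlinarith [sq_nonneg (‖φ (x + 2)‖ - ‖φ x‖)]
      _ = 2 / (q : ℝ) ^ 2 * (c (x + 2) + c x) := by ring
  have hfirst : ‖g (m - 1)‖ ^ 2 ≤ 1 / (q : ℝ) ^ 2 * c 1 := by
    have e1 : g (m - 1) = (modN2_rho q 0 : ℂ) * φ 1 := by
      show f (m - 1 + 1) + f (m - 1 - 1) + (fibV lam om (m - 1) : ℂ) * f (m - 1) -
        (E : ℂ) * f (m - 1) = _
      rw [hflo (m - 1) (by omega), hflo (m - 1 - 1) (by omega)]
      have := hfx 0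
      simp only [Nat.cast_zero, add_zero, zero_add] at this
      rw [sub_add_cancel, this]
      ring
    have e2 := modN2_rho_a q hq 0 hq
    rw [Nat.cast_zero] at e2
    rw [e1, e2, norm_mul, Complex.norm_real, Real.norm_eq_abs, mul_pow, sq_abs, hcdef]
    have : (((0 : ℕ) : ℝ) + 1) / q = 1 / q := by norm_num
    rw [this]
    apply le_of_eq
    ring
  have hlast : ‖g (m + (2 * q : ℕ))‖ ^ 2 = 0 := by
    have e1 : g (m + (2 * q : ℕ)) = 0 := by
      show f (m + (2 * q : ℕ) + 1) + f (m + (2 * q : ℕ) - 1) +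
        (fibV lam om (m + (2 * q : ℕ)) : ℂ) * f (m + (2 * q : ℕ)) -
        (E : ℂ) * f (m + (2 * q : ℕ)) = _
      rw [hfhi _ (by omega), hfhi _ le_rfl, hfhi (m + (2 * q : ℕ)) (by omega)]
      ring
    rw [e1]; simp
  have hup : ∑ x ∈ Finset.range (2 * q + 2), ‖g (m - 1 + x)‖ ^ 2 ≤ 9 * S / (q : ℝ) ^ 2 := by
    rw [Finset.sum_range_succ, Finset.sum_range_succ']
    have e1 : m - 1 + ((2 * q + 1 : ℕ) : ℤ) = m + ((2 * q : ℕ) : ℤ) := by push_cast; ring
    rw [e1, hlast]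
    have e2 : ∑ x ∈ Finset.range (2 * q), ‖g (m - 1 + ((x + 1 : ℕ) : ℤ))‖ ^ 2 ≤
        2 / (q : ℝ) ^ 2 * (4 * S) := by
      have e3 : ∑ x ∈ Finset.range (2 * q), (c (x + 2) + c x) = 4 * S := by
        rw [Finset.sum_add_distrib, modN2_two c q hc, modN2_two (fun k => c (k + 2)) q (fun k => by
          rw [show k + q + 2 = k + 2 + q by ring]; exact hc (k + 2)), hS2]
        ring
      rw [← e3, Finset.mul_sum]
      refine Finset.sum_le_sum fun x hx => ?_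
      rw [Finset.mem_range] at hx
      have e4 : m - 1 + ((x + 1 : ℕ) : ℤ) = m + x := by push_cast; ring
      rw [e4]
      exact hmid x hx
    have e5 : ‖g (m - 1 + ((0 : ℕ) : ℤ))‖ ^ 2 ≤ 1 / (q : ℝ) ^ 2 * S := by
      rw [Nat.cast_zero, add_zero]
      refine hfirst.trans ?_
      gcongr
    calc _ ≤ 2 / (q : ℝ) ^ 2 * (4 * S) + 1 / (q : ℝ) ^ 2 * S + 0 := by
          gcongr
      _ = 9 * S / (q : ℝ) ^ 2 := by ring
  have hfin : δ ^ 2 * (S / 2) ≤ 9 * S / (q : ℝ) ^ 2 := by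
    refine le_trans ?_ (key'.trans hup)
    gcongr
  rw [le_div_iff₀ (by positivity)] at hfin
  have : (δ ^ 2 * (q : ℝ) ^ 2) * S ≤ 18 * S := by nlinarith
  exact le_of_mul_le_mul_right this hSpos

theorem roots_near (lam om : ℝ) (hl : 0 ≤ lam) (O : Set ℝ) (hO : IsOpen O) (hS : Sig lam om ⊆ O) :
    ∃ N : ℕ, ∀ n, N ≤ n → ∀ E, (tp lam n).eval E = 0 → E ∈ O := by
  have hK : IsCompact (Set.Icc (-2) (2 + lam) \ O) := isCompact_Icc.diff hO
  obtain ⟨δ, hδ, h⟩ := modN2_unif lam om _ hK (fun E hE hE' => hE.2 (hS hE'))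
  obtain ⟨N, hN⟩ : ∃ N : ℕ, 5 / δ < N := exists_nat_gt _
  refine ⟨max 5 N, fun n hn E hE => ?_⟩
  by_contra hEO
  have hn5 : 5 ≤ n := (le_max_left _ _).trans hn
  have hnN : N ≤ n := (le_max_right _ _).trans hn
  have hsig : E ∈ sig lam n := by
    show |(tp lam n).eval E| ≤ 2
    rw [hE]; simp
  have hb := sig_bound lam E hl n (by omega) hsig
  have h1 := modN2_main lam om n (by omega) E δ hE (h E ⟨⟨hb.1, hb.2⟩, hEO⟩)
  have h2 : n ≤ Nat.fib n := Nat.le_fib_self hn5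
  have h3 : (N : ℝ) ≤ Nat.fib n := by exact_mod_cast hnN.trans h2
  have h4 : 5 < δ * Nat.fib n := by
    have := (div_lt_iff₀ hδ).mp (hN.trans_le h3)
    linarith
  nlinarith

end Pool.Agent.H22.Fib
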