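import Mathlib

/-!
Module P: a linear recursion.
-/

set_option autoImplicit false

noncomputable section

open Polynomial Filter Topology

namespace Pool.Agent.H22.Fib

theorem modP_phi : ∃ φ : ℝ, φ ^ 2 = φ + 1 ∧ 1.618 < φ ∧ φ < 1.6181 := by
  refine ⟨(1 + Real.sqrt 5) / 2, ?_, ?_, ?_⟩
  · have h := Real.sq_sqrt (show (0 : ℝ) ≤ 5 by norm_num)
    nlinarith
  · have h : (2.236 : ℝ) < Real.sqrt 5 := by
      apply Real.lt_sqrt_of_sq_lt
      norm_num
    linarith
  · have h : Real.sqrt 5 < (2.2362 : ℝ) := by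
      rw [Real.sqrt_lt' (by norm_num)]
      norm_num
    linarith

theorem modP_e (d : ℕ → ℝ) (h : ∀ k, 1 ≤ k → |d (k + 2) - d (k + 1) - d k| ≤ 4)
    (h1 : |d 1| ≤ 1) (h2 : |d 2| ≤ 1) (φ : ℝ) (hφ : φ ^ 2 = φ + 1) (hl : 1.618 < φ)
    (hu : φ < 1.6181) : ∀ k, 1 ≤ k → |d (k + 1) - φ * d k| ≤ 10.48 := by
  intro k hk
  induction k, hk using Nat.le_induction with
  | base =>
    rw [abs_le] at *
    constructor <;> nlinarith
  | succ k hk ih =>
    have h3 := h k hk
    rw [abs_le] at *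
    have key : φ * (d (k + 2) - φ * d (k + 1)) =
        φ * (d (k + 2) - d (k + 1) - d k) - (d (k + 1) - φ * d k) := by
      linear_combination (- d (k + 1)) * hφ
    show -10.48 ≤ d (k + 2) - φ * d (k + 1) ∧ d (k + 2) - φ * d (k + 1) ≤ 10.48
    have hφ0 : 0 < φ := by linarith
    constructor
    · by_contra hc
      push Not at hc
      nlinarith
    · by_contra hc
      push Not at hc
      nlinarith

theorem lin_a (d : ℕ → ℝ) (h : ∀ k, 1 ≤ k → |d (k + 2) - d (k + 1) - d k| ≤ 4)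
    (h1 : |d 1| ≤ 1) (h2 : |d 2| ≤ 1) (n : ℕ) (hn : |d n| ≤ 1) :
    ∀ k, 1 ≤ k → k ≤ n → |d k| ≤ 17 := by
  obtain ⟨φ, hφ, hl, hu⟩ := modP_phi
  have he := modP_e d h h1 h2 φ hφ hl hu
  have main : ∀ i k : ℕ, k + i = n → 1 ≤ k → |d k| ≤ 17 := by
    intro i
    induction i with
    | zero =>
      intro k hk _
      rw [add_zero] at hk
      rw [hk]
      linarith
    | succ i ih =>
      intro k hk hk1
      have h3 := ih (k + 1) (by omega) (by omega)
      have h4 := he k hk1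
      rw [abs_le] at *
      constructor
      · by_contra hc
        push Not at hc
        nlinarith
      · by_contra hc
        push Not at hc
        nlinarith
  intro k hk hkn
  exact main (n - k) k (by omega) hk

theorem lin_b (d : ℕ → ℝ) (h : ∀ k, 1 ≤ k → |d (k + 2) - d (k + 1) - d k| ≤ 4)
    (h1 : |d 1| ≤ 1) (h2 : |d 2| ≤ 1) (m : ℕ) (hm : 1 ≤ m) (A : ℝ) (hA : |d m| ≤ A) :
    |d (m + 1)| ≤ 2 * A + 11 ∧ |d (m + 2)| ≤ 4 * A + 33 := by
  obtain ⟨φ, hφ, hl, hu⟩ := modP_phi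
  have he := modP_e d h h1 h2 φ hφ hl hu
  have key : ∀ (m : ℕ), 1 ≤ m → ∀ A : ℝ, |d m| ≤ A → |d (m + 1)| ≤ 2 * A + 11 := by
    intro m hm A hA
    have h4 := he m hm
    rw [abs_le] at *
    constructor <;> nlinarith
  refine ⟨key m hm A hA, ?_⟩
  have := key (m + 1) (by omega) _ (key m hm A hA)
  calc |d (m + 2)| ≤ 2 * (2 * A + 11) + 11 := this
    _ = 4 * A + 33 := by ring

end Pool.Agent.H22.Fib
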