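import Pool.Agent.H22.Fib.ModO
import Pool.Agent.H22.Fib.ModP

/-!
Module Q: the abstract covering argument.
-/

set_option autoImplicit false

noncomputable section

open Polynomial Filter Topology

namespace Pool.Agent.H22.Fib

/-- The combinatorial data of the periodic approximants at one coupling. -/
structure BandSys where
  lo : ℕ → ℕ → ℝ
  hi : ℕ → ℕ → ℝ
  rt : ℕ → ℕ → ℝ
  Z : ℕ → ℝ → ℕ
  lo_le : ∀ k j, 1 ≤ k → j < Nat.fib k → lo k j ≤ rt k j
  le_hi : ∀ k j, 1 ≤ k → j < Nat.fib k → rt k j ≤ hi k j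
  rt_le_lo : ∀ k j, 1 ≤ k → j + 1 < Nat.fib k → rt k j ≤ lo k (j + 1)
  hi_le_rt : ∀ k j, 1 ≤ k → j + 1 < Nat.fib k → hi k j ≤ rt k (j + 1)
  Z_iff : ∀ k j E, 1 ≤ k → j < Nat.fib k → (rt k j < E ↔ j < Z k E)
  Z_le : ∀ k E, 1 ≤ k → Z k E ≤ Nat.fib k
  Z_rec : ∀ k E, 1 ≤ k → |(Z (k + 2) E : ℤ) - Z (k + 1) E - Z k E| ≤ 2
  len : ∀ k j, 1 ≤ k → j < Nat.fib k → hi k j - lo k j ≤ 2 * Real.pi / Nat.fib k
  len_one : hi 1 0 - lo 1 0 = 4

theorem modQ_Z_mono (B : BandSys) (k : ℕ) (hk : 1 ≤ k) {E E' : ℝ} (h : E ≤ E') :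
    B.Z k E ≤ B.Z k E' := by
  by_contra hc
  push Not at hc
  have h1 : B.Z k E' < Nat.fib k := lt_of_lt_of_le hc (B.Z_le k E hk)
  have h2 := (B.Z_iff k _ E hk h1).2 hc
  have h3 := (B.Z_iff k _ E' hk h1).1 (lt_of_lt_of_le h2 h)
  exact lt_irrefl _ h3

theorem modQ_rt_mono (B : BandSys) (k : ℕ) (hk : 1 ≤ k) (i j : ℕ) (hij : i ≤ j)
    (hj : j < Nat.fib k) : B.rt k i ≤ B.rt k j := by
  induction j, hij using Nat.le_induction with
  | base => exact le_rfl
  | succ j hij ih =>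
    exact (ih (by omega)).trans ((B.rt_le_lo k j hk hj).trans (B.lo_le k _ hk hj))

theorem modQ_Z_rec (B : BandSys) (k : ℕ) (E : ℝ) (hk : 1 ≤ k) :
    |(B.Z (k + 2) E : ℝ) - B.Z (k + 1) E - B.Z k E| ≤ 2 := by
  have := B.Z_rec k E hk
  exact_mod_cast this

/-- A point of a band lies in a band whose index is close to the counting function. -/
theorem modQ_band_index (B : BandSys) (k : ℕ) (hk : 1 ≤ k) (E : ℝ) (j : ℕ) (hj : j < Nat.fib k)
    (hE : E ∈ Set.Icc (B.lo k j) (B.hi k j)) :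
    ∃ j' < Nat.fib k, E ∈ Set.Icc (B.lo k j') (B.hi k j') ∧ |(j' : ℝ) - B.Z k E| ≤ 1 := by
  rcases lt_trichotomy j (B.Z k E) with h | h | h
  · -- j < z
    by_cases h' : j + 1 = B.Z k E
    · refine ⟨j, hj, hE, ?_⟩
      rw [← h']
      push_cast
      rw [abs_le]
      constructor <;> linarith
    · exfalso
      have hz := B.Z_le k E hk
      have h1 : j + 1 < B.Z k E := by omega
      have h2 : j + 1 < Nat.fib k := by omega
      have h3 := (B.Z_iff k (j + 1) E hk h2).2 h1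
      have h4 := B.hi_le_rt k j hk h2
      linarith [hE.2]
  · exact ⟨j, hj, hE, by rw [h]; simp⟩
  · -- z < j
    have hz : B.Z k E < Nat.fib k := by omega
    have h1 : ¬ B.rt k (B.Z k E) < E := by
      rw [B.Z_iff k _ E hk hz]
      exact lt_irrefl _
    push Not at h1
    have h2 : B.rt k (B.Z k E) ≤ E := by
      obtain ⟨i, rfl⟩ : ∃ i, j = i + 1 := ⟨j - 1, by omega⟩
      have h3 := B.rt_le_lo k i hk hj
      have h4 := modQ_rt_mono B k hk (B.Z k E) i (by omega) (by omega)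
      linarith [hE.1]
    have h3 : E = B.rt k (B.Z k E) := le_antisymm h1 h2
    refine ⟨B.Z k E, hz, ⟨?_, ?_⟩, by simp⟩
    · exact (B.lo_le k _ hk hz).trans h2
    · exact h1.trans (B.le_hi k _ hk hz)

/-- Interpolated counting functions through a given index at a high level. -/
theorem modQ_point (B : BandSys) (M : ℕ) (hM : 1 ≤ M) (z : ℕ) (hz : z ≤ Nat.fib M) (c d : ℝ)
    (h : ∀ j < Nat.fib M, B.rt M j = B.rt M (min z (Nat.fib M - 1)) → B.rt M j ∈ Set.Ioo c d) :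
    ∃ ν : ℕ → ℝ, (∀ k, 1 ≤ k → (B.Z k c : ℝ) ≤ ν k ∧ ν k ≤ B.Z k d) ∧
      (∀ k, 1 ≤ k → |ν (k + 2) - ν (k + 1) - ν k| ≤ 2) ∧ |ν M - z| ≤ 1 := by
  have hF : 0 < Nat.fib M := Nat.fib_pos.2 hM
  set j0 := min z (Nat.fib M - 1) with hj0
  have hj0' : j0 < Nat.fib M := by omega
  have hr := h j0 hj0' rfl
  set r := B.rt M j0 with hrdef
  obtain ⟨r', hr1, hr2⟩ := exists_between hr.2
  have hA : B.Z M r ≤ j0 := by
    by_contra hc
    push Not at hc
    have := (B.Z_iff M j0 r hM hj0').2 hc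
    exact lt_irrefl _ this
  have hB : j0 < B.Z M r' := (B.Z_iff M j0 r' hM hj0').1 hr1
  obtain ⟨t, ht0, ht1, ht⟩ : ∃ t : ℝ, 0 ≤ t ∧ t ≤ 1 ∧
      (1 - t) * B.Z M r + t * B.Z M r' = j0 := by
    have hA' : (B.Z M r : ℝ) ≤ j0 := by exact_mod_cast hA
    have hB' : (j0 : ℝ) < B.Z M r' := by exact_mod_cast hB
    have hpos : (0 : ℝ) < B.Z M r' - B.Z M r := by linarith
    refine ⟨(j0 - B.Z M r) / (B.Z M r' - B.Z M r), div_nonneg (by linarith) hpos.le, ?_, ?_⟩
    · rw [div_le_one hpos]; linarith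
    · field_simp
      ring
  refine ⟨fun k => (1 - t) * B.Z k r + t * B.Z k r', ?_, ?_, ?_⟩
  · intro k hk
    have m1 : (B.Z k c : ℝ) ≤ B.Z k r := by exact_mod_cast modQ_Z_mono B k hk hr.1.le
    have m2 : (B.Z k r : ℝ) ≤ B.Z k r' := by exact_mod_cast modQ_Z_mono B k hk hr1.le
    have m3 : (B.Z k r' : ℝ) ≤ B.Z k d := by exact_mod_cast modQ_Z_mono B k hk hr2.le
    constructor
    · nlinarith
    · nlinarith
  · intro k hk
    have h1 := modQ_Z_rec B k r hk
    have h2 := modQ_Z_rec B k r' hk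
    rw [abs_le] at *
    constructor
    · nlinarith
    · nlinarith
  · beta_reduce
    rw [ht, abs_le]
    have h1 : (j0 : ℝ) ≤ z := by exact_mod_cast (by omega : j0 ≤ z)
    have h2 : (z : ℝ) ≤ j0 + 1 := by exact_mod_cast (by omega : z ≤ j0 + 1)
    constructor <;> linarith

/-- The main step of the covering argument: one point. -/
theorem modQ_core (B1 B2 : BandSys)
    (hlen : ∀ k j, 1 ≤ k → j < Nat.fib k → B2.hi k j - B2.lo k j ≤ B1.hi k j - B1.lo k j)
    (E : ℝ)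
    (hcov : ∀ k, 1 ≤ k →
      (∃ j < Nat.fib k, E ∈ Set.Icc (B2.lo k j) (B2.hi k j)) ∨
      (∃ j < Nat.fib (k + 1), E ∈ Set.Icc (B2.lo (k + 1) j) (B2.hi (k + 1) j)))
    (c d : ℝ) (hcd1 : d - c ≤ 1) (K M : ℕ) (hK : 1 ≤ K) (hKM : K + 1 ≤ M)
    (hKl : 2 * Real.pi / Nat.fib K ≤ d - c) (ν : ℕ → ℝ)
    (hν : ∀ k, 1 ≤ k → (B1.Z k c : ℝ) ≤ ν k ∧ ν k ≤ B1.Z k d)
    (hrec : ∀ k, 1 ≤ k → |ν (k + 2) - ν (k + 1) - ν k| ≤ 2)
    (hM : |ν M - B2.Z M E| ≤ 1) :
    ∃ k j : ℕ, 1 ≤ k ∧ k ≤ K + 1 ∧ j < Nat.fib k ∧ E ∈ Set.Icc (B2.lo k j) (B2.hi k j) ∧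
      B2.hi k j - B2.lo k j ≤ d - c ∧
      (|(j : ℝ) - B1.Z k c| ≤ 127 ∨ |(j : ℝ) - B1.Z k d| ≤ 127) := by
  classical
  -- counting functions at the first two levels
  have hZ1 : ∀ (B : BandSys) (k : ℕ), (k = 1 ∨ k = 2) → ∀ x : ℝ, (0 : ℝ) ≤ B.Z k x ∧
      (B.Z k x : ℝ) ≤ 1 := by
    intro B k hk x
    refine ⟨Nat.cast_nonneg _, ?_⟩
    have := B.Z_le k x (by omega)
    have hf : Nat.fib k = 1 := by rcases hk with rfl | rfl <;> rfl
    rw [hf] at this
    exact_mod_cast this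
  have hν1 : ∀ k, (k = 1 ∨ k = 2) → 0 ≤ ν k ∧ ν k ≤ 1 := by
    intro k hk
    have h1 := hν k (by omega)
    have h2 := hZ1 B1 k hk c
    have h3 := hZ1 B1 k hk d
    constructor <;> linarith
  -- comparison with the second system
  have hdiff : ∀ k, 1 ≤ k → k ≤ M → |ν k - B2.Z k E| ≤ 17 := by
    apply lin_a (fun k => ν k - B2.Z k E)
    · intro k hk
      have h1 := hrec k hk
      have h2 := modQ_Z_rec B2 k E hk
      rw [abs_le] at *
      constructor <;> linarith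
    · have h1 := hν1 1 (Or.inl rfl)
      have h2 := hZ1 B2 1 (Or.inl rfl) E
      rw [abs_le]
      constructor <;> linarith
    · have h1 := hν1 2 (Or.inr rfl)
      have h2 := hZ1 B2 2 (Or.inr rfl) E
      rw [abs_le]
      constructor <;> linarith
    · exact hM
  -- good levels
  let good : ℕ → Prop := fun k => 1 ≤ k ∧ ∀ m, (m = k ∨ m = k + 1) → ∀ j < Nat.fib m,
    |(j : ℝ) - ν m| ≤ 18 → B1.hi m j - B1.lo m j ≤ d - c
  have hgoodK : good K := by
    refine ⟨hK, ?_⟩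
    intro m hm j hj _
    have h1 := B1.len m j (by omega) hj
    have h2 : (Nat.fib K : ℝ) ≤ Nat.fib m := by
      exact_mod_cast Nat.fib_mono (show K ≤ m by omega)
    have h3 : (0 : ℝ) < Nat.fib K := by exact_mod_cast Nat.fib_pos.2 hK
    have h4 : 2 * Real.pi / Nat.fib m ≤ 2 * Real.pi / Nat.fib K := by
      apply div_le_div_of_nonneg_left _ h3 h2
      positivity
    linarith
  have hex : ∃ k, good k := ⟨K, hgoodK⟩
  set k := Nat.find hex with hkdef
  have hkgood : good k := Nat.find_spec hex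
  have hkK : k ≤ K := Nat.find_min' hex hgoodK
  have hk1 : 1 ≤ k := hkgood.1
  have hk2 : 2 ≤ k := by
    by_contra hc
    have hk' : k = 1 := by omega
    have h1 := hkgood.2 1 (Or.inl hk'.symm) 0 (by decide) (by
      have := hν1 1 (Or.inl rfl)
      rw [abs_le]
      push_cast
      constructor <;> linarith)
    rw [B1.len_one] at h1
    linarith
  -- the band of the second system
  obtain ⟨k', hk', j, hj, hE, hjZ⟩ : ∃ k', (k' = k ∨ k' = k + 1) ∧ ∃ j < Nat.fib k',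
      E ∈ Set.Icc (B2.lo k' j) (B2.hi k' j) ∧ |(j : ℝ) - B2.Z k' E| ≤ 1 := by
    rcases hcov k hk1 with ⟨j, hj, hE⟩ | ⟨j, hj, hE⟩
    · exact ⟨k, Or.inl rfl, modQ_band_index B2 k hk1 E j hj hE⟩
    · exact ⟨k + 1, Or.inr rfl, modQ_band_index B2 (k + 1) (by omega) E j hj hE⟩
  have hk'1 : 1 ≤ k' := by omega
  have hjν : |(j : ℝ) - ν k'| ≤ 18 := by
    have h1 := hdiff k' hk'1 (by omega)
    rw [abs_le] at *
    constructor <;> linarith
  refine ⟨k', j, hk'1, by omega, hj, hE, ?_, ?_⟩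
  · exact (hlen k' j hk'1 hj).trans (hkgood.2 k' hk' j hj hjν)
  · -- the previous level is not good
    have hbad : ¬ good (k - 1) := Nat.find_min hex (by omega)
    have hbad' : ∃ m, (m = k - 1 ∨ m = k) ∧ ∃ i < Nat.fib m, |(i : ℝ) - ν m| ≤ 18 ∧
        d - c < B1.hi m i - B1.lo m i := by
      by_contra hc
      push Not at hc
      apply hbad
      refine ⟨by omega, ?_⟩
      intro m hm i hi hiν
      exact hc m (by omega) i hi hiν
    obtain ⟨m, hm, i, hi, hiν, hlong⟩ := hbad'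
    have hm1 : 1 ≤ m := by omega
    have hcase : i ≤ B1.Z m c ∨ B1.Z m d ≤ i + 1 := by
      by_contra hc
      push Not at hc
      obtain ⟨hc1, hc2⟩ := hc
      obtain ⟨i', rfl⟩ : ∃ i', i = i' + 1 := ⟨i - 1, by omega⟩
      have hZd := B1.Z_le m d hm1
      have h1 : ¬ B1.rt m i' < c := by
        rw [B1.Z_iff m i' c hm1 (by omega)]
        omega
      have h2 : B1.rt m (i' + 1 + 1) < d := (B1.Z_iff m _ d hm1 (by omega)).2 hc2
      have h3 := B1.rt_le_lo m i' hm1 hi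
      have h4 := B1.hi_le_rt m (i' + 1) hm1 (by omega)
      push Not at h1
      linarith
    have hk'm : k' = m ∨ k' = m + 1 ∨ k' = m + 2 := by omega
    have hνm := hν m hm1
    -- the final estimate, for either end point
    have fin : ∀ x : ℝ, |ν m - B1.Z m x| ≤ 19 → |(j : ℝ) - B1.Z k' x| ≤ 127 := by
      intro x hx
      have hb := lin_b (fun k => ν k - B1.Z k x) (by
          intro k hk
          have h1 := hrec k hk
          have h2 := modQ_Z_rec B1 k x hk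
          rw [abs_le] at *
          constructor <;> linarith) (by
          have h1 := hν1 1 (Or.inl rfl)
          have h2 := hZ1 B1 1 (Or.inl rfl) x
          rw [abs_le]
          constructor <;> linarith) (by
          have h1 := hν1 2 (Or.inr rfl)
          have h2 := hZ1 B1 2 (Or.inr rfl) x
          rw [abs_le]
          constructor <;> linarith) m hm1 19 hx
      have h5 : |ν k' - B1.Z k' x| ≤ 109 := by
        rcases hk'm with h | h | h
        · rw [h]; linarith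
        · rw [h]
          have := hb.1
          linarith
        · rw [h]
          have := hb.2
          linarith
      rw [abs_le] at *
      constructor <;> linarith
    rcases hcase with h | h
    · left
      apply fin
      have h' : (i : ℝ) ≤ B1.Z m c := by exact_mod_cast h
      rw [abs_le] at *
      constructor <;> linarith
    · right
      apply fin
      have h' : (B1.Z m d : ℝ) ≤ i + 1 := by exact_mod_cast h
      rw [abs_le] at *
      constructor <;> linarith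

theorem modQ_fib_lower (n : ℕ) : Real.sqrt 2 ^ n / 2 ≤ Nat.fib (n + 1) := by
  have h2 : Real.sqrt 2 ^ 2 = 2 := Real.sq_sqrt (by norm_num)
  have h0 : 0 ≤ Real.sqrt 2 := Real.sqrt_nonneg 2
  induction n using Nat.strong_induction_on with
  | _ n ih =>
    match n with
    | 0 => norm_num
    | 1 =>
      have h3 : Real.sqrt 2 < 2 := by
        rw [Real.sqrt_lt' (by norm_num)]
        norm_num
      norm_num
      linarith
    | (n + 2) =>
      have h3 := ih n (by omega)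
      have h4 : (Nat.fib (n + 1) : ℝ) ≤ Nat.fib (n + 2) := by
        exact_mod_cast Nat.fib_mono (by omega)
      have h5 : (Nat.fib (n + 2 + 1) : ℝ) = Nat.fib (n + 1) + Nat.fib (n + 2) := by
        rw [Nat.fib_add_two]
        push_cast
        ring
      rw [h5, pow_add, h2]
      linarith

/-- The number of levels needed at scale `l` is at most `O(l ^ (-ε))`. -/
theorem modQ_levels (ε : ℝ) (hε : 0 < ε) : ∃ K0 : ℝ, 0 ≤ K0 ∧ ∀ l : ℝ, 0 < l → l ≤ 1 →
    ∃ K : ℕ, 1 ≤ K ∧ 2 * Real.pi / Nat.fib K ≤ l ∧ (K + 1 : ℝ) * l ^ ε ≤ K0 := by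
  have hs2 : 1 < Real.sqrt 2 := by
    rw [Real.lt_sqrt (by norm_num)]
    norm_num
  have hs0 : 0 < Real.sqrt 2 := by linarith
  set q : ℝ := (Real.sqrt 2) ^ (-ε) with hq
  have hq0 : 0 < q := Real.rpow_pos_of_pos hs0 _
  have hq1 : q < 1 := Real.rpow_lt_one_of_one_lt_of_neg hs2 (by linarith)
  have ht : Tendsto (fun n : ℕ => ((n : ℝ) * q ^ n + 3 * q ^ n) * (4 * Real.pi) ^ ε) atTop
      (𝓝 ((0 + 3 * 0) * (4 * Real.pi) ^ ε)) :=
    ((tendsto_self_mul_const_pow_of_lt_one hq0.le hq1).add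
      ((tendsto_pow_atTop_nhds_zero_of_lt_one hq0.le hq1).const_mul 3)).mul_const _
  obtain ⟨K0, hK0⟩ := ht.bddAbove_range
  refine ⟨max K0 0, le_max_right _ _, ?_⟩
  intro l hl hl1
  have hex : ∃ k : ℕ, 1 ≤ k ∧ 2 * Real.pi / Nat.fib k ≤ l := by
    obtain ⟨n, hn⟩ := pow_unbounded_of_one_lt (4 * Real.pi / l) hs2
    refine ⟨n + 1, by omega, ?_⟩
    have h1 := modQ_fib_lower n
    have h2 : (0 : ℝ) < Nat.fib (n + 1) := by exact_mod_cast Nat.fib_pos.2 (by omega)
    rw [div_le_iff₀ h2]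
    rw [div_lt_iff₀ hl] at hn
    nlinarith
  have hspec := Nat.find_spec hex
  have hmin : ∀ m, m < Nat.find hex → ¬ (1 ≤ m ∧ 2 * Real.pi / Nat.fib m ≤ l) :=
    fun m hm => Nat.find_min hex hm
  generalize Nat.find hex = K at hspec hmin
  obtain ⟨hK1, hK2⟩ := hspec
  refine ⟨K, hK1, hK2, ?_⟩
  have hK3 : K ≠ 1 := by
    rintro rfl
    rw [Nat.fib_one, Nat.cast_one, div_one] at hK2
    linarith [Real.pi_gt_three]
  obtain ⟨n, rfl⟩ : ∃ n, K = n + 2 := ⟨K - 2, by omega⟩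
  have h3 := hmin (n + 1) (by omega)
  push Not at h3
  have h4 := h3 (by omega)
  have h5 := modQ_fib_lower n
  have h6 : (0 : ℝ) < Nat.fib (n + 1) := by exact_mod_cast Nat.fib_pos.2 (by omega)
  have h7 : (0 : ℝ) < Real.sqrt 2 ^ n := pow_pos hs0 n
  have h8 : l ≤ 4 * Real.pi / Real.sqrt 2 ^ n := by
    refine h4.le.trans ?_
    rw [div_le_div_iff₀ h6 h7]
    nlinarith [Real.pi_pos]
  have h9 : l ^ ε ≤ (4 * Real.pi) ^ ε * q ^ n := by
    calc l ^ ε ≤ (4 * Real.pi / Real.sqrt 2 ^ n) ^ ε := Real.rpow_le_rpow hl.le h8 hε.le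
      _ = (4 * Real.pi) ^ ε * q ^ n := by
        rw [Real.div_rpow (by positivity) h7.le, div_eq_mul_inv]
        congr 1
        rw [hq, ← Real.rpow_natCast (Real.sqrt 2) n, ← Real.rpow_mul hs0.le, ← Real.rpow_neg hs0.le,
          ← Real.rpow_natCast ((Real.sqrt 2) ^ (-ε)) n, ← Real.rpow_mul hs0.le]
        congr 1
        ring
  have h10 := hK0 ⟨n, rfl⟩
  beta_reduce at h10
  calc ((n + 2 : ℕ) + 1 : ℝ) * l ^ ε ≤ ((n + 2 : ℕ) + 1 : ℝ) * ((4 * Real.pi) ^ ε * q ^ n) := by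
        gcongr
    _ = ((n : ℝ) * q ^ n + 3 * q ^ n) * (4 * Real.pi) ^ ε := by
        push_cast
        ring
    _ ≤ K0 := h10
    _ ≤ max K0 0 := le_max_left _ _

theorem modQ_sum_biUnion_le {ι α : Type*} [DecidableEq α] [DecidableEq ι] (s : Finset ι)
    (T : ι → Finset α) (f : α → ℝ) (hf : ∀ i ∈ s, ∀ x ∈ T i, 0 ≤ f x) :
    ∑ x ∈ s.biUnion T, f x ≤ ∑ i ∈ s, ∑ x ∈ T i, f x := by
  induction s using Finset.induction_on with
  | empty => simp
  | insert i s hi ih =>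
    rw [Finset.biUnion_insert, Finset.sum_insert hi]
    have h1 := ih fun j hj => hf j (Finset.mem_insert_of_mem hj)
    have h2 : ∑ x ∈ T i ∪ s.biUnion T, f x + ∑ x ∈ T i ∩ s.biUnion T, f x =
        ∑ x ∈ T i, f x + ∑ x ∈ s.biUnion T, f x := Finset.sum_union_inter
    have h3 : 0 ≤ ∑ x ∈ T i ∩ s.biUnion T, f x := by
      apply Finset.sum_nonneg
      intro x hx
      exact hf i (Finset.mem_insert_self _ _) x (Finset.mem_inter.1 hx).1
    linarith

theorem dimH_le_of_bandSys (B1 B2 : BandSys) (S1 S2 : Set ℝ) (hS1 : IsCompact S1)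
    (hlen : ∀ k j, 1 ≤ k → j < Nat.fib k → B2.hi k j - B2.lo k j ≤ B1.hi k j - B1.lo k j)
    (hnear : ∀ O : Set ℝ, IsOpen O → S1 ⊆ O → ∃ N : ℕ, ∀ n, N ≤ n → ∀ j < Nat.fib n,
      B1.rt n j ∈ O)
    (hcov : ∀ E ∈ S2, ∀ k, 1 ≤ k →
      (∃ j < Nat.fib k, E ∈ Set.Icc (B2.lo k j) (B2.hi k j)) ∨
      (∃ j < Nat.fib (k + 1), E ∈ Set.Icc (B2.lo (k + 1) j) (B2.hi (k + 1) j))) :
    dimH S2 ≤ dimH S1 := by
  classical
  apply dimH_le_of_cover S1 S2 hS1
  intro s s' hs hss'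
  obtain ⟨K0, hK00, hK0⟩ := modQ_levels (s' - s) (by linarith)
  refine ⟨510 * K0, 1, one_pos, ?_⟩
  intro n c d δ hδ hcd hS1c
  -- the numbers of levels
  have hKex : ∀ i, ∃ K : ℕ, i < n → (1 ≤ K ∧ 2 * Real.pi / Nat.fib K ≤ d i - c i ∧
      (K + 1 : ℝ) * (d i - c i) ^ (s' - s) ≤ K0) := by
    intro i
    by_cases hi : i < n
    · obtain ⟨h1, h2⟩ := hcd i hi
      obtain ⟨K, hK⟩ := hK0 (d i - c i) (by linarith) (by linarith)
      exact ⟨K, fun _ => hK⟩
    · exact ⟨0, fun h => absurd h hi⟩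
  choose K hK using hKex
  -- the intervals
  let J : ℕ → ℕ → Finset ℕ := fun i k =>
    Finset.Icc (B1.Z k (c i) - 127) (B1.Z k (c i) + 127) ∪
      Finset.Icc (B1.Z k (d i) - 127) (B1.Z k (d i) + 127)
  have hJ : ∀ i k, (J i k).card ≤ 510 := by
    intro i k
    refine (Finset.card_union_le _ _).trans ?_
    rw [Nat.card_Icc, Nat.card_Icc]
    omega
  let T : ℕ → Finset (ℕ × ℕ) := fun i =>
    ((Finset.Icc 1 (K i + 1)).biUnion fun k => (J i k).image fun j => (k, j)).filter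
      fun x => x.2 < Nat.fib x.1 ∧ B2.hi x.1 x.2 - B2.lo x.1 x.2 ≤ d i - c i
  have hT1 : ∀ i, ∀ x ∈ T i, 1 ≤ x.1 ∧ x.2 < Nat.fib x.1 ∧
      B2.hi x.1 x.2 - B2.lo x.1 x.2 ≤ d i - c i := by
    intro i x hx
    simp only [T, Finset.mem_filter, Finset.mem_biUnion, Finset.mem_image, Finset.mem_Icc] at hx
    obtain ⟨⟨k, hk, j, _, rfl⟩, h2, h3⟩ := hx
    exact ⟨hk.1, h2, h3⟩
  have hT2 : ∀ i, (T i).card ≤ (K i + 1) * 510 := by
    intro i
    calc (T i).card ≤ ((Finset.Icc 1 (K i + 1)).biUnion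
          fun k => (J i k).image fun j => (k, j)).card := Finset.card_filter_le _ _
      _ ≤ ∑ k ∈ Finset.Icc 1 (K i + 1), ((J i k).image fun j => (k, j)).card :=
          Finset.card_biUnion_le
      _ ≤ ∑ k ∈ Finset.Icc 1 (K i + 1), 510 := by
          apply Finset.sum_le_sum
          intro k _
          exact Finset.card_image_le.trans (hJ i k)
      _ = (K i + 1) * 510 := by simp
  have hab : ∀ k j, 1 ≤ k → j < Nat.fib k → B2.lo k j ≤ B2.hi k j := fun k j hk hj =>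
    (B2.lo_le k j hk hj).trans (B2.le_hi k j hk hj)
  refine ⟨(Finset.range n).biUnion T, fun x => B2.lo x.1 x.2, fun x => B2.hi x.1 x.2, ?_, ?_, ?_⟩
  · intro x hx
    rw [Finset.mem_biUnion] at hx
    obtain ⟨i, hi, hx⟩ := hx
    obtain ⟨h1, h2, h3⟩ := hT1 i x hx
    exact ⟨hab _ _ h1 h2, h3.trans (hcd i (Finset.mem_range.1 hi)).2⟩
  · intro E hE
    obtain ⟨N, hN⟩ := hnear (⋃ i ∈ Finset.range n, Set.Ioo (c i) (d i))
      (isOpen_biUnion fun _ _ => isOpen_Ioo) hS1c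
    set M := N + (∑ i ∈ Finset.range n, K i) + 2 with hMdef
    have hM1 : 1 ≤ M := by omega
    have hF : 0 < Nat.fib M := Nat.fib_pos.2 hM1
    have hz := B2.Z_le M E hM1
    have h1 := hN M (by omega) (min (B2.Z M E) (Nat.fib M - 1)) (by omega)
    simp only [Set.mem_iUnion, Finset.mem_range] at h1
    obtain ⟨i, hi, h1⟩ := h1
    obtain ⟨ν, hν1, hν2, hν3⟩ := modQ_point B1 M hM1 (B2.Z M E) hz (c i) (d i) (by
      intro j _ hj
      rw [hj]
      exact h1)
    obtain ⟨hK1, hK2, -⟩ := hK i hi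
    have hKM : K i + 1 ≤ M := by
      have : K i ≤ ∑ i ∈ Finset.range n, K i :=
        Finset.single_le_sum (f := K) (fun _ _ => Nat.zero_le _) (Finset.mem_range.2 hi)
      omega
    obtain ⟨k, j, hk1, hk2, hj, hEj, hl, hor⟩ := modQ_core B1 B2 hlen E (hcov E hE) (c i) (d i)
      (by linarith [(hcd i hi).2]) (K i) M hK1 hKM hK2 ν hν1 hν2 hν3
    simp only [Set.mem_iUnion]
    refine ⟨(k, j), ?_, hEj⟩
    rw [Finset.mem_biUnion]
    refine ⟨i, Finset.mem_range.2 hi, ?_⟩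
    simp only [T, Finset.mem_filter, Finset.mem_biUnion, Finset.mem_image, Finset.mem_Icc]
    refine ⟨⟨k, ⟨hk1, hk2⟩, j, ?_, rfl⟩, hj, hl⟩
    simp only [J, Finset.mem_union, Finset.mem_Icc]
    rcases hor with h | h
    · left
      rw [abs_le] at h
      have h2 : (j : ℝ) ≤ (B1.Z k (c i) + 127 : ℕ) := by push_cast; linarith
      have h3 : (B1.Z k (c i) : ℝ) ≤ (j + 127 : ℕ) := by push_cast; linarith
      have h2' : j ≤ B1.Z k (c i) + 127 := by exact_mod_cast h2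
      have h3' : B1.Z k (c i) ≤ j + 127 := by exact_mod_cast h3
      omega
    · right
      rw [abs_le] at h
      have h2 : (j : ℝ) ≤ (B1.Z k (d i) + 127 : ℕ) := by push_cast; linarith
      have h3 : (B1.Z k (d i) : ℝ) ≤ (j + 127 : ℕ) := by push_cast; linarith
      have h2' : j ≤ B1.Z k (d i) + 127 := by exact_mod_cast h2
      have h3' : B1.Z k (d i) ≤ j + 127 := by exact_mod_cast h3
      omega
  · have hnn : ∀ i ∈ Finset.range n, ∀ x ∈ T i, 0 ≤ (B2.hi x.1 x.2 - B2.lo x.1 x.2) ^ s' := by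
      intro i _ x hx
      obtain ⟨h1, h2, _⟩ := hT1 i x hx
      exact Real.rpow_nonneg (by linarith [hab _ _ h1 h2]) _
    refine (modQ_sum_biUnion_le (Finset.range n) T _ hnn).trans ?_
    rw [Finset.mul_sum]
    apply Finset.sum_le_sum
    intro i hi
    have hin := Finset.mem_range.1 hi
    have hl := (hcd i hin).1
    have hl0 : 0 < d i - c i := by linarith
    have hKi := (hK i hin).2.2
    calc ∑ x ∈ T i, (B2.hi x.1 x.2 - B2.lo x.1 x.2) ^ s' ≤ ∑ x ∈ T i, (d i - c i) ^ s' := by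
          apply Finset.sum_le_sum
          intro x hx
          obtain ⟨h1, h2, h3⟩ := hT1 i x hx
          exact Real.rpow_le_rpow (by linarith [hab _ _ h1 h2]) h3 (by linarith)
      _ = (T i).card * (d i - c i) ^ s' := by rw [Finset.sum_const, nsmul_eq_mul]
      _ ≤ ((K i + 1) * 510 : ℕ) * (d i - c i) ^ s' := by
          have := Real.rpow_nonneg hl0.le s'
          gcongr
          exact hT2 i
      _ = 510 * ((K i + 1 : ℝ) * (d i - c i) ^ (s' - s)) * (d i - c i) ^ s := by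
          have h5 : (d i - c i) ^ s' = (d i - c i) ^ (s' - s) * (d i - c i) ^ s := by
            rw [← Real.rpow_add hl0]
            congr 1
            ring
          rw [h5]
          push_cast
          ring
      _ ≤ 510 * K0 * (d i - c i) ^ s := by
          have := Real.rpow_nonneg hl0.le s
          gcongr

end Pool.Agent.H22.Fib
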