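import Pool.Agent.H22.Fib.ModH
import Pool.Agent.H22.Fib.ModN1
import Pool.Agent.H22.Fib.ModN2
import Pool.Agent.H22.Fib.ModQ

/-!
Monotonicity of the dimension: assembly.
-/

set_option autoImplicit false

noncomputable section

open Polynomial Filter Topology

namespace Pool.Agent.H22.Fib

def bandSys (lam : ℝ) (hl : 0 < lam) : BandSys where
  lo := lo lam
  hi := hi lam
  rt := rt lam
  Z := Zc lam
  lo_le k j hk hj := (band_rt lam hl k hk j hj).1.le
  le_hi k j hk hj := (band_rt lam hl k hk j hj).2.le
  rt_le_lo k j hk hj := by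
    have h1 := (rt_lt_cr lam k hk j hj).1
    have h2 := (band_gap lam hl k hk j hj).2
    linarith
  hi_le_rt k j hk hj := by
    have h1 := (rt_lt_cr lam k hk j hj).2
    have h2 := (band_gap lam hl k hk j hj).1
    linarith
  Z_iff k j E hk hj := srt_lt_iff (card_roots lam k hk) hj E
  Z_le k E hk := by
    rw [← card_roots lam k hk]
    exact Finset.card_filter_le _ _
  Z_rec k E hk := Zc_rec lam k hk E
  len k j hk hj := band_le lam hl k hk j hj
  len_one := by
    have h : tp lam 1 ^ 2 - C 4 ≠ 0 := by
      intro h0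
      have h2 := card_edges lam hl 1 le_rfl
      rw [h0] at h2
      simp at h2
    have hx : ∀ i < 2, (tp lam 1 ^ 2 - C 4).eval ((fun i : ℕ => if i = 0 then (-2 : ℝ) else 2) i)
        = 0 := by
      intro i hi
      interval_cases i <;> simp [tp] <;> norm_num
    have hu := srt_unique (p := tp lam 1 ^ 2 - C 4) (n := 2) (by
      have h2 := card_edges lam hl 1 le_rfl
      simpa using h2) h (fun i : ℕ => if i = 0 then (-2 : ℝ) else 2) hx (by
        intro i j hij hj
        have : i = 0 := by omega
        have : j = 1 := by omega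
        subst_vars
        norm_num)
    have h0 := hu 0 (by norm_num)
    have h1 := hu 1 (by norm_num)
    unfold hi lo
    simp only [Nat.mul_zero, Nat.zero_add]
    rw [h0, h1]
    norm_num

theorem main (lam1 lam2 om1 om2 : ℝ) (h1 : 0 < lam1) (h12 : lam1 ≤ lam2) :
    dimH (Sig lam2 om2) ≤ dimH (Sig lam1 om1) := by
  have h2 : 0 < lam2 := h1.trans_le h12
  refine dimH_le_of_bandSys (bandSys lam1 h1) (bandSys lam2 h2) _ _ (Sig_compact _ _) ?_ ?_ ?_
  · intro k j hk hj
    exact band_antitone lam1 lam2 h1 h12 k hk j hj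
  · intro O hO hS
    obtain ⟨N, hN⟩ := roots_near lam1 om1 h1.le O hO hS
    refine ⟨max N 1, fun n hn j hj => hN n (le_of_max_le_left hn) _ ?_⟩
    exact srt_isRoot (card_roots lam1 n (le_of_max_le_right hn)) hj
  · intro E hE k hk
    rcases Sig_subset lam2 om2 k hk hE with h | h
    · left
      exact (sig_eq lam2 h2 k hk E).1 h
    · right
      exact (sig_eq lam2 h2 (k + 1) (by omega) E).1 h

end Pool.Agent.H22.Fib
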