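import Pool.Agent.H22.Fib.Defs

/-!
Module A: basic properties of the trace polynomials.
-/

set_option autoImplicit false

noncomputable section

open Polynomial Filter Topology

namespace Pool.Agent.H22.Fib

private theorem modA_ind {P : ℕ → Prop} (h0 : P 0) (h1 : P 1) (h2 : P 2)
    (h3 : ∀ k, P k → P (k + 1) → P (k + 2) → P (k + 3)) : ∀ k, P k := by
  intro k
  induction k using Nat.strong_induction_on with
  | _ k ih =>
    match k, ih with
    | 0, _ => exact h0
    | 1, _ => exact h1
    | 2, _ => exact h2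
    | k + 3, ih => exact h3 k (ih k (by omega)) (ih (k + 1) (by omega)) (ih (k + 2) (by omega))

theorem modA_tp_zero (lam : ℝ) : tp lam 0 = C 2 := by rw [tp]
theorem modA_tp_one (lam : ℝ) : tp lam 1 = X := by rw [tp]
theorem modA_tp_two (lam : ℝ) : tp lam 2 = X - C lam := by rw [tp]
theorem modA_tp_rec (lam : ℝ) (k : ℕ) :
    tp lam (k + 3) = tp lam (k + 2) * tp lam (k + 1) - tp lam k := by rw [tp]
theorem modA_dp_zero (lam : ℝ) : dp lam 0 = 0 := by rw [dp]
theorem modA_dp_one (lam : ℝ) : dp lam 1 = 0 := by rw [dp]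
theorem modA_dp_two (lam : ℝ) : dp lam 2 = -1 := by rw [dp]
theorem modA_dp_rec (lam : ℝ) (k : ℕ) :
    dp lam (k + 3) = dp lam (k + 2) * tp lam (k + 1) + tp lam (k + 2) * dp lam (k + 1)
      - dp lam k := by rw [dp]

private theorem modA_fib_rec (k : ℕ) : Nat.fib (k + 3) = Nat.fib (k + 2) + Nat.fib (k + 1) := by
  rw [show k + 3 = (k + 1) + 2 from rfl, Nat.fib_add_two]
  ring

private theorem modA_monic_deg (lam : ℝ) (k : ℕ) :
    ((1 ≤ k → (tp lam k).Monic) ∧ (tp lam k).natDegree = Nat.fib k) := by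
  induction k using modA_ind with
  | h0 => simp [modA_tp_zero]
  | h1 => simp [modA_tp_one, monic_X]
  | h2 =>
    rw [modA_tp_two]
    exact ⟨fun _ => monic_X_sub_C lam, by rw [natDegree_X_sub_C]; rfl⟩
  | h3 k ih0 ih1 ih2 =>
    obtain ⟨-, d0⟩ := ih0
    obtain ⟨m1, d1⟩ := ih1
    obtain ⟨m2, d2⟩ := ih2
    have m1 := m1 (by omega)
    have m2 := m2 (by omega)
    have hm : (tp lam (k + 2) * tp lam (k + 1)).Monic := m2.mul m1
    have hd : (tp lam (k + 2) * tp lam (k + 1)).natDegree = Nat.fib (k + 3) := by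
      rw [m2.natDegree_mul m1, d1, d2, modA_fib_rec]
    have hlt : (tp lam k).natDegree < (tp lam (k + 2) * tp lam (k + 1)).natDegree := by
      rw [hd, d0]
      have h1 : Nat.fib (k + 3) = Nat.fib (k + 2) + Nat.fib (k + 1) := modA_fib_rec k
      have h2 : Nat.fib (k + 2) = Nat.fib k + Nat.fib (k + 1) := Nat.fib_add_two
      have h3 : 0 < Nat.fib (k + 1) := Nat.fib_pos.2 (by omega)
      omega
    have hlt' : (tp lam k).degree < (tp lam (k + 2) * tp lam (k + 1)).degree :=
      degree_lt_degree hlt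
    rw [modA_tp_rec]
    refine ⟨fun _ => hm.sub_of_left hlt', ?_⟩
    rw [natDegree_sub_eq_left_of_natDegree_lt hlt, hd]

theorem tp_monic (lam : ℝ) (k : ℕ) (hk : 1 ≤ k) : (tp lam k).Monic :=
  (modA_monic_deg lam k).1 hk

theorem tp_natDegree (lam : ℝ) (k : ℕ) (hk : 1 ≤ k) : (tp lam k).natDegree = Nat.fib k :=
  (modA_monic_deg lam k).2

private theorem modA_degree (lam : ℝ) (k : ℕ) (hk : 1 ≤ k) :
    (tp lam k).degree = (Nat.fib k : ℕ) := by
  rw [degree_eq_natDegree (tp_monic lam k hk).ne_zero, tp_natDegree lam k hk]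

theorem dp_degree_lt (lam : ℝ) (k : ℕ) (hk : 1 ≤ k) : (dp lam k).degree < (Nat.fib k : ℕ) := by
  have key : ∀ k : ℕ, (1 ≤ k → (dp lam k).degree < (Nat.fib k : ℕ)) ∧
      (dp lam k).degree < (Nat.fib (k + 3) : ℕ) := by
    intro k
    induction k using modA_ind with
    | h0 =>
      rw [modA_dp_zero, degree_zero]
      exact ⟨fun h => absurd h (by omega), WithBot.bot_lt_coe _⟩
    | h1 =>
      rw [modA_dp_one, degree_zero]
      exact ⟨fun _ => WithBot.bot_lt_coe _, WithBot.bot_lt_coe _⟩
    | h2 =>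
      rw [modA_dp_two, degree_neg, degree_one]
      refine ⟨fun _ => ?_, ?_⟩
      · norm_num [Nat.fib]
      · norm_num [Nat.fib]
    | h3 k ih0 ih1 ih2 =>
      have h1 := ih1.1 (by omega)
      have h2 := ih2.1 (by omega)
      have hmain : (dp lam (k + 3)).degree < (Nat.fib (k + 3) : ℕ) := by
        rw [modA_dp_rec]
        have a1 : (dp lam (k + 2) * tp lam (k + 1)).degree < (Nat.fib (k + 3) : ℕ) := by
          rw [degree_mul, modA_degree lam (k + 1) (by omega), modA_fib_rec, Nat.cast_add]
          exact WithBot.add_lt_add_right (by simp) h2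
        have a2 : (tp lam (k + 2) * dp lam (k + 1)).degree < (Nat.fib (k + 3) : ℕ) := by
          rw [degree_mul, modA_degree lam (k + 2) (by omega), modA_fib_rec, Nat.cast_add]
          exact WithBot.add_lt_add_left (by simp) h1
        refine (degree_sub_le _ _).trans_lt (max_lt ?_ ih0.2)
        exact (degree_add_le _ _).trans_lt (max_lt a1 a2)
      refine ⟨fun _ => hmain, hmain.trans_le ?_⟩
      exact_mod_cast Nat.fib_mono (by omega)
  exact (key k).1 hk

theorem hasDerivAt_tp (k : ℕ) (E lam : ℝ) :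
    HasDerivAt (fun l => (tp l k).eval E) ((dp lam k).eval E) lam := by
  induction k using modA_ind with
  | h0 =>
    simp only [modA_tp_zero, modA_dp_zero, eval_C, eval_zero]
    exact hasDerivAt_const _ _
  | h1 =>
    simp only [modA_tp_one, modA_dp_one, eval_X, eval_zero]
    exact hasDerivAt_const _ _
  | h2 =>
    simp only [modA_tp_two, modA_dp_two, eval_sub, eval_X, eval_C, eval_neg, eval_one]
    exact (hasDerivAt_id lam).const_sub E
  | h3 k ih0 ih1 ih2 =>
    simp only [modA_tp_rec, modA_dp_rec, eval_sub, eval_mul, eval_add]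
    exact (ih2.mul ih1).sub ih0

theorem contDiff_tp (k : ℕ) : ContDiff ℝ 2 (fun x : ℝ × ℝ => (tp x.1 k).eval x.2) := by
  induction k using modA_ind with
  | h0 =>
    simp only [modA_tp_zero, eval_C]
    exact contDiff_const
  | h1 =>
    simp only [modA_tp_one, eval_X]
    exact contDiff_snd
  | h2 =>
    simp only [modA_tp_two, eval_sub, eval_X, eval_C]
    exact contDiff_snd.sub contDiff_fst
  | h3 k ih0 ih1 ih2 =>
    simp only [modA_tp_rec, eval_sub, eval_mul]
    exact (ih2.mul ih1).sub ih0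

theorem contDiff_dtp (k : ℕ) :
    ContDiff ℝ 2 (fun x : ℝ × ℝ => (derivative (tp x.1 k)).eval x.2) := by
  induction k using modA_ind with
  | h0 =>
    simp only [modA_tp_zero, derivative_C, eval_zero]
    exact contDiff_const
  | h1 =>
    simp only [modA_tp_one, derivative_X, eval_one]
    exact contDiff_const
  | h2 =>
    simp only [modA_tp_two, derivative_sub, derivative_X, derivative_C, eval_sub, eval_one,
      eval_zero]
    exact contDiff_const
  | h3 k ih0 ih1 ih2 =>
    simp only [modA_tp_rec, derivative_sub, derivative_mul, eval_sub, eval_mul, eval_add]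
    exact ((ih2.mul (contDiff_tp (k + 1))).add ((contDiff_tp (k + 2)).mul ih1)).sub ih0

theorem continuous_dp (k : ℕ) : Continuous (fun x : ℝ × ℝ => (dp x.1 k).eval x.2) := by
  induction k using modA_ind with
  | h0 =>
    simp only [modA_dp_zero, eval_zero]
    exact continuous_const
  | h1 =>
    simp only [modA_dp_one, eval_zero]
    exact continuous_const
  | h2 =>
    simp only [modA_dp_two, eval_neg, eval_one]
    exact continuous_const
  | h3 k ih0 ih1 ih2 =>
    simp only [modA_dp_rec, eval_sub, eval_mul, eval_add]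
    exact ((ih2.mul (contDiff_tp (k + 1)).continuous).add
      ((contDiff_tp (k + 2)).continuous.mul ih1)).sub ih0

theorem escape (lam E : ℝ) (k : ℕ) (h1 : 2 < |(tp lam k).eval E|)
    (h2 : 2 < |(tp lam (k + 1)).eval E|) : ∀ n, k ≤ n → 2 < |(tp lam n).eval E| := by
  classical
  set t : ℕ → ℝ := fun n => (tp lam n).eval E with ht
  have hrec : ∀ n, t (n + 3) = t (n + 2) * t (n + 1) - t n := by
    intro n
    simp only [ht, modA_tp_rec, eval_sub, eval_mul]
  have h0 : |t 0| ≤ 2 := by
    simp [ht, modA_tp_zero]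
  set m := Nat.findGreatest (fun m => |t m| ≤ 2) k with hm
  have hm1 : |t m| ≤ 2 := Nat.findGreatest_spec (P := fun m => |t m| ≤ 2) (Nat.zero_le k) h0
  have hm2 : ∀ j, m < j → j ≤ k → 2 < |t j| := by
    intro j hj hjk
    have := Nat.findGreatest_is_greatest (P := fun m => |t m| ≤ 2) hj hjk
    exact not_le.1 this
  have hmk : m ≤ k := Nat.findGreatest_le k
  have hmk' : m ≠ k := by
    intro h
    rw [h] at hm1
    exact absurd h1 (not_lt.2 hm1)
  have hlt : m < k := lt_of_le_of_ne hmk hmk'
  have key : ∀ i, 2 < |t (m + i + 1)| ∧ 2 < |t (m + i + 2)| ∧ |t (m + i)| < |t (m + i + 2)| := by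
    intro i
    induction i with
    | zero =>
      have a1 : 2 < |t (m + 1)| := hm2 _ (by omega) (by omega)
      have a2 : 2 < |t (m + 2)| := by
        rcases Nat.lt_or_ge (m + 1) k with h | h
        · exact hm2 _ (by omega) (by omega)
        · have : m + 2 = k + 1 := by omega
          rw [this]
          exact h2
      exact ⟨a1, a2, lt_of_le_of_lt hm1 a2⟩
    | succ i ih =>
      obtain ⟨b1, b2, b3⟩ := ih
      have hr := hrec (m + i)
      have hle : |t (m + i + 2)| * |t (m + i + 1)| - |t (m + i)| ≤ |t (m + i + 3)| := by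
        rw [hr, ← abs_mul]
        exact abs_sub_abs_le_abs_sub _ _
      have hgt : |t (m + i + 1)| < |t (m + i + 3)| := by
        nlinarith [mul_pos (sub_pos.2 b1) (sub_pos.2 b2)]
      refine ⟨?_, ?_, ?_⟩
      · have : m + (i + 1) + 1 = m + i + 2 := by ring
        rw [this]; exact b2
      · have : m + (i + 1) + 2 = m + i + 3 := by ring
        rw [this]; linarith
      · have e1 : m + (i + 1) + 2 = m + i + 3 := by ring
        have e2 : m + (i + 1) = m + i + 1 := by ring
        rw [e1, e2]; exact hgt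
  intro n hn
  obtain ⟨i, rfl⟩ : ∃ i, n = m + i + 1 := ⟨n - m - 1, by omega⟩
  exact (key i).1

theorem sig_bound (lam E : ℝ) (hl : 0 ≤ lam) (k : ℕ) (hk : 1 ≤ k) (hE : E ∈ sig lam k) :
    -2 ≤ E ∧ E ≤ 2 + lam := by
  by_contra hcon
  have hE' : |(tp lam k).eval E| ≤ 2 := hE
  have h1 : 2 < |(tp lam 1).eval E| ∧ 2 < |(tp lam 2).eval E| := by
    rw [modA_tp_one, modA_tp_two]
    simp only [eval_X, eval_sub, eval_C]
    rw [not_and_or, not_le, not_le] at hcon
    rcases hcon with h | h
    · constructor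
      · rw [lt_abs]; right; linarith
      · rw [lt_abs]; right; linarith
    · constructor
      · rw [lt_abs]; left; linarith
      · rw [lt_abs]; left; linarith
  have := escape lam E 1 h1.1 h1.2 k hk
  linarith

theorem tp_cos (θ : ℝ) (k : ℕ) :
    (tp 0 k).eval (2 * Real.cos θ) = 2 * Real.cos (Nat.fib k * θ) := by
  induction k using modA_ind with
  | h0 => simp [modA_tp_zero]
  | h1 => simp [modA_tp_one]
  | h2 => simp [modA_tp_two]
  | h3 k ih0 ih1 ih2 =>
    rw [modA_tp_rec, eval_sub, eval_mul, ih0, ih1, ih2, modA_fib_rec]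
    have e : (Nat.fib k : ℝ) * θ = (Nat.fib (k + 2) : ℝ) * θ - (Nat.fib (k + 1) : ℝ) * θ := by
      have : Nat.fib (k + 2) = Nat.fib k + Nat.fib (k + 1) := Nat.fib_add_two
      rw [this]
      push_cast
      ring
    rw [e]
    push_cast
    rw [add_mul, Real.cos_add, Real.cos_sub]
    ring

end Pool.Agent.H22.Fib
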