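import Pool.Agent.H22.Fib.Defs

/-!
# Module B: no critical points in the spectrum, no double critical points

We work with 1-jets of paths in `SL(2, ℝ)`: a matrix `(a, b; c, d)` together with its velocity
`(n1, n2; n3, n4)`. The quadratic form `F w = det (Mᵀ w, Nᵀ w)` measures the direction of rotation.
-/

set_option autoImplicit false

noncomputable section

open Polynomial Filter Topology

namespace Pool.Agent.H22.Fib

/-- A 1-jet of a path of real `2 × 2` matrices. -/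
@[ext] structure MBJ where
  a : ℝ
  b : ℝ
  c : ℝ
  d : ℝ
  n1 : ℝ
  n2 : ℝ
  n3 : ℝ
  n4 : ℝ

namespace MBJ

def det (x : MBJ) : ℝ := x.a * x.d - x.b * x.c
def ddet (x : MBJ) : ℝ := x.a * x.n4 + x.d * x.n1 - x.b * x.n3 - x.c * x.n2
def tr (x : MBJ) : ℝ := x.a + x.d
def dtr (x : MBJ) : ℝ := x.n1 + x.n4

/-- The quadratic form `det (Mᵀ w, Nᵀ w)`. -/
def F (x : MBJ) (u v : ℝ) : ℝ :=
  (x.n2 * u + x.n4 * v) * (x.a * u + x.c * v) - (x.n1 * u + x.n3 * v) * (x.b * u + x.d * v)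

def mul (x y : MBJ) : MBJ where
  a := x.a * y.a + x.b * y.c
  b := x.a * y.b + x.b * y.d
  c := x.c * y.a + x.d * y.c
  d := x.c * y.b + x.d * y.d
  n1 := x.n1 * y.a + x.n2 * y.c + (x.a * y.n1 + x.b * y.n3)
  n2 := x.n1 * y.b + x.n2 * y.d + (x.a * y.n2 + x.b * y.n4)
  n3 := x.n3 * y.a + x.n4 * y.c + (x.c * y.n1 + x.d * y.n3)
  n4 := x.n3 * y.b + x.n4 * y.d + (x.c * y.n2 + x.d * y.n4)

def inv (x : MBJ) : MBJ where
  a := x.d
  b := -x.b
  c := -x.c
  d := x.a
  n1 := x.n4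
  n2 := -x.n2
  n3 := -x.n3
  n4 := x.n1

theorem det_mul (x y : MBJ) : (mul x y).det = x.det * y.det := by
  simp only [det, mul]; ring

theorem ddet_mul (x y : MBJ) : (mul x y).ddet = x.ddet * y.det + x.det * y.ddet := by
  simp only [det, ddet, mul]; ring

theorem det_inv (x : MBJ) : (inv x).det = x.det := by
  simp only [det, inv]; ring

theorem ddet_inv (x : MBJ) : (inv x).ddet = x.ddet := by
  simp only [ddet, inv]; ring

theorem F_mul (x y : MBJ) (u v : ℝ) :
    (mul x y).F u v = y.det * x.F u v + y.F (x.a * u + x.c * v) (x.b * u + x.d * v) := by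
  simp only [det, F, mul]; ring

theorem F_inv (x : MBJ) (h : x.det = 1) (h' : x.ddet = 0) (u v : ℝ) :
    (inv x).F u v = - x.F (x.d * u - x.c * v) (-x.b * u + x.a * v) := by
  simp only [det, ddet, F, inv] at *
  grind

theorem tr_mul (x y : MBJ) : (mul (mul x y) x).tr = (mul x y).tr * x.tr - x.det * y.tr := by
  simp only [tr, det, mul]; ring

theorem dtr_mul (x y : MBJ) : (mul (mul x y) x).dtr =
    (mul x y).dtr * x.tr + (mul x y).tr * x.dtr - x.det * y.dtr - x.ddet * y.tr := by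
  simp only [tr, dtr, det, ddet, mul]; ring

/-- The key lemma: if the form `F` is positive definite, the trace is in `[-2, 2]` and its
derivative vanishes, then the matrix is `± 1`. -/
theorem key (x : MBJ) (h : x.det = 1) (h' : x.ddet = 0) (hF : ∀ u v, (u, v) ≠ (0, 0) → 0 < x.F u v)
    (ht : |x.tr| ≤ 2) (hd : x.dtr = 0) : x.b = 0 ∧ x.c = 0 ∧ x.a = x.d := by
  obtain ⟨a, b, c, d, n1, n2, n3, n4⟩ := x
  simp only [det, ddet, F, tr, dtr] at *
  have hp := hF 1 0 (by simp)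
  have hr := hF 0 1 (by simp)
  set p := n2 * a - n1 * b with hpdef
  set q := n2 * c - n1 * d with hqdef
  set r := n4 * c - n3 * d with hrdef
  have hp : 0 < p := by rw [hpdef]; linarith
  have hr : 0 < r := by rw [hrdef]; linarith
  have hq' : n4 * a - n3 * b = q := by rw [hqdef]; linarith
  have hdisc : 0 < p * r - q ^ 2 := by
    have h1 := hF (-q) p (by
      intro h0
      rw [Prod.mk.injEq] at h0
      linarith)
    have h2 : (n2 * -q + n4 * p) * (a * -q + c * p) - (n1 * -q + n3 * p) * (b * -q + d * p) =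
        p * (p * r - q ^ 2) := by
      have e1 : (n2 * -q + n4 * p) * (a * -q + c * p) - (n1 * -q + n3 * p) * (b * -q + d * p) =
        q ^ 2 * p - q * p * q - q * p * (n4 * a - n3 * b) + p ^ 2 * r := by
        rw [hpdef, hqdef, hrdef]; ring
      rw [e1, hq']; ring
    rw [h2] at h1
    by_contra hcon
    push Not at hcon
    nlinarith
  have hkey : p * c + q * (d - a) - r * b = 0 := by
    have e1 : p * c + q * (d - a) - r * b = (n1 + n4) * (a * d - b * c)
        - d * (a * n4 + d * n1 - b * n3 - c * n2) := by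
      rw [hpdef, hqdef, hrdef]; ring
    rw [e1, hd, h']; ring
  have hbc : (d - a) ^ 2 ≤ -4 * (b * c) := by
    have h1 : (a + d) ^ 2 ≤ 4 := by
      have := sq_le_sq' (by linarith [neg_abs_le (a + d)]) ((le_abs_self (a + d)).trans ht)
      linarith
    nlinarith
  have hbc0 : 0 ≤ -(b * c) := by nlinarith [sq_nonneg (d - a)]
  have h3 : (p * c - r * b) ^ 2 = q ^ 2 * (d - a) ^ 2 := by
    have : p * c - r * b = -(q * (d - a)) := by linarith
    rw [this]; ring
  have h4 : (p * c + r * b) ^ 2 ≤ 4 * (p * r - q ^ 2) * (b * c) := by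
    have h5 : q ^ 2 * (d - a) ^ 2 ≤ q ^ 2 * (-4 * (b * c)) :=
      mul_le_mul_of_nonneg_left hbc (sq_nonneg q)
    nlinarith
  have hbc1 : b * c = 0 := by
    have h5 : 0 ≤ 4 * (p * r - q ^ 2) * (b * c) := (sq_nonneg _).trans h4
    have h6 : 0 ≤ b * c := by
      by_contra h7
      push Not at h7
      nlinarith
    linarith
  have h7 : (p * c + r * b) ^ 2 ≤ 0 := by rw [hbc1] at h4; linarith
  have h8 : p * c + r * b = 0 := by
    have := sq_nonneg (p * c + r * b)
    exact pow_eq_zero_iff (two_ne_zero) |>.1 (le_antisymm h7 this)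
  have h9 : (d - a) ^ 2 ≤ 0 := by rw [hbc1] at hbc; linarith
  have h10 : d - a = 0 := pow_eq_zero_iff (two_ne_zero) |>.1 (le_antisymm h9 (sq_nonneg _))
  have h11 : b = 0 := by
    rcases mul_eq_zero.1 hbc1 with h | h
    · exact h
    · rw [h] at h8
      have : r * b = 0 := by linarith
      rcases mul_eq_zero.1 this with h' | h'
      · linarith
      · exact h'
  have h12 : c = 0 := by
    rw [h11] at h8
    have : p * c = 0 := by linarith
    rcases mul_eq_zero.1 this with h' | h'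
    · linarith
    · exact h'
  exact ⟨h11, h12, by linarith⟩

end MBJ

open MBJ

/-- The jets of the transfer matrices with respect to the energy. -/
def mbA (lam E : ℝ) : ℕ → MBJ
  | 0 => ⟨1, 0, lam, 1, 0, 0, 0, 0⟩
  | 1 => ⟨E, -1, 1, 0, 1, 0, 0, 0⟩
  | (n + 2) => mul (mbA lam E (n + 1)) (mbA lam E n)

theorem mbA_det (lam E : ℝ) : ∀ n, (mbA lam E n).det = 1 ∧ (mbA lam E n).ddet = 0
  | 0 => by simp [mbA, det, ddet]
  | 1 => by simp [mbA, det, ddet]
  | (n + 2) => by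
    have h1 := mbA_det lam E n
    have h2 := mbA_det lam E (n + 1)
    rw [mbA, det_mul, ddet_mul, h1.1, h1.2, h2.1, h2.2]
    norm_num

theorem mbA_tr (lam E : ℝ) : ∀ n, (mbA lam E n).tr = (tp lam n).eval E ∧
    (mbA lam E n).dtr = (derivative (tp lam n)).eval E
  | 0 => by simp [mbA, tr, dtr, tp]; norm_num
  | 1 => by simp [mbA, tr, dtr, tp]
  | 2 => by simp [mbA, tr, dtr, tp, mul]; ring
  | (n + 3) => by
    have h0 := mbA_tr lam E n
    have h1 := mbA_tr lam E (n + 1)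
    have h2 := mbA_tr lam E (n + 2)
    have hd := mbA_det lam E (n + 1)
    have e : mbA lam E (n + 3) = mul (mul (mbA lam E (n + 1)) (mbA lam E n)) (mbA lam E (n + 1)) :=
      rfl
    have e2 : mul (mbA lam E (n + 1)) (mbA lam E n) = mbA lam E (n + 2) := rfl
    rw [e, tr_mul, dtr_mul, e2, h0.1, h0.2, h1.1, h1.2, h2.1, h2.2, hd.1, hd.2, tp]
    simp only [derivative_sub, derivative_mul, eval_sub, eval_mul, eval_add]
    constructor <;> ring

theorem mbA_F_nonneg (lam E : ℝ) : ∀ n u v, 0 ≤ (mbA lam E n).F u v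
  | 0, u, v => by simp [mbA, F]
  | 1, u, v => by simp [mbA, F]; nlinarith [sq_nonneg u]
  | (n + 2), u, v => by
    rw [mbA, F_mul, (mbA_det lam E n).1, one_mul]
    exact add_nonneg (mbA_F_nonneg lam E (n + 1) u v) (mbA_F_nonneg lam E n _ _)

theorem mbA_F_pos (lam E : ℝ) : ∀ n u v, (u, v) ≠ ((0 : ℝ), (0 : ℝ)) → 0 < (mbA lam E (n + 3)).F u v
  | 0, u, v, h => by
    have e : (mbA lam E 3).F u v = u ^ 2 + ((E - lam) * u + v) ^ 2 := by
      simp [mbA, F, mul]; ring
    rw [zero_add, e]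
    by_cases hu : u = 0
    · have hv : v ≠ 0 := by
        intro hv
        exact h (by rw [hu, hv])
      rw [hu]
      have := pow_pos (abs_pos.2 hv) 2
      rw [sq_abs] at this
      nlinarith
    · have := pow_pos (abs_pos.2 hu) 2
      rw [sq_abs] at this
      nlinarith [sq_nonneg ((E - lam) * u + v)]
  | (n + 1), u, v, h => by
    have e : mbA lam E (n + 1 + 3) = mul (mbA lam E (n + 3)) (mbA lam E (n + 2)) := rfl
    rw [e, F_mul, (mbA_det lam E (n + 2)).1, one_mul]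
    exact add_pos_of_pos_of_nonneg (mbA_F_pos lam E n u v h) (mbA_F_nonneg lam E (n + 2) _ _)

/-- If the energy derivative vanishes inside the spectrum then the transfer matrix is `± 1`. -/
theorem mbA_crit (lam E : ℝ) (k : ℕ) (hk : 1 ≤ k) (h : |(tp lam k).eval E| ≤ 2)
    (hd : (derivative (tp lam k)).eval E = 0) :
    3 ≤ k ∧ (mbA lam E k).b = 0 ∧ (mbA lam E k).c = 0 ∧ (mbA lam E k).a = (mbA lam E k).d := by
  have h3 : 3 ≤ k := by
    by_contra hk3
    have : k = 1 ∨ k = 2 := by omega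
    rcases this with rfl | rfl
    · simp [tp] at hd
    · simp [tp] at hd
  obtain ⟨n, rfl⟩ := Nat.exists_eq_add_of_le' h3
  refine ⟨h3, ?_⟩
  have ht := mbA_tr lam E (n + 3)
  exact key _ (mbA_det lam E _).1 (mbA_det lam E _).2 (mbA_F_pos lam E n)
    (by rw [ht.1]; exact h) (by rw [ht.2]; exact hd)

/-- The Fricke invariant. -/
theorem mb_inv (lam E : ℝ) : ∀ n, (tp lam (n + 2)).eval E ^ 2 + (tp lam (n + 1)).eval E ^ 2 +
    (tp lam n).eval E ^ 2 - (tp lam (n + 2)).eval E * (tp lam (n + 1)).eval E *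
      (tp lam n).eval E - 4 = lam ^ 2
  | 0 => by simp [tp]; ring
  | (n + 1) => by
    have h := mb_inv lam E n
    have e : (tp lam (n + 1 + 2)).eval E = (tp lam (n + 2)).eval E * (tp lam (n + 1)).eval E
        - (tp lam n).eval E := by
      rw [show n + 1 + 2 = n + 3 by ring, tp]; simp
    rw [e]
    have e2 : n + 1 + 1 = n + 2 := by ring
    rw [e2]
    linarith [h]

theorem deriv_ne_of_lt (lam E : ℝ) (k : ℕ) (hk : 1 ≤ k) (h : |(tp lam k).eval E| < 2) :
    (derivative (tp lam k)).eval E ≠ 0 := by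
  intro hd
  obtain ⟨h3, hb, hc, had⟩ := mbA_crit lam E k hk h.le hd
  have hdet := (mbA_det lam E k).1
  have ht := (mbA_tr lam E k).1
  unfold det at hdet
  unfold tr at ht
  rw [hb, had] at hdet
  rw [had] at ht
  have h1 : (mbA lam E k).d ^ 2 = 1 := by linarith
  rw [← ht] at h
  have h2 : |(mbA lam E k).d + (mbA lam E k).d| ^ 2 < 2 ^ 2 :=
    pow_lt_pow_left₀ h (abs_nonneg _) two_ne_zero
  rw [sq_abs] at h2
  nlinarith

theorem deriv_ne_of_le (lam E : ℝ) (hl : lam ≠ 0) (k : ℕ) (hk : 1 ≤ k)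
    (h : |(tp lam k).eval E| ≤ 2) : (derivative (tp lam k)).eval E ≠ 0 := by
  intro hd
  obtain ⟨h3, hb, hc, had⟩ := mbA_crit lam E k hk h hd
  obtain ⟨n, rfl⟩ := Nat.exists_eq_add_of_le' h3
  have hdet := (mbA_det lam E (n + 3)).1
  have ht := (mbA_tr lam E (n + 3)).1
  have ht2 := (mbA_tr lam E (n + 2)).1
  have ht4 := (mbA_tr lam E (n + 4)).1
  have e4 : mbA lam E (n + 4) = mul (mbA lam E (n + 3)) (mbA lam E (n + 2)) := rfl
  have hinv := mb_inv lam E (n + 2)
  rw [show n + 2 + 2 = n + 4 by ring, show n + 2 + 1 = n + 3 by ring, ← ht, ← ht2, ← ht4] at hinv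
  rw [e4] at hinv
  unfold tr at hinv
  unfold det at hdet
  simp only [mul] at hinv
  rw [hb, hc, had] at hinv
  rw [hb, had] at hdet
  have h1 : (mbA lam E (n + 3)).d ^ 2 = 1 := by linarith
  have h2 : lam ^ 2 = 0 := by
    rw [← hinv]
    linear_combination (4 - ((mbA lam E (n + 2)).a + (mbA lam E (n + 2)).d) ^ 2) * h1
  exact hl (pow_eq_zero_iff (two_ne_zero) |>.1 h2)

/-! ### The reversed sequence -/

/-- The jet with reversed velocity. -/
def mbNeg (x : MBJ) : MBJ := ⟨x.a, x.b, x.c, x.d, -x.n1, -x.n2, -x.n3, -x.n4⟩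

theorem mb_key (x : MBJ) (s : ℝ) (hs : s = 1 ∨ s = -1) (h : x.det = 1) (h' : x.ddet = 0)
    (hF : ∀ u v, (u, v) ≠ ((0 : ℝ), (0 : ℝ)) → 0 < s * x.F u v)
    (ht : |x.tr| ≤ 2) (hd : x.dtr = 0) : x.b = 0 ∧ x.c = 0 ∧ x.a = x.d := by
  rcases hs with rfl | rfl
  · exact key x h h' (fun u v huv => by simpa using hF u v huv) ht hd
  · refine key (mbNeg x) h ?_ ?_ ht ?_
    · have : (mbNeg x).ddet = - x.ddet := by simp only [ddet, mbNeg]; ring
      rw [this, h', neg_zero]
    · intro u v huv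
      have : (mbNeg x).F u v = -1 * x.F u v := by simp only [F, mbNeg]; ring
      rw [this]
      exact hF u v huv
    · have : (mbNeg x).dtr = - x.dtr := by simp only [dtr, mbNeg]; ring
      rw [this, hd, neg_zero]

/-- The reversed sequence, starting from a path whose velocity is a sum of two rotations. -/
def mbC (xi u v : ℝ) : ℕ → MBJ
  | 0 => ⟨u, u * v - 1, 1, v, 1, u + v, 0, 1⟩
  | 1 => ⟨xi, 0, 0, xi⁻¹, 0, 0, 0, 0⟩
  | (i + 2) => mul (inv (mbC xi u v (i + 1))) (mbC xi u v i)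

theorem mbC_det (xi u v : ℝ) (hxi : xi ≠ 0) :
    ∀ i, (mbC xi u v i).det = 1 ∧ (mbC xi u v i).ddet = 0
  | 0 => by
    constructor
    · simp only [mbC, det]; ring
    · simp only [mbC, ddet]; ring
  | 1 => by
    constructor
    · simp only [mbC, det]; field_simp; simp
    · simp only [mbC, ddet]; ring
  | (i + 2) => by
    have h1 := mbC_det xi u v hxi i
    have h2 := mbC_det xi u v hxi (i + 1)
    rw [mbC, det_mul, ddet_mul, det_inv, ddet_inv, h1.1, h1.2, h2.1, h2.2]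
    norm_num

theorem mbC_F (xi u v : ℝ) (hxi : xi ≠ 0) (i : ℕ) (w1 w2 : ℝ) :
    (mbC xi u v (i + 2)).F w1 w2 =
      - (mbC xi u v (i + 1)).F ((mbC xi u v (i + 1)).d * w1 - (mbC xi u v (i + 1)).c * w2)
          (-(mbC xi u v (i + 1)).b * w1 + (mbC xi u v (i + 1)).a * w2) +
      (mbC xi u v i).F ((mbC xi u v (i + 1)).d * w1 - (mbC xi u v (i + 1)).c * w2)
          (-(mbC xi u v (i + 1)).b * w1 + (mbC xi u v (i + 1)).a * w2) := by
  have h1 := mbC_det xi u v hxi i
  have h2 := mbC_det xi u v hxi (i + 1)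
  rw [mbC, F_mul, h1.1, one_mul, F_inv _ h2.1 h2.2]
  congr 2
  simp only [inv]; ring

theorem mbC_F_nonneg (xi u v : ℝ) (hxi : xi ≠ 0) :
    ∀ i w1 w2, 0 ≤ (-1 : ℝ) ^ i * (mbC xi u v i).F w1 w2
  | 0, w1, w2 => by
    have : (-1 : ℝ) ^ 0 * (mbC xi u v 0).F w1 w2 = w1 ^ 2 + (u * w1 + w2) ^ 2 := by
      simp only [mbC, F]; ring
    rw [this]; positivity
  | 1, w1, w2 => by
    have : (-1 : ℝ) ^ 1 * (mbC xi u v 1).F w1 w2 = 0 := by
      simp only [mbC, F]; ring
    rw [this]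
  | (i + 2), w1, w2 => by
    rw [mbC_F xi u v hxi]
    have h1 := mbC_F_nonneg xi u v hxi i
      ((mbC xi u v (i + 1)).d * w1 - (mbC xi u v (i + 1)).c * w2)
      (-(mbC xi u v (i + 1)).b * w1 + (mbC xi u v (i + 1)).a * w2)
    have h2 := mbC_F_nonneg xi u v hxi (i + 1)
      ((mbC xi u v (i + 1)).d * w1 - (mbC xi u v (i + 1)).c * w2)
      (-(mbC xi u v (i + 1)).b * w1 + (mbC xi u v (i + 1)).a * w2)
    rw [pow_succ] at h2
    rw [show (-1 : ℝ) ^ (i + 2) = (-1 : ℝ) ^ i by rw [pow_add]; norm_num]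
    linarith

theorem mbC_ne (xi u v : ℝ) (hxi : xi ≠ 0) (i : ℕ) (w1 w2 : ℝ)
    (h : (w1, w2) ≠ ((0 : ℝ), (0 : ℝ))) :
    (((mbC xi u v i).d * w1 - (mbC xi u v i).c * w2),
      (-(mbC xi u v i).b * w1 + (mbC xi u v i).a * w2)) ≠ ((0 : ℝ), (0 : ℝ)) := by
  intro h0
  rw [Prod.mk.injEq] at h0
  have hd := (mbC_det xi u v hxi i).1
  unfold det at hd
  apply h
  rw [Prod.mk.injEq]
  constructor
  · linear_combination (-w1) * hd + (mbC xi u v i).a * h0.1 + (mbC xi u v i).c * h0.2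
  · linear_combination (-w2) * hd + (mbC xi u v i).b * h0.1 + (mbC xi u v i).d * h0.2

theorem mbC_F_pos (xi u v : ℝ) (hxi : xi ≠ 0) :
    ∀ i w1 w2, (w1, w2) ≠ ((0 : ℝ), (0 : ℝ)) → 0 < (-1 : ℝ) ^ i * (mbC xi u v (i + 2)).F w1 w2
  | 0, w1, w2, h => by
    rw [mbC_F xi u v hxi]
    have h1 := mbC_F_nonneg xi u v hxi (0 + 1)
      ((mbC xi u v (0 + 1)).d * w1 - (mbC xi u v (0 + 1)).c * w2)
      (-(mbC xi u v (0 + 1)).b * w1 + (mbC xi u v (0 + 1)).a * w2)
    have hne := mbC_ne xi u v hxi (0 + 1) w1 w2 h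
    set z1 := (mbC xi u v (0 + 1)).d * w1 - (mbC xi u v (0 + 1)).c * w2
    set z2 := -(mbC xi u v (0 + 1)).b * w1 + (mbC xi u v (0 + 1)).a * w2
    have h2 : (mbC xi u v 0).F z1 z2 = z1 ^ 2 + (u * z1 + z2) ^ 2 := by
      simp only [mbC, F]; ring
    rw [h2]
    have h3 : 0 < z1 ^ 2 + (u * z1 + z2) ^ 2 := by
      by_cases hz : z1 = 0
      · have hz2 : z2 ≠ 0 := fun hz2 => hne (by rw [hz, hz2])
        rw [hz, show (0 : ℝ) ^ 2 + (u * 0 + z2) ^ 2 = z2 ^ 2 by ring]
        positivity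
      · positivity
    rw [pow_succ, pow_zero] at h1
    rw [pow_zero]
    linarith
  | (i + 1), w1, w2, h => by
    rw [mbC_F xi u v hxi]
    have hne := mbC_ne xi u v hxi (i + 1 + 1) w1 w2 h
    have h1 := mbC_F_nonneg xi u v hxi (i + 1)
      ((mbC xi u v (i + 1 + 1)).d * w1 - (mbC xi u v (i + 1 + 1)).c * w2)
      (-(mbC xi u v (i + 1 + 1)).b * w1 + (mbC xi u v (i + 1 + 1)).a * w2)
    have h2 := mbC_F_pos xi u v hxi i _ _ hne
    rw [pow_succ] at h1 ⊢
    have e : i + 1 + 1 = i + 2 := rfl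
    rw [e] at *
    linarith

theorem mb_tr_rec (Q P : MBJ) : (mul (inv (mul (inv Q) P)) Q).tr =
    Q.tr * (mul (inv Q) P).tr - Q.det * P.tr := by
  simp only [tr, det, mul, inv]; ring

theorem mb_dtr_rec (Q P : MBJ) : (mul (inv (mul (inv Q) P)) Q).dtr =
    Q.dtr * (mul (inv Q) P).tr + Q.tr * (mul (inv Q) P).dtr - Q.ddet * P.tr
      - Q.det * P.dtr := by
  simp only [tr, dtr, det, ddet, mul, inv]; ring

theorem mbC_tr (xi u v : ℝ) (hxi : xi ≠ 0) (i : ℕ) :
    (mbC xi u v (i + 3)).tr = (mbC xi u v (i + 1)).tr * (mbC xi u v (i + 2)).tr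
      - (mbC xi u v i).tr ∧
    (mbC xi u v (i + 3)).dtr = (mbC xi u v (i + 1)).dtr * (mbC xi u v (i + 2)).tr
      + (mbC xi u v (i + 1)).tr * (mbC xi u v (i + 2)).dtr - (mbC xi u v i).dtr := by
  have e : mbC xi u v (i + 3) =
      mul (inv (mul (inv (mbC xi u v (i + 1))) (mbC xi u v i))) (mbC xi u v (i + 1)) := rfl
  have e2 : mul (inv (mbC xi u v (i + 1))) (mbC xi u v i) = mbC xi u v (i + 2) := rfl
  have hd := mbC_det xi u v hxi (i + 1)
  rw [e, mb_tr_rec, mb_dtr_rec, e2, hd.1, hd.2]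
  constructor <;> ring

/-- A directional derivative of the trace polynomials. -/
def mbD (lam E c1 c2 : ℝ) (j : ℕ) : ℝ :=
  c1 * (derivative (tp lam j)).eval E + c2 * (dp lam j).eval E

theorem mbD_rec (lam E c1 c2 : ℝ) (j : ℕ) : mbD lam E c1 c2 (j + 3) =
    mbD lam E c1 c2 (j + 2) * (tp lam (j + 1)).eval E
      + (tp lam (j + 2)).eval E * mbD lam E c1 c2 (j + 1) - mbD lam E c1 c2 j := by
  simp only [mbD, tp, dp, derivative_sub, derivative_mul, eval_sub, eval_mul, eval_add]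
  ring

theorem mbD_zero (lam E c1 c2 : ℝ) : ∀ m, mbD lam E c1 c2 m = 0 → mbD lam E c1 c2 (m + 1) = 0 →
    mbD lam E c1 c2 (m + 2) = 0 → c1 = 0 ∧ c2 = 0
  | 0, _, h1, h2 => by
    simp only [mbD, zero_add, tp, dp, derivative_X, eval_one, eval_zero, mul_one, mul_zero,
      add_zero] at h1
    simp only [mbD, zero_add, tp, dp, derivative_sub, derivative_X, derivative_C, sub_zero,
      eval_one, eval_neg] at h2
    exact ⟨h1, by linarith⟩
  | (m + 1), h0, h1, h2 => by
    have h3 := mbD_rec lam E c1 c2 m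
    have e1 : m + 1 + 2 = m + 3 := by ring
    have e2 : m + 1 + 1 = m + 2 := by ring
    rw [e1] at h2
    rw [e2] at h1
    rw [h2, h1, h0] at h3
    exact mbD_zero lam E c1 c2 m (by linarith) h0 h1

theorem dp_ne_of_crit (lam E : ℝ) (hl : lam ≠ 0) (k : ℕ) (hk : 1 ≤ k)
    (h : (derivative (tp lam k)).eval E = 0) : (dp lam k).eval E ≠ 0 := by
  intro hdp
  have hk3 : 3 ≤ k := by
    by_contra hk3
    have : k = 1 ∨ k = 2 := by omega
    rcases this with rfl | rfl
    · simp [tp] at h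
    · simp [tp] at h
  obtain ⟨m, rfl⟩ : ∃ m, k = m + 1 := ⟨k - 1, by omega⟩
  have habs : 2 < |(tp lam (m + 1)).eval E| := by
    by_contra hcon
    push Not at hcon
    exact deriv_ne_of_le lam E hl (m + 1) hk hcon h
  -- the direction
  have hDk : ∀ c1 c2, mbD lam E c1 c2 (m + 1) = 0 := by
    intro c1 c2
    simp only [mbD, h, hdp]; ring
  set x1 := (derivative (tp lam m)).eval E with hx1
  set x2 := (dp lam m).eval E with hx2
  set y1 := (derivative (tp lam (m + 2))).eval E with hy1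
  set y2 := (dp lam (m + 2)).eval E with hy2
  have hker : ∀ c1 c2, c1 * x1 + c2 * x2 = 0 → c1 * y1 + c2 * y2 = 0 → c1 = 0 ∧ c2 = 0 :=
    fun c1 c2 e1 e2 => mbD_zero lam E c1 c2 m e1 (hDk c1 c2) e2
  have hΔ : x1 * y2 - x2 * y1 ≠ 0 := by
    intro hΔ
    have a1 := hker x2 (-x1) (by ring) (by linarith)
    have a2 := hker y2 (-y1) (by rw [a1.1]; have := a1.2; rw [neg_eq_zero] at this; rw [this]; ring)
      (by ring)
    have b1 : x1 = 0 := neg_eq_zero.1 a1.2
    have b2 : y1 = 0 := neg_eq_zero.1 a2.2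
    have a3 := hker 1 0 (by rw [b1]; ring) (by rw [b2]; ring)
    exact one_ne_zero a3.1
  obtain ⟨c1, c2, hc1, hc2⟩ : ∃ c1 c2, c1 * x1 + c2 * x2 = (tp lam (m + 1)).eval E ∧
      c1 * y1 + c2 * y2 = 2 := by
    refine ⟨((tp lam (m + 1)).eval E * y2 - 2 * x2) / (x1 * y2 - x2 * y1),
      (2 * x1 - (tp lam (m + 1)).eval E * y1) / (x1 * y2 - x2 * y1), ?_, ?_⟩
    · rw [div_mul_eq_mul_div, div_mul_eq_mul_div, ← add_div, div_eq_iff hΔ]; ring
    · rw [div_mul_eq_mul_div, div_mul_eq_mul_div, ← add_div, div_eq_iff hΔ]; ring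
  set s := (tp lam (m + 1)).eval E with hs
  -- the parameters of the model
  have hs4 : 0 < s ^ 2 - 4 := by
    have := pow_lt_pow_left₀ habs (by norm_num) (two_ne_zero)
    rw [sq_abs] at this
    linarith
  obtain ⟨xi, hxi⟩ : ∃ xi : ℝ, xi ^ 2 - s * xi + 1 = 0 := by
    refine ⟨(s + Real.sqrt (s ^ 2 - 4)) / 2, ?_⟩
    have := Real.sq_sqrt hs4.le
    linear_combination this / 4
  have hxi0 : xi ≠ 0 := by
    intro h0
    rw [h0] at hxi
    norm_num at hxi
  have hxis : xi + xi⁻¹ = s := by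
    field_simp
    linarith
  have hxi1 : xi - xi⁻¹ ≠ 0 := by
    intro h0
    have h1 : (xi + xi⁻¹) ^ 2 = 4 := by
      have h2 : xi * xi⁻¹ = 1 := mul_inv_cancel₀ hxi0
      linear_combination (xi - xi⁻¹) * h0 + 4 * h2
    rw [hxis] at h1
    linarith
  obtain ⟨u, v, huv, hR⟩ : ∃ u v : ℝ, u + v = (tp lam (m + 2)).eval E ∧
      xi⁻¹ * u + xi * v = (tp lam m).eval E := by
    refine ⟨(xi * (tp lam (m + 2)).eval E - (tp lam m).eval E) / (xi - xi⁻¹),
      ((tp lam m).eval E - xi⁻¹ * (tp lam (m + 2)).eval E) / (xi - xi⁻¹), ?_, ?_⟩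
    · rw [← add_div, div_eq_iff hxi1]; ring
    · rw [mul_div_assoc', mul_div_assoc', ← add_div, div_eq_iff hxi1]; ring
  -- the traces of the reversed sequence
  have hmain : ∀ i, i ≤ m →
      ((mbC xi u v i).tr = (tp lam (m + 2 - i)).eval E ∧
        (mbC xi u v i).dtr = mbD lam E c1 c2 (m + 2 - i)) ∧
      ((mbC xi u v (i + 1)).tr = (tp lam (m + 1 - i)).eval E ∧
        (mbC xi u v (i + 1)).dtr = mbD lam E c1 c2 (m + 1 - i)) ∧
      ((mbC xi u v (i + 2)).tr = (tp lam (m - i)).eval E ∧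
        (mbC xi u v (i + 2)).dtr = mbD lam E c1 c2 (m - i)) := by
    intro i
    induction i with
    | zero =>
      intro _
      refine ⟨⟨?_, ?_⟩, ⟨?_, ?_⟩, ⟨?_, ?_⟩⟩
      · simp only [mbC, tr, Nat.sub_zero]; exact huv
      · simp only [mbC, dtr, Nat.sub_zero]
        have : mbD lam E c1 c2 (m + 2) = 2 := hc2
        rw [this]; norm_num
      · simp only [mbC, tr, Nat.sub_zero]; exact hxis
      · simp only [mbC, dtr, Nat.sub_zero]
        rw [hDk]; norm_num
      · simp only [mbC, tr, mul, inv, Nat.sub_zero, zero_add]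
        rw [← hR]; ring
      · simp only [mbC, dtr, mul, inv, Nat.sub_zero, zero_add]
        have : mbD lam E c1 c2 m = s := hc1
        rw [this, ← hxis]; ring
    | succ i ih =>
      intro hi
      obtain ⟨⟨a1, a2⟩, ⟨b1, b2⟩, ⟨d1, d2⟩⟩ := ih (by omega)
      have e1 : m + 2 - (i + 1) = m + 1 - i := by omega
      have e2 : m + 1 - (i + 1) = m - i := by omega
      refine ⟨⟨by rw [e1]; exact b1, by rw [e1]; exact b2⟩,
        ⟨by rw [e2]; exact d1, by rw [e2]; exact d2⟩, ?_⟩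
      have h3 := mbC_tr xi u v hxi0 i
      have e3 : i + 1 + 2 = i + 3 := by ring
      rw [e3, h3.1, h3.2, a1, a2, b1, b2, d1, d2]
      obtain ⟨j, hj⟩ : ∃ j, m - (i + 1) = j := ⟨_, rfl⟩
      have f0 : m + 2 - i = j + 3 := by omega
      have f1 : m + 1 - i = j + 2 := by omega
      have f2 : m - i = j + 1 := by omega
      rw [hj, f0, f1, f2]
      constructor
      · rw [tp]; simp
      · have := mbD_rec lam E c1 c2 j
        rw [this]; ring
  have hlast := hmain m le_rfl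
  obtain ⟨⟨a1, -⟩, ⟨b1, -⟩, ⟨d1, d2⟩⟩ := hlast
  have e1 : m + 2 - m = 2 := by omega
  have e2 : m + 1 - m = 1 := by omega
  have e3 : m - m = 0 := by omega
  rw [e1] at a1
  rw [e2] at b1
  rw [e3] at d1 d2
  have hd0 : mbD lam E c1 c2 0 = 0 := by simp [mbD, tp, dp]
  have ht0 : (tp lam 0).eval E = 2 := by simp [tp]
  rw [hd0] at d2
  rw [ht0] at d1
  obtain ⟨hb, hc, had⟩ := mb_key (mbC xi u v (m + 2)) ((-1) ^ m) (neg_one_pow_eq_or ℝ m)
    (mbC_det xi u v hxi0 _).1 (mbC_det xi u v hxi0 _).2 (mbC_F_pos xi u v hxi0 m)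
    (by rw [d1]; norm_num) d2
  -- the last matrix is the identity
  have hd1 : (mbC xi u v (m + 2)).d = 1 := by
    unfold tr at d1
    linarith
  have ha1 : (mbC xi u v (m + 2)).a = 1 := by rw [had, hd1]
  have hdet := (mbC_det xi u v hxi0 (m + 1)).1
  have eC : mbC xi u v (m + 2) = mul (inv (mbC xi u v (m + 1))) (mbC xi u v m) := rfl
  rw [eC] at hb hc hd1 ha1
  simp only [mul, inv] at hb hc hd1 ha1
  unfold det at hdet
  unfold tr at a1 b1
  have hfin : (tp lam 2).eval E = (tp lam 1).eval E := by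
    rw [← a1, ← b1]
    have g1 : (mbC xi u v m).a = (mbC xi u v (m + 1)).a := by
      linear_combination (-(mbC xi u v m).a) * hdet + (mbC xi u v (m + 1)).a * ha1 +
        (mbC xi u v (m + 1)).b * hc
    have g2 : (mbC xi u v m).d = (mbC xi u v (m + 1)).d := by
      linear_combination (-(mbC xi u v m).d) * hdet + (mbC xi u v (m + 1)).c * hb +
        (mbC xi u v (m + 1)).d * hd1
    rw [g1, g2]
  simp only [tp, eval_sub, eval_X, eval_C] at hfin
  exact hl (by linarith)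

end Pool.Agent.H22.Fib
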