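import Pool.Agent.H22.Fib.Defs

/-!
Module C: sorted roots.
-/

set_option autoImplicit false

noncomputable section

open Polynomial Filter Topology

namespace Pool.Agent.H22.Fib

theorem modC_srt_eq {p : Polynomial ℝ} {n i : ℕ} (h : p.roots.toFinset.card = n) (hi : i < n) :
    srt p i = p.roots.toFinset.orderEmbOfFin h ⟨i, hi⟩ := by
  unfold srt
  rw [Finset.orderEmbOfFin_apply]
  have hl : i < (p.roots.toFinset.sort).length := by
    rw [Finset.length_sort, h]; exact hi
  rw [List.getD_eq_getElem _ _ hl]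
  rfl

theorem modC_srt_mem {p : Polynomial ℝ} {n i : ℕ} (h : p.roots.toFinset.card = n) (hi : i < n) :
    srt p i ∈ p.roots.toFinset := by
  rw [modC_srt_eq h hi]
  exact Finset.orderEmbOfFin_mem _ _ _

theorem srt_isRoot {p : Polynomial ℝ} {n i : ℕ} (h : p.roots.toFinset.card = n) (hi : i < n) :
    p.eval (srt p i) = 0 := by
  have := modC_srt_mem h hi
  rw [Multiset.mem_toFinset] at this
  exact (mem_roots'.1 this).2

theorem srt_lt {p : Polynomial ℝ} {n i j : ℕ} (h : p.roots.toFinset.card = n) (hj : j < n)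
    (hij : i < j) : srt p i < srt p j := by
  rw [modC_srt_eq h hj, modC_srt_eq h (hij.trans hj)]
  exact (p.roots.toFinset.orderEmbOfFin h).strictMono (by simpa using hij)

theorem exists_srt {p : Polynomial ℝ} {n : ℕ} (h : p.roots.toFinset.card = n) (hp : p ≠ 0)
    {E : ℝ} (hE : p.eval E = 0) : ∃ i < n, srt p i = E := by
  have hm : E ∈ p.roots.toFinset := by
    rw [Multiset.mem_toFinset]
    exact mem_roots'.2 ⟨hp, hE⟩
  have : E ∈ Set.range (p.roots.toFinset.orderEmbOfFin h) := by
    rw [Finset.range_orderEmbOfFin]; exact hm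
  obtain ⟨i, hi⟩ := this
  exact ⟨i, i.2, by rw [modC_srt_eq h i.2, ← hi]⟩

theorem srt_unique {p : Polynomial ℝ} {n : ℕ} (h : p.roots.toFinset.card = n) (hp : p ≠ 0)
    (x : ℕ → ℝ) (hx : ∀ i < n, p.eval (x i) = 0) (hmono : ∀ i j, i < j → j < n → x i < x j) :
    ∀ i < n, srt p i = x i := by
  intro i hi
  have := Finset.orderEmbOfFin_unique h (f := fun i : Fin n => x i) (fun j => by
    rw [Multiset.mem_toFinset]
    exact mem_roots'.2 ⟨hp, hx j j.2⟩) (fun a b hab => hmono a b hab b.2)
  rw [modC_srt_eq h hi, ← this]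

theorem card_roots_of_seq {p : Polynomial ℝ} {n : ℕ} (hp : p ≠ 0) (hd : p.natDegree ≤ n)
    (x : ℕ → ℝ) (hx : ∀ i < n, p.eval (x i) = 0) (hmono : ∀ i j, i < j → j < n → x i < x j) :
    p.roots.toFinset.card = n := by
  refine le_antisymm ?_ ?_
  · exact ((Multiset.toFinset_card_le _).trans (card_roots' p)).trans hd
  · have hinj : Set.InjOn x (Finset.range n) := by
      intro a ha b hb hab
      simp only [Finset.coe_range, Set.mem_Iio] at ha hb
      rcases lt_trichotomy a b with hlt | heq | hgt
      · exact absurd hab (hmono a b hlt hb).ne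
      · exact heq
      · exact absurd hab (hmono b a hgt ha).ne'
    have : (Finset.range n).image x ⊆ p.roots.toFinset := by
      intro y hy
      rw [Finset.mem_image] at hy
      obtain ⟨i, hi, rfl⟩ := hy
      rw [Multiset.mem_toFinset]
      exact mem_roots'.2 ⟨hp, hx i (Finset.mem_range.1 hi)⟩
    calc n = ((Finset.range n).image x).card := by
          rw [Finset.card_image_of_injOn hinj, Finset.card_range]
      _ ≤ _ := Finset.card_le_card this

theorem modC_lt_iff {p : Polynomial ℝ} {n i j : ℕ} (h : p.roots.toFinset.card = n) (hi : i < n)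
    (hj : j < n) : srt p i < srt p j ↔ i < j := by
  rw [modC_srt_eq h hj, modC_srt_eq h hi]
  rw [(p.roots.toFinset.orderEmbOfFin h).lt_iff_lt]
  simp

theorem srt_lt_iff {p : Polynomial ℝ} {n i : ℕ} (h : p.roots.toFinset.card = n) (hi : i < n)
    (E : ℝ) : srt p i < E ↔ i < (p.roots.toFinset.filter (fun x => x < E)).card := by
  -- the filter is the image of an initial segment
  constructor
  · intro hE
    have hsub : (Finset.range (i + 1)).image (srt p) ⊆
        p.roots.toFinset.filter (fun x => x < E) := by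
      intro y hy
      rw [Finset.mem_image] at hy
      obtain ⟨a, ha, rfl⟩ := hy
      rw [Finset.mem_range] at ha
      rw [Finset.mem_filter]
      refine ⟨modC_srt_mem h (by omega), ?_⟩
      rcases Nat.lt_or_ge a i with hlt | hge
      · exact (srt_lt h hi hlt).trans hE
      · have : a = i := by omega
        rw [this]; exact hE
    have hcard : ((Finset.range (i + 1)).image (srt p)).card = i + 1 := by
      rw [Finset.card_image_of_injOn, Finset.card_range]
      intro a ha b hb hab
      simp only [Finset.coe_range, Set.mem_Iio] at ha hb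
      rcases lt_trichotomy a b with hlt | heq | hgt
      · exact absurd hab (srt_lt h (by omega) hlt).ne
      · exact heq
      · exact absurd hab (srt_lt h (by omega) hgt).ne'
    have := Finset.card_le_card hsub
    omega
  · intro hc
    by_contra hE
    push Not at hE
    have hsub : p.roots.toFinset.filter (fun x => x < E) ⊆ (Finset.range i).image (srt p) := by
      intro y hy
      rw [Finset.mem_filter, Multiset.mem_toFinset] at hy
      obtain ⟨hy1, hy2⟩ := hy
      obtain ⟨a, ha, rfl⟩ := exists_srt h (mem_roots'.1 hy1).1 (mem_roots'.1 hy1).2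
      rw [Finset.mem_image]
      refine ⟨a, ?_, rfl⟩
      rw [Finset.mem_range]
      exact (modC_lt_iff h ha hi).1 (hy2.trans_le hE)
    have h1 := Finset.card_le_card hsub
    have h2 : ((Finset.range i).image (srt p)).card ≤ i := by
      simpa using Finset.card_image_le (s := Finset.range i) (f := srt p)
    omega

theorem eq_prod_srt {p : Polynomial ℝ} {n : ℕ} (h : p.roots.toFinset.card = n)
    (hd : p.natDegree = n) :
    p = C p.leadingCoeff * ∏ i ∈ Finset.range n, (X - C (srt p i)) := by
  have h1 : Multiset.card p.roots = n := by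
    refine le_antisymm ?_ ?_
    · rw [← hd]; exact card_roots' p
    · rw [← h]; exact Multiset.toFinset_card_le _
  have hnodup : p.roots.Nodup := by
    have : p.roots.toFinset.card = Multiset.card p.roots := by rw [h, h1]
    exact (Multiset.toFinset_card_eq_card_iff_nodup).1 this
  have h2 : C p.leadingCoeff * (p.roots.map fun a => X - C a).prod = p :=
    C_leadingCoeff_mul_prod_multiset_X_sub_C (by rw [h1, hd])
  have h3 : p.roots = (Finset.range n).val.map (srt p) := by
    have hinj : Set.InjOn (srt p) (Finset.range n) := by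
      intro a ha b hb hab
      simp only [Finset.coe_range, Set.mem_Iio] at ha hb
      rcases lt_trichotomy a b with hlt | heq | hgt
      · exact absurd hab (srt_lt h (by omega) hlt).ne
      · exact heq
      · exact absurd hab (srt_lt h (by omega) hgt).ne'
    have himg : (Finset.range n).image (srt p) = p.roots.toFinset := by
      refine Finset.eq_of_subset_of_card_le ?_ ?_
      · intro y hy
        rw [Finset.mem_image] at hy
        obtain ⟨i, hi, rfl⟩ := hy
        exact modC_srt_mem h (Finset.mem_range.1 hi)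
      · rw [Finset.card_image_of_injOn hinj, Finset.card_range, h]
    rw [← Finset.image_val_of_injOn hinj, himg, Multiset.toFinset_val, hnodup.dedup]
  conv_lhs => rw [← h2]
  congr 1
  rw [h3]
  rw [Multiset.map_map]
  rfl


theorem modC_sign {p : Polynomial ℝ} {n : ℕ} (h : p.roots.toFinset.card = n)
    (hd : p.natDegree = n) (hp : p ≠ 0) {i : ℕ} (hi : i < n) {d : ℝ} (hd0 : 0 < d)
    (hgap : ∀ j < n, j ≠ i → d < |srt p i - srt p j|) :
    p.eval (srt p i + d) * p.eval (srt p i - d) < 0 := by
  have hev : ∀ E, p.eval E = p.leadingCoeff * ∏ j ∈ Finset.range n, (E - srt p j) := by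
    intro E
    conv_lhs => rw [eq_prod_srt h hd]
    simp [eval_prod]
  have hlc : 0 < p.leadingCoeff ^ 2 := by
    have : p.leadingCoeff ≠ 0 := leadingCoeff_ne_zero.2 hp
    positivity
  have h1 : p.eval (srt p i + d) * p.eval (srt p i - d) =
      p.leadingCoeff ^ 2 * ∏ j ∈ Finset.range n, ((srt p i - srt p j) ^ 2 - d ^ 2) := by
    have h2 : ∏ j ∈ Finset.range n, ((srt p i - srt p j) ^ 2 - d ^ 2) =
        (∏ j ∈ Finset.range n, (srt p i + d - srt p j)) *
          ∏ j ∈ Finset.range n, (srt p i - d - srt p j) := by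
      rw [← Finset.prod_mul_distrib]
      refine Finset.prod_congr rfl (fun j _ => by ring)
    rw [hev, hev, h2]
    ring
  rw [h1]
  have h3 : ∏ j ∈ Finset.range n, ((srt p i - srt p j) ^ 2 - d ^ 2) < 0 := by
    rw [← Finset.mul_prod_erase _ _ (Finset.mem_range.2 hi)]
    refine mul_neg_of_neg_of_pos ?_ ?_
    · simp; positivity
    · refine Finset.prod_pos (fun j hj => ?_)
      rw [Finset.mem_erase, Finset.mem_range] at hj
      have h4 := hgap j hj.2 hj.1
      have h5 : d ^ 2 < (srt p i - srt p j) ^ 2 := by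
        rw [← sq_abs (srt p i - srt p j)]
        exact pow_lt_pow_left₀ h4 hd0.le (by norm_num)
      linarith
  exact mul_neg_of_pos_of_neg hlc h3

theorem modC_ivt (p : Polynomial ℝ) (a b : ℝ) (hab : a < b) (h : p.eval b * p.eval a < 0) :
    ∃ y, a < y ∧ y < b ∧ p.eval y = 0 := by
  have hc : ContinuousOn (fun x => p.eval x) (Set.Icc a b) := p.continuous.continuousOn
  rcases lt_or_ge (p.eval a) 0 with ha | ha
  · have hb : 0 < p.eval b := by
      by_contra hb
      push Not at hb
      nlinarith
    obtain ⟨y, hy, hy0⟩ := intermediate_value_Ioo hab.le hc ⟨ha, hb⟩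
    exact ⟨y, hy.1, hy.2, hy0⟩
  · have ha' : 0 < p.eval a := lt_of_le_of_ne ha (by
      intro h0
      rw [← h0] at h
      simp at h)
    have hb : p.eval b < 0 := by
      by_contra hb
      push Not at hb
      nlinarith
    obtain ⟨y, hy, hy0⟩ := intermediate_value_Ioo' hab.le hc ⟨hb, ha'⟩
    exact ⟨y, hy.1, hy.2, hy0⟩

/-- Persistence of the roots: near `l0` (where `P l0` has `n` simple roots and degree `n`), there
are `n` increasing roots of `P l`, close to the roots of `P l0`. -/
theorem modC_persist (P : ℝ → Polynomial ℝ) (n : ℕ)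
    (hc : Continuous fun x : ℝ × ℝ => (P x.1).eval x.2) (l0 : ℝ)
    (hcard : (P l0).roots.toFinset.card = n) (hdeg : (P l0).natDegree = n) (hp : P l0 ≠ 0)
    (e : ℝ) (he : 0 < e) :
    ∀ᶠ l in 𝓝 l0, ∃ y : ℕ → ℝ, (∀ i < n, (P l).eval (y i) = 0) ∧
      (∀ i j, i < j → j < n → y i < y j) ∧ ∀ i < n, |y i - srt (P l0) i| < e := by
  -- choose the radius
  have h1 : ∀ᶠ d in 𝓝[>] (0 : ℝ), d < e ∧ 0 < d ∧
      ∀ i ∈ Finset.range n, ∀ j ∈ Finset.range n, i < j → 2 * d < srt (P l0) j - srt (P l0) i := by
    refine Eventually.and ?_ (Eventually.and ?_ ?_)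
    · exact eventually_nhdsWithin_of_eventually_nhds (eventually_lt_nhds he)
    · exact eventually_mem_nhdsWithin
    · rw [Filter.eventually_all_finset]
      intro i hi
      rw [Filter.eventually_all_finset]
      intro j hj
      rw [Finset.mem_range] at hi hj
      by_cases hij : i < j
      · have hpos : 0 < srt (P l0) j - srt (P l0) i := sub_pos.2 (srt_lt hcard hj hij)
        refine eventually_nhdsWithin_of_eventually_nhds ?_
        have : Tendsto (fun d : ℝ => 2 * d) (𝓝 0) (𝓝 (2 * 0)) := by
          exact (continuous_const.mul continuous_id).tendsto 0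
        rw [mul_zero] at this
        exact (this.eventually (eventually_lt_nhds hpos)).mono (fun d hd _ => hd)
      · exact Eventually.of_forall (fun d h => absurd h hij)
  obtain ⟨d, hde, hd0, hgap⟩ := h1.exists
  have hgap' : ∀ i < n, ∀ j < n, i < j → 2 * d < srt (P l0) j - srt (P l0) i := fun i hi j hj =>
    hgap i (Finset.mem_range.2 hi) j (Finset.mem_range.2 hj)
  have hsign : ∀ i < n, (P l0).eval (srt (P l0) i + d) * (P l0).eval (srt (P l0) i - d) < 0 := by
    intro i hi
    refine modC_sign hcard hdeg hp hi hd0 (fun j hj hji => ?_)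
    rcases lt_or_gt_of_ne hji with hlt | hgt
    · have := hgap' j hj i hi hlt
      rw [abs_of_pos (by linarith)]
      linarith
    · have := hgap' i hi j hj hgt
      rw [abs_of_neg (by linarith)]
      linarith
  have hev : ∀ᶠ l in 𝓝 l0, ∀ i ∈ Finset.range n,
      (P l).eval (srt (P l0) i + d) * (P l).eval (srt (P l0) i - d) < 0 := by
    rw [Filter.eventually_all_finset]
    intro i hi
    rw [Finset.mem_range] at hi
    have hcont : Continuous fun l : ℝ =>
        (P l).eval (srt (P l0) i + d) * (P l).eval (srt (P l0) i - d) :=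
      (hc.comp (continuous_id.prodMk continuous_const)).mul
        (hc.comp (continuous_id.prodMk continuous_const))
    exact (hcont.tendsto l0).eventually (eventually_lt_nhds (hsign i hi))
  filter_upwards [hev] with l hl
  have hex : ∀ i, ∃ y, i < n → (srt (P l0) i - d < y ∧ y < srt (P l0) i + d ∧ (P l).eval y = 0) := by
    intro i
    by_cases hi : i < n
    · obtain ⟨y, hy⟩ := modC_ivt (P l) (srt (P l0) i - d) (srt (P l0) i + d) (by linarith)
        (hl i (Finset.mem_range.2 hi))
      exact ⟨y, fun _ => hy⟩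
    · exact ⟨0, fun h => absurd h hi⟩
  choose y hy using hex
  refine ⟨y, fun i hi => (hy i hi).2.2, fun i j hij hj => ?_, fun i hi => ?_⟩
  · have hi : i < n := hij.trans hj
    have h1 := hy i hi
    have h2 := hy j hj
    have h3 := hgap' i hi j hj hij
    linarith [h1.2.1, h2.1]
  · have h1 := hy i hi
    rw [abs_lt]
    constructor <;> linarith [h1.1, h1.2.1]

theorem srt_continuousOn (P : ℝ → Polynomial ℝ) (n : ℕ) (I : Set ℝ)
    (hc : Continuous fun x : ℝ × ℝ => (P x.1).eval x.2)
    (hcard : ∀ l ∈ I, (P l).roots.toFinset.card = n)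
    (hdeg : ∀ l ∈ I, (P l).natDegree = n) (i : ℕ) (hi : i < n) :
    ContinuousOn (fun l => srt (P l) i) I := by
  intro l0 hl0
  have hne : ∀ l ∈ I, P l ≠ 0 := by
    intro l hl h0
    have := hdeg l hl
    rw [h0] at this
    simp at this
    omega
  rw [ContinuousWithinAt, Metric.tendsto_nhds]
  intro e he
  have h1 := modC_persist P n hc l0 (hcard l0 hl0) (hdeg l0 hl0) (hne l0 hl0) e he
  have h2 : ∀ᶠ l in 𝓝[I] l0, l ∈ I := eventually_mem_nhdsWithin
  filter_upwards [eventually_nhdsWithin_of_eventually_nhds h1, h2] with l hl hlI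
  obtain ⟨y, hy1, hy2, hy3⟩ := hl
  rw [srt_unique (hcard l hlI) (hne l hlI) y hy1 hy2 i hi, Real.dist_eq]
  exact hy3 i hi

theorem hasDerivAt_root (F : ℝ × ℝ → ℝ) (r : ℝ → ℝ) (l0 c Fl FE : ℝ)
    (hF : ContDiffAt ℝ 1 F (l0, r l0))
    (hl : HasDerivAt (fun l => F (l, r l0)) Fl l0)
    (hE : HasDerivAt (fun E => F (l0, E)) FE (r l0))
    (hr : ContinuousAt r l0) (h0 : ∀ᶠ l in 𝓝 l0, F (l, r l) = c) (hFE : FE ≠ 0) :
    HasDerivAt r (-Fl / FE) l0 := by
  have hd : DifferentiableAt ℝ F (l0, r l0) := hF.differentiableAt (by norm_num)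
  obtain ⟨F', hF'⟩ := hd
  -- the partial derivatives
  have e1 : F' (1, 0) = Fl := by
    have h1 : HasDerivAt (fun l : ℝ => ((l, r l0) : ℝ × ℝ)) ((1 : ℝ), (0 : ℝ)) l0 :=
      (hasDerivAt_id l0).prodMk (hasDerivAt_const l0 (r l0))
    have h2 : HasDerivAt (fun l => F (l, r l0)) (F' (1, 0)) l0 :=
      HasFDerivAt.comp_hasDerivAt (x := l0) (f := fun l : ℝ => ((l, r l0) : ℝ × ℝ)) hF' h1
    exact h2.unique hl
  have e2 : F' (0, 1) = FE := by
    have h1 : HasDerivAt (fun E : ℝ => ((l0, E) : ℝ × ℝ)) ((0 : ℝ), (1 : ℝ)) (r l0) :=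
      (hasDerivAt_const (r l0) l0).prodMk (hasDerivAt_id (r l0))
    have h2 : HasDerivAt (fun E => F (l0, E)) (F' (0, 1)) (r l0) :=
      HasFDerivAt.comp_hasDerivAt (x := r l0) (f := fun E : ℝ => ((l0, E) : ℝ × ℝ)) hF' h1
    exact h2.unique hE
  have e3 : ∀ a b : ℝ, F' (a, b) = Fl * a + FE * b := by
    intro a b
    have : ((a, b) : ℝ × ℝ) = a • ((1 : ℝ), (0 : ℝ)) + b • ((0 : ℝ), (1 : ℝ)) := by
      simp
    rw [this, map_add, map_smul, map_smul, e1, e2]
    simp [mul_comm]
  have h00 : F (l0, r l0) = c := h0.self_of_nhds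
  have ht : Tendsto (fun l => ((l, r l) : ℝ × ℝ)) (𝓝 l0) (𝓝 (l0, r l0)) :=
    (continuousAt_id.prodMk hr)
  have hlo := (hasFDerivAt_iff_isLittleO.1 hF').comp_tendsto ht
  have hlo2 : (fun l => Fl * (l - l0) + FE * (r l - r l0)) =o[𝓝 l0]
      fun l => ((l - l0, r l - r l0) : ℝ × ℝ) := by
    refine (hlo.neg_left).congr' ?_ ?_
    · filter_upwards [h0] with l hl
      simp only [Function.comp_apply]
      rw [hl, h00, Prod.mk_sub_mk, e3]
      ring
    · refine Eventually.of_forall (fun l => ?_)
      simp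
  have hFE' : 0 < |FE| := abs_pos.2 hFE
  have hbig : (fun l => r l - r l0) =O[𝓝 l0] fun l => l - l0 := by
    refine Asymptotics.IsBigO.of_bound (2 * (|Fl| + |FE| / 2) / |FE|) ?_
    filter_upwards [hlo2.def (c := |FE| / 2) (by positivity)] with l hl
    simp only [Real.norm_eq_abs, Prod.norm_def] at hl ⊢
    have h1 : max |l - l0| |r l - r l0| ≤ |l - l0| + |r l - r l0| :=
      max_le (by linarith [abs_nonneg (r l - r l0)]) (by linarith [abs_nonneg (l - l0)])
    have h2 : |FE| * |r l - r l0| ≤ |Fl * (l - l0) + FE * (r l - r l0)| + |Fl| * |l - l0| := by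
      rw [← abs_mul, ← abs_mul]
      have : FE * (r l - r l0) = (Fl * (l - l0) + FE * (r l - r l0)) - Fl * (l - l0) := by ring
      calc |FE * (r l - r l0)| = |(Fl * (l - l0) + FE * (r l - r l0)) - Fl * (l - l0)| := by
            rw [← this]
        _ ≤ _ := abs_sub _ _
    have h3 : |FE| * |r l - r l0| ≤ |FE| / 2 * (|l - l0| + |r l - r l0|) + |Fl| * |l - l0| :=
      h2.trans (by
        have := mul_le_mul_of_nonneg_left h1 (by positivity : 0 ≤ |FE| / 2)
        linarith)
    rw [div_mul_eq_mul_div, le_div_iff₀ hFE']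
    nlinarith
  have hpair : (fun l => ((l - l0, r l - r l0) : ℝ × ℝ)) =O[𝓝 l0] fun l => l - l0 :=
    (Asymptotics.isBigO_refl _ _).prod_left hbig
  have hfin : (fun l => Fl * (l - l0) + FE * (r l - r l0)) =o[𝓝 l0] fun l => l - l0 :=
    hlo2.trans_isBigO hpair
  rw [hasDerivAt_iff_isLittleO]
  refine (hfin.const_mul_left (FE⁻¹)).congr' ?_ EventuallyEq.rfl
  refine Eventually.of_forall (fun l => ?_)
  simp only [smul_eq_mul]
  field_simp
  ring

end Pool.Agent.H22.Fib
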