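import Pool.Agent.H22.Fib.ModA
import Pool.Agent.H22.Fib.ModB
import Pool.Agent.H22.Fib.ModC

/-!
Module D: all roots are real and simple.
-/

set_option autoImplicit false

noncomputable section

open Polynomial Filter Topology

namespace Pool.Agent.H22.Fib

/-- The couplings for which the trace polynomial has `fib k` distinct real roots. -/
def modD_S (k : ℕ) : Set ℝ :=
  {lam | ∃ y : ℕ → ℝ, (∀ i < Nat.fib k, (tp lam k).eval (y i) = 0) ∧
    (∀ i j, i < j → j < Nat.fib k → y i < y j)}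

theorem modD_card {k : ℕ} (hk : 1 ≤ k) {lam : ℝ} (h : lam ∈ modD_S k) :
    (tp lam k).roots.toFinset.card = Nat.fib k := by
  obtain ⟨y, hy1, hy2⟩ := h
  exact card_roots_of_seq (tp_monic lam k hk).ne_zero (tp_natDegree lam k hk).le y hy1 hy2

theorem modD_zero {k : ℕ} (hk : 1 ≤ k) : (0 : ℝ) ∈ modD_S k := by
  have hn : 0 < Nat.fib k := Nat.fib_pos.2 (by omega)
  have hn' : (0 : ℝ) < Nat.fib k := by exact_mod_cast hn
  refine ⟨fun i => 2 * Real.cos ((2 * ((Nat.fib k : ℝ) - 1 - i) + 1) * Real.pi / (2 * Nat.fib k)),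
    fun i hi => ?_, fun i j hij hj => ?_⟩
  · rw [tp_cos]
    have : (Nat.fib k : ℝ) * ((2 * ((Nat.fib k : ℝ) - 1 - i) + 1) * Real.pi / (2 * Nat.fib k)) =
        (2 * (((Nat.fib k : ℤ) - 1 - (i : ℤ) : ℤ) : ℝ) + 1) * Real.pi / 2 := by
      push_cast
      field_simp
    rw [this]
    have h0 : Real.cos ((2 * (((Nat.fib k : ℤ) - 1 - (i : ℤ) : ℤ) : ℝ) + 1) * Real.pi / 2) = 0 :=
      Real.cos_eq_zero_iff.2 ⟨_, rfl⟩
    rw [h0, mul_zero]
  · have hi' : (i : ℝ) + 1 ≤ j := by exact_mod_cast hij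
    have hj' : (j : ℝ) + 1 ≤ Nat.fib k := by exact_mod_cast hj
    have hi0 : (0 : ℝ) ≤ i := Nat.cast_nonneg i
    have hpi := Real.pi_pos
    have hlt := Real.cos_lt_cos_of_nonneg_of_le_pi
      (x := (2 * ((Nat.fib k : ℝ) - 1 - j) + 1) * Real.pi / (2 * Nat.fib k))
      (y := (2 * ((Nat.fib k : ℝ) - 1 - i) + 1) * Real.pi / (2 * Nat.fib k)) ?_ ?_ ?_
    · simp only
      linarith
    · apply div_nonneg _ (by positivity)
      apply mul_nonneg _ hpi.le
      linarith
    · rw [div_le_iff₀ (by positivity)]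
      nlinarith
    · rw [div_lt_div_iff_of_pos_right (by positivity)]
      apply mul_lt_mul_of_pos_right _ hpi
      linarith

theorem modD_open {k : ℕ} (hk : 1 ≤ k) : IsOpen (modD_S k) := by
  rw [isOpen_iff_mem_nhds]
  intro l0 hl0
  have := modC_persist (fun l => tp l k) (Nat.fib k) (contDiff_tp k).continuous l0
    (modD_card hk hl0) (tp_natDegree l0 k hk) (tp_monic l0 k hk).ne_zero 1 one_pos
  filter_upwards [this] with l hl
  obtain ⟨y, hy1, hy2, -⟩ := hl
  exact ⟨y, hy1, hy2⟩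

theorem modD_bound (lam E : ℝ) (k : ℕ) (hk : 1 ≤ k) (h : (tp lam k).eval E = 0) :
    |E| ≤ 2 + |lam| := by
  by_contra hE
  push Not at hE
  have h1 : 2 < |(tp lam 1).eval E| := by
    simp only [tp, eval_X]
    have := abs_nonneg lam
    linarith
  have h2 : 2 < |(tp lam (1 + 1)).eval E| := by
    simp only [tp, eval_sub, eval_X, eval_C]
    have := abs_sub_abs_le_abs_sub E lam
    linarith
  have := escape lam E 1 h1 h2 k hk
  rw [h] at this
  simp at this
  linarith

theorem modD_closed {k : ℕ} (hk : 1 ≤ k) : IsClosed (modD_S k) := by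
  refine IsSeqClosed.isClosed ?_
  intro u a hu hua
  -- boundedness of the couplings
  obtain ⟨B, hB⟩ := hua.abs.bddAbove_range
  have hB' : ∀ m, |u m| ≤ B := fun m => hB ⟨m, rfl⟩
  choose y hy1 hy2 using hu
  set n := Nat.fib k with hn
  let Y : ℕ → (Fin n → ℝ) := fun m i => y m i
  have hYbox : ∀ m, Y m ∈ Set.pi Set.univ (fun _ : Fin n => Set.Icc (-(2 + B)) (2 + B)) := by
    intro m i _
    have h1 := modD_bound (u m) (y m i) k hk (hy1 m i i.2)
    have h2 := hB' m
    exact abs_le.1 (h1.trans (by linarith))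
  have hcomp : IsCompact (Set.pi Set.univ (fun _ : Fin n => Set.Icc (-(2 + B)) (2 + B))) :=
    isCompact_univ_pi (fun _ => isCompact_Icc)
  obtain ⟨Z, -, φ, hφ, hZ⟩ := hcomp.tendsto_subseq hYbox
  have hZi : ∀ i : Fin n, Tendsto (fun m => y (φ m) i) atTop (𝓝 (Z i)) := fun i =>
    (tendsto_pi_nhds.1 hZ i)
  -- the product formula
  have hprod : ∀ m E, (tp (u m) k).eval E = ∏ i : Fin n, (E - y m i) := by
    intro m E
    have hcard : (tp (u m) k).roots.toFinset.card = n :=
      card_roots_of_seq (tp_monic _ k hk).ne_zero (tp_natDegree _ k hk).le (y m) (hy1 m) (hy2 m)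
    have h1 := eq_prod_srt hcard (tp_natDegree _ k hk)
    rw [(tp_monic _ k hk).leadingCoeff] at h1
    rw [h1]
    have h2 : ∀ i < n, srt (tp (u m) k) i = y m i :=
      srt_unique hcard (tp_monic _ k hk).ne_zero (y m) (hy1 m) (hy2 m)
    simp only [eval_mul, eval_C, one_mul, eval_prod, eval_sub, eval_X]
    rw [Finset.prod_range]
    exact Finset.prod_congr rfl (fun i _ => by rw [h2 i i.2])
  have hlim : ∀ E, (tp a k).eval E = ∏ i : Fin n, (E - Z i) := by
    intro E
    have h1 : Tendsto (fun m => (tp (u (φ m)) k).eval E) atTop (𝓝 ((tp a k).eval E)) := by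
      have hc : Continuous fun l : ℝ => (tp l k).eval E :=
        (contDiff_tp k).continuous.comp (continuous_id.prodMk continuous_const)
      exact (hc.tendsto a).comp (hua.comp hφ.tendsto_atTop)
    have h2 : Tendsto (fun m => ∏ i : Fin n, (E - y (φ m) i)) atTop
        (𝓝 (∏ i : Fin n, (E - Z i))) :=
      tendsto_finsetProd _ (fun i _ => tendsto_const_nhds.sub (hZi i))
    refine tendsto_nhds_unique h1 ?_
    exact h2.congr (fun m => (hprod _ _).symm)
  have hpoly : tp a k = ∏ i : Fin n, (X - C (Z i)) := by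
    refine Polynomial.funext (fun E => ?_)
    rw [hlim, eval_prod]
    simp
  have hroot : ∀ i : Fin n, (tp a k).eval (Z i) = 0 := by
    intro i
    rw [hlim]
    exact Finset.prod_eq_zero (Finset.mem_univ i) (sub_self _)
  have hne : ∀ i j : Fin n, i < j → Z i ≠ Z j := by
    intro i j hij heq
    have h1 := deriv_ne_of_lt a (Z i) k hk (by rw [hroot i]; simp)
    apply h1
    have h2 : tp a k = (X - C (Z i)) * ((X - C (Z j)) *
        ∏ l ∈ (Finset.univ.erase i).erase j, (X - C (Z l))) := by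
      rw [hpoly, ← Finset.mul_prod_erase Finset.univ _ (Finset.mem_univ i)]
      congr 1
      rw [← Finset.mul_prod_erase (Finset.univ.erase i) _ (Finset.mem_erase.2
        ⟨hij.ne', Finset.mem_univ j⟩)]
    rw [h2, derivative_mul, derivative_mul]
    simp [heq]
  have hle : ∀ i j : Fin n, i < j → Z i ≤ Z j := by
    intro i j hij
    exact le_of_tendsto_of_tendsto' (hZi i) (hZi j) (fun m => (hy2 (φ m) i j hij j.2).le)
  have hz : ∀ i (hi : i < n), (if h : i < n then Z ⟨i, h⟩ else 0) = Z ⟨i, hi⟩ := fun i hi =>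
    dif_pos hi
  refine ⟨fun i => if h : i < n then Z ⟨i, h⟩ else 0, fun i hi => ?_, fun i j hij hj => ?_⟩
  · change (tp a k).eval (if h : i < n then Z ⟨i, h⟩ else 0) = 0
    rw [hz i hi]
    exact hroot _
  · have hi : i < n := hij.trans hj
    change (if h : i < n then Z ⟨i, h⟩ else 0) < (if h : j < n then Z ⟨j, h⟩ else 0)
    rw [hz i hi, hz j hj]
    exact lt_of_le_of_ne (hle ⟨i, hi⟩ ⟨j, hj⟩ hij) (hne ⟨i, hi⟩ ⟨j, hj⟩ hij)

theorem card_roots (lam : ℝ) (k : ℕ) (hk : 1 ≤ k) :
    (tp lam k).roots.toFinset.card = Nat.fib k := by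
  apply modD_card hk
  have h := isClopen_iff.1 (⟨modD_closed hk, modD_open hk⟩ : IsClopen (modD_S k))
  rcases h with h | h
  · have := modD_zero hk
    rw [h] at this
    exact absurd this (Set.notMem_empty _)
  · rw [h]
    exact Set.mem_univ lam

end Pool.Agent.H22.Fib
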