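import Pool.Agent.H22.Fib.ModD

/-!
Module E: critical points.
-/

set_option autoImplicit false

noncomputable section

open Polynomial Filter Topology

namespace Pool.Agent.H22.Fib

lemma modE_natDegree_derivative (lam : ℝ) (k : ℕ) (hk : 1 ≤ k) :
    (derivative (tp lam k)).natDegree = Nat.fib k - 1 := by
  rw [Polynomial.natDegree_derivative, tp_natDegree lam k hk]

lemma modE_derivative_ne (lam : ℝ) (k : ℕ) (hk : 1 ≤ k) : derivative (tp lam k) ≠ 0 := by
  intro h
  have h1 := Polynomial.derivative_eq_zero.mp h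
  rw [tp_natDegree lam k hk] at h1
  have := Nat.fib_pos.mpr (show 0 < k by omega)
  omega

lemma modE_exists (lam : ℝ) (k : ℕ) (hk : 1 ≤ k) : ∃ x : ℕ → ℝ, ∀ j, j + 1 < Nat.fib k →
    rt lam k j < x j ∧ x j < rt lam k (j + 1) ∧ (derivative (tp lam k)).eval (x j) = 0 := by
  have hc := card_roots lam k hk
  have h : ∀ j, ∃ y : ℝ, j + 1 < Nat.fib k →
      rt lam k j < y ∧ y < rt lam k (j + 1) ∧ (derivative (tp lam k)).eval y = 0 := by
    intro j
    by_cases hj : j + 1 < Nat.fib k
    · have hlt : rt lam k j < rt lam k (j + 1) := srt_lt hc hj (by omega)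
      have e1 : (tp lam k).eval (rt lam k j) = 0 := srt_isRoot hc (by omega)
      have e2 : (tp lam k).eval (rt lam k (j + 1)) = 0 := srt_isRoot hc hj
      obtain ⟨y, hy, hy'⟩ := exists_hasDerivAt_eq_zero hlt
        (tp lam k).continuous.continuousOn (e1.trans e2.symm)
        (fun x _ => (tp lam k).hasDerivAt x)
      exact ⟨y, fun _ => ⟨hy.1, hy.2, hy'⟩⟩
    · exact ⟨0, fun h => absurd h hj⟩
  choose x hx using h
  exact ⟨x, hx⟩

lemma modE_mono (lam : ℝ) (k : ℕ) (hk : 1 ≤ k) (x : ℕ → ℝ) (hx : ∀ j, j + 1 < Nat.fib k →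
    rt lam k j < x j ∧ x j < rt lam k (j + 1) ∧ (derivative (tp lam k)).eval (x j) = 0) :
    ∀ i j, i < j → j < Nat.fib k - 1 → x i < x j := by
  intro i j hij hj
  have hc := card_roots lam k hk
  have h1 := (hx i (by omega)).2.1
  have h2 := (hx j (by omega)).1
  have h3 : rt lam k (i + 1) ≤ rt lam k j := by
    rcases Nat.lt_or_ge (i + 1) j with h | h
    · exact (srt_lt hc (by omega) h).le
    · have : i + 1 = j := by omega
      rw [this]
  linarith

theorem card_crit (lam : ℝ) (k : ℕ) (hk : 1 ≤ k) :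
    (derivative (tp lam k)).roots.toFinset.card = Nat.fib k - 1 := by
  obtain ⟨x, hx⟩ := modE_exists lam k hk
  exact card_roots_of_seq (modE_derivative_ne lam k hk) (modE_natDegree_derivative lam k hk).le x
    (fun i hi => (hx i (by omega)).2.2) (modE_mono lam k hk x hx)

theorem rt_lt_cr (lam : ℝ) (k : ℕ) (hk : 1 ≤ k) (j : ℕ) (hj : j + 1 < Nat.fib k) :
    rt lam k j < cr lam k j ∧ cr lam k j < rt lam k (j + 1) := by
  obtain ⟨x, hx⟩ := modE_exists lam k hk
  have h : cr lam k j = x j := srt_unique (card_crit lam k hk) (modE_derivative_ne lam k hk) x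
    (fun i hi => (hx i (by omega)).2.2) (modE_mono lam k hk x hx) j (by omega)
  rw [h]
  exact ⟨(hx j hj).1, (hx j hj).2.1⟩

lemma modE_crit_root (lam : ℝ) (k : ℕ) (hk : 1 ≤ k) (j : ℕ) (hj : j + 1 < Nat.fib k) :
    (derivative (tp lam k)).eval (cr lam k j) = 0 :=
  srt_isRoot (card_crit lam k hk) (by omega)

lemma modE_prod (x : ℕ → ℝ) (E : ℝ) (n : ℕ) :
    (∏ i ∈ Finset.range n, (X - C (x i))).eval E *
      (derivative (derivative (∏ i ∈ Finset.range n, (X - C (x i))))).eval E -
      (derivative (∏ i ∈ Finset.range n, (X - C (x i)))).eval E ^ 2 ≤ 0 := by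
  induction n with
  | zero => simp
  | succ n ih =>
    rw [Finset.prod_range_succ]
    set P := ∏ i ∈ Finset.range n, (X - C (x i)) with hP
    simp only [derivative_mul, derivative_sub, derivative_X, derivative_C, sub_zero, mul_one,
      derivative_add, eval_add, eval_mul, eval_sub, eval_X, eval_C]
    nlinarith [mul_nonneg (sq_nonneg (E - x n)) (sub_nonneg.mpr ih), sq_nonneg (P.eval E)]

lemma modE_prod_lt (x : ℕ → ℝ) (E : ℝ) (n : ℕ) (hn : 0 < n)
    (hE : (∏ i ∈ Finset.range n, (X - C (x i))).eval E ≠ 0) :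
    (∏ i ∈ Finset.range n, (X - C (x i))).eval E *
      (derivative (derivative (∏ i ∈ Finset.range n, (X - C (x i))))).eval E -
      (derivative (∏ i ∈ Finset.range n, (X - C (x i)))).eval E ^ 2 < 0 := by
  obtain ⟨m, rfl⟩ : ∃ m, n = m + 1 := ⟨n - 1, by omega⟩
  have ih := modE_prod x E m
  rw [Finset.prod_range_succ] at hE ⊢
  set P := ∏ i ∈ Finset.range m, (X - C (x i)) with hP
  rw [eval_mul] at hE
  have h0 : P.eval E ≠ 0 := left_ne_zero_of_mul hE
  have h1 : 0 < P.eval E ^ 2 := by positivity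
  simp only [derivative_mul, derivative_sub, derivative_X, derivative_C, sub_zero, mul_one,
    derivative_add, eval_add, eval_mul, eval_sub, eval_X, eval_C]
  nlinarith [mul_nonneg (sq_nonneg (E - x m)) (sub_nonneg.mpr ih)]

theorem crit_second (lam : ℝ) (k : ℕ) (hk : 1 ≤ k) (j : ℕ) (hj : j + 1 < Nat.fib k) :
    (tp lam k).eval (cr lam k j) * (derivative (derivative (tp lam k))).eval (cr lam k j) < 0 := by
  have hroot := modE_crit_root lam k hk j hj
  have hne : (tp lam k).eval (cr lam k j) ≠ 0 := by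
    intro h0
    refine deriv_ne_of_lt lam (cr lam k j) k hk ?_ hroot
    rw [h0]; norm_num
  have hp := eq_prod_srt (card_roots lam k hk) (tp_natDegree lam k hk)
  rw [(tp_monic lam k hk).leadingCoeff, map_one, one_mul] at hp
  have h1 := modE_prod_lt (srt (tp lam k)) (cr lam k j) (Nat.fib k) (by omega)
    (by rw [← hp]; exact hne)
  rw [← hp, hroot] at h1
  linarith

theorem crit_abs (lam : ℝ) (hl : 0 < lam) (k : ℕ) (hk : 1 ≤ k) (j : ℕ) (hj : j + 1 < Nat.fib k) :
    2 < |(tp lam k).eval (cr lam k j)| := by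
  by_contra h
  exact deriv_ne_of_le lam (cr lam k j) hl.ne' k hk (not_lt.mp h) (modE_crit_root lam k hk j hj)

end Pool.Agent.H22.Fib
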