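import Pool.Agent.H22.Fib.ModE

/-!
Module E2: critical points at coupling 0 and the sign of the coupling derivative.
-/

set_option autoImplicit false

noncomputable section

open Polynomial Filter Topology

namespace Pool.Agent.H22.Fib

/-- The angles of the critical points at coupling zero. -/
theorem modE2_angle (q : ℕ) (j : ℕ) (hj : j + 1 < q) :
    0 < Real.pi * ((q : ℝ) - 1 - j) / q ∧ Real.pi * ((q : ℝ) - 1 - j) / q < Real.pi := by
  have hq : (0 : ℝ) < q := by
    have : 0 < q := by omega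
    exact_mod_cast this
  have hj' : (j : ℝ) + 1 < q := by exact_mod_cast hj
  have hj0 : (0 : ℝ) ≤ j := Nat.cast_nonneg j
  have hpi := Real.pi_pos
  refine ⟨div_pos (mul_pos hpi (by linarith)) hq, ?_⟩
  rw [div_lt_iff₀ hq]
  exact mul_lt_mul_of_pos_left (by linarith) hpi

theorem modE2_deriv_cos (k : ℕ) (θ : ℝ) :
    (derivative (tp 0 k)).eval (2 * Real.cos θ) * (2 * Real.sin θ) =
      2 * Nat.fib k * Real.sin (Nat.fib k * θ) := by
  have h1 : HasDerivAt (fun t : ℝ => (tp 0 k).eval (2 * Real.cos t))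
      ((derivative (tp 0 k)).eval (2 * Real.cos θ) * (2 * (-Real.sin θ))) θ := by
    have h0 := (Real.hasDerivAt_cos θ).const_mul 2
    have h00 := ((tp 0 k).hasDerivAt (2 * Real.cos θ)).comp θ h0
    exact h00
  have h2 : HasDerivAt (fun t : ℝ => 2 * Real.cos ((Nat.fib k : ℝ) * t))
      (2 * (-Real.sin ((Nat.fib k : ℝ) * θ) * ((Nat.fib k : ℝ) * 1))) θ :=
    (((hasDerivAt_id θ).const_mul (Nat.fib k : ℝ)).cos).const_mul 2
  have h3 : (fun t : ℝ => (tp 0 k).eval (2 * Real.cos t)) =
      fun t : ℝ => 2 * Real.cos ((Nat.fib k : ℝ) * t) := by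
    funext t
    exact tp_cos t k
  rw [h3] at h1
  have h4 := h1.unique h2
  linarith

theorem modE2_sin_nat_pi (q : ℕ) (j : ℕ) (hj : j + 1 < q) :
    Real.sin ((q : ℝ) * (Real.pi * ((q : ℝ) - 1 - j) / q)) = 0 := by
  have hq : (q : ℝ) ≠ 0 := by
    have : q ≠ 0 := by omega
    exact_mod_cast this
  have h : (q : ℝ) * (Real.pi * ((q : ℝ) - 1 - j) / q) = ((q - 1 - j : ℕ) : ℝ) * Real.pi := by
    rw [Nat.cast_sub (by omega), Nat.cast_sub (by omega)]
    field_simp
    push_cast
    ring
  rw [h]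
  exact Real.sin_nat_mul_pi _

theorem crit_zero (k : ℕ) (hk : 1 ≤ k) (j : ℕ) (hj : j + 1 < Nat.fib k) :
    cr 0 k j = 2 * Real.cos (Real.pi * ((Nat.fib k : ℝ) - 1 - j) / Nat.fib k) := by
  have hcard := card_crit 0 k hk
  have hne : derivative (tp 0 k) ≠ 0 := by
    intro h
    rw [h] at hcard
    simp at hcard
    omega
  have hq : (0 : ℝ) < Nat.fib k := by
    have : 0 < Nat.fib k := by omega
    exact_mod_cast this
  refine srt_unique hcard hne
    (fun i => 2 * Real.cos (Real.pi * ((Nat.fib k : ℝ) - 1 - i) / Nat.fib k)) ?_ ?_ j (by omega)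
  · intro i hi
    have hi' : i + 1 < Nat.fib k := by omega
    have h1 := modE2_deriv_cos k (Real.pi * ((Nat.fib k : ℝ) - 1 - i) / Nat.fib k)
    rw [modE2_sin_nat_pi _ _ hi'] at h1
    have hang := modE2_angle _ _ hi'
    have hs : 0 < Real.sin (Real.pi * ((Nat.fib k : ℝ) - 1 - i) / Nat.fib k) :=
      Real.sin_pos_of_pos_of_lt_pi hang.1 hang.2
    rw [mul_zero] at h1
    rcases mul_eq_zero.1 h1 with h2 | h2
    · exact h2
    · exact absurd h2 (by positivity)
  · intro i l hil hl
    have hl' : l + 1 < Nat.fib k := by omega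
    have hi' : i + 1 < Nat.fib k := by omega
    have hai := modE2_angle _ _ hi'
    have hal := modE2_angle _ _ hl'
    have hlt : Real.pi * ((Nat.fib k : ℝ) - 1 - l) / Nat.fib k <
        Real.pi * ((Nat.fib k : ℝ) - 1 - i) / Nat.fib k := by
      have : (i : ℝ) < l := by exact_mod_cast hil
      apply div_lt_div_of_pos_right _ hq
      exact mul_lt_mul_of_pos_left (by linarith) Real.pi_pos
    have := Real.strictAntiOn_cos ⟨hal.1.le, hal.2.le⟩ ⟨hai.1.le, hai.2.le⟩ hlt
    linarith

theorem modE2_natDegree (lam : ℝ) (k : ℕ) (hk : 1 ≤ k) (hq : 1 < Nat.fib k) :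
    (derivative (tp lam k)).natDegree = Nat.fib k - 1 := by
  have hcard := card_crit lam k hk
  have hne : derivative (tp lam k) ≠ 0 := by
    intro h
    rw [h] at hcard
    simp at hcard
    omega
  have h1 := natDegree_derivative_le (tp lam k)
  rw [tp_natDegree lam k hk] at h1
  have h2 : (derivative (tp lam k)).roots.toFinset.card ≤ (derivative (tp lam k)).natDegree :=
    (Multiset.toFinset_card_le _).trans (card_roots' _)
  omega

theorem modE2_continuous_cr (k : ℕ) (hk : 1 ≤ k) (j : ℕ) (hj : j + 1 < Nat.fib k) :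
    Continuous (fun l => cr l k j) := by
  rw [← continuousOn_univ]
  exact srt_continuousOn (fun l => derivative (tp l k)) (Nat.fib k - 1) Set.univ
    (contDiff_dtp k).continuous (fun l _ => card_crit l k hk)
    (fun l _ => modE2_natDegree l k hk (by omega)) j (by omega)

theorem modE2_cr_zero (l : ℝ) (k : ℕ) (hk : 1 ≤ k) (j : ℕ) (hj : j + 1 < Nat.fib k) :
    (derivative (tp l k)).eval (cr l k j) = 0 :=
  srt_isRoot (card_crit l k hk) (by omega)

theorem modE2_hasDerivAt_cr (l0 : ℝ) (k : ℕ) (hk : 1 ≤ k) (j : ℕ) (hj : j + 1 < Nat.fib k) :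
    ∃ c', HasDerivAt (fun l => cr l k j) c' l0 := by
  set F : ℝ × ℝ → ℝ := fun x => (derivative (tp x.1 k)).eval x.2 with hF
  have hC : ContDiff ℝ 2 F := contDiff_dtp k
  have hd : DifferentiableAt ℝ (fun l => F (l, cr l0 k j)) l0 := by
    have h1 : DifferentiableAt ℝ F (l0, cr l0 k j) := (hC.differentiable (by norm_num)) _
    have h2 : DifferentiableAt ℝ (fun l : ℝ => (l, cr l0 k j)) l0 :=
      differentiableAt_id.prodMk (differentiableAt_const _)
    exact DifferentiableAt.comp l0 h1 h2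
  have hne : (derivative (derivative (tp l0 k))).eval (cr l0 k j) ≠ 0 := by
    intro h
    have := crit_second l0 k hk j hj
    rw [h, mul_zero] at this
    exact lt_irrefl _ this
  have h := hasDerivAt_root F (fun l => cr l k j) l0 0 _
    ((derivative (derivative (tp l0 k))).eval (cr l0 k j))
    ((hC.of_le (by norm_num)).contDiffAt) hd.hasDerivAt
    ((derivative (tp l0 k)).hasDerivAt (cr l0 k j))
    (modE2_continuous_cr k hk j hj).continuousAt
    (Filter.Eventually.of_forall fun l => modE2_cr_zero l k hk j hj) hne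
  exact ⟨_, h⟩

theorem modE2_hasDerivAt_T (l0 : ℝ) (k : ℕ) (hk : 1 ≤ k) (j : ℕ) (hj : j + 1 < Nat.fib k) :
    HasDerivAt (fun l => (tp l k).eval (cr l k j)) ((dp l0 k).eval (cr l0 k j)) l0 := by
  obtain ⟨c', hc'⟩ := modE2_hasDerivAt_cr l0 k hk j hj
  set T : ℝ × ℝ → ℝ := fun x => (tp x.1 k).eval x.2 with hT
  have hC : ContDiff ℝ 2 T := contDiff_tp k
  have hfd : HasFDerivAt T (fderiv ℝ T (l0, cr l0 k j)) (l0, cr l0 k j) :=
    ((hC.differentiable (by norm_num)) _).hasFDerivAt
  set L := fderiv ℝ T (l0, cr l0 k j) with hL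
  have h1 : HasDerivAt (fun l => T (l, cr l0 k j)) (L (1, 0)) l0 := by
    have h0 := hfd.comp_hasDerivAt_of_eq l0
      ((hasDerivAt_id l0).prodMk (hasDerivAt_const l0 (cr l0 k j))) rfl
    exact h0
  have h2 : HasDerivAt (fun E => T (l0, E)) (L (0, 1)) (cr l0 k j) := by
    have h0 := hfd.comp_hasDerivAt_of_eq (cr l0 k j)
      ((hasDerivAt_const (cr l0 k j) l0).prodMk (hasDerivAt_id (cr l0 k j))) rfl
    exact h0
  have h1' : L (1, 0) = (dp l0 k).eval (cr l0 k j) := h1.unique (hasDerivAt_tp k _ l0)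
  have h2' : L (0, 1) = 0 := by
    rw [h2.unique ((tp l0 k).hasDerivAt (cr l0 k j))]
    exact modE2_cr_zero l0 k hk j hj
  have h3 : HasDerivAt (fun l => T (l, cr l k j)) (L (1, c')) l0 := by
    have h0 := hfd.comp_hasDerivAt_of_eq l0 ((hasDerivAt_id l0).prodMk hc') rfl
    exact h0
  have h4 : L (1, c') = (dp l0 k).eval (cr l0 k j) := by
    have : ((1 : ℝ), c') = (1, 0) + c' • (0, 1) := by simp
    rw [this, map_add, map_smul, h1', h2']
    simp
  rw [h4] at h3
  exact h3

theorem crit_dp (lam : ℝ) (hl : 0 < lam) (k : ℕ) (hk : 1 ≤ k) (j : ℕ) (hj : j + 1 < Nat.fib k) :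
    0 < (tp lam k).eval (cr lam k j) * (dp lam k).eval (cr lam k j) := by
  set G : ℝ → ℝ := fun l => ((tp l k).eval (cr l k j)) ^ 2 with hG
  set G' : ℝ → ℝ := fun l => 2 * ((tp l k).eval (cr l k j) * (dp l k).eval (cr l k j)) with hG'
  have hder : ∀ l, HasDerivAt G (G' l) l := by
    intro l
    have := (modE2_hasDerivAt_T l k hk j hj).pow 2
    refine this.congr_deriv ?_
    simp only [hG']
    ring
  have hG0 : G 0 = 4 := by
    simp only [hG]
    rw [crit_zero k hk j hj, tp_cos]
    have hs := modE2_sin_nat_pi (Nat.fib k) j hj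
    have := Real.sin_sq_add_cos_sq
      ((Nat.fib k : ℝ) * (Real.pi * ((Nat.fib k : ℝ) - 1 - j) / Nat.fib k))
    rw [hs] at this
    nlinarith
  have hgt : ∀ l, 0 < l → 4 < G l := by
    intro l hl
    have := crit_abs l hl k hk j hj
    simp only [hG]
    rw [← sq_abs]
    nlinarith
  have hne : ∀ l ∈ Set.Ioi (0 : ℝ), G' l ≠ 0 := by
    intro l hl
    have hl' : 0 < l := hl
    have h1 := crit_abs l hl' k hk j hj
    have h2 := dp_ne_of_crit l _ hl'.ne' k hk (modE2_cr_zero l k hk j hj)
    have h3 : (tp l k).eval (cr l k j) ≠ 0 := by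
      intro h
      rw [h] at h1
      simp at h1
      linarith
    simp only [hG']
    exact mul_ne_zero two_ne_zero (mul_ne_zero h3 h2)
  rcases hasDerivWithinAt_forall_lt_or_forall_gt_of_forall_ne (convex_Ioi (0 : ℝ))
    (fun x _ => (hder x).hasDerivWithinAt) hne with h | h
  · exfalso
    have hanti : AntitoneOn G (Set.Ici 0) := by
      apply antitoneOn_of_deriv_nonpos (convex_Ici 0)
      · exact fun x _ => (hder x).continuousAt.continuousWithinAt
      · exact fun x _ => (hder x).differentiableAt.differentiableWithinAt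
      · intro x hx
        rw [interior_Ici] at hx
        rw [(hder x).deriv]
        exact (h x hx).le
    have := hanti (Set.mem_Ici.2 le_rfl) (Set.mem_Ici.2 hl.le) hl.le
    have h2 := hgt lam hl
    linarith
  · have := h lam hl
    simp only [hG'] at this
    linarith

end Pool.Agent.H22.Fib
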