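import Pool.Agent.H22.Fib.ModE

/-!
Module F: bands.
-/

set_option autoImplicit false

noncomputable section

open Polynomial Filter Topology

namespace Pool.Agent.H22.Fib

private lemma modF_eval (lam : ℝ) (k : ℕ) (E : ℝ) :
    (tp lam k ^ 2 - C 4).eval E = ((tp lam k).eval E) ^ 2 - 4 := by
  simp

private lemma modF_eval_pos (lam : ℝ) (k : ℕ) (E : ℝ) :
    0 < (tp lam k ^ 2 - C 4).eval E ↔ 2 < |(tp lam k).eval E| := by
  rw [modF_eval, sub_pos, ← sq_abs]
  constructor
  · intro h
    by_contra hcon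
    push Not at hcon
    nlinarith [abs_nonneg ((tp lam k).eval E)]
  · intro h
    nlinarith

private lemma modF_fib_pos (k : ℕ) (hk : 1 ≤ k) : 0 < Nat.fib k := Nat.fib_pos.2 hk

private lemma modF_monic (lam : ℝ) (k : ℕ) (hk : 1 ≤ k) : (tp lam k ^ 2 - C 4).Monic := by
  apply Monic.sub_of_left ((tp_monic lam k hk).pow 2)
  have h1 : 0 < (tp lam k ^ 2).natDegree := by
    rw [(tp_monic lam k hk).natDegree_pow, tp_natDegree lam k hk]
    have := modF_fib_pos k hk
    omega
  exact lt_of_le_of_lt degree_C_le (natDegree_pos_iff_degree_pos.1 h1)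

private lemma modF_natDegree (lam : ℝ) (k : ℕ) (hk : 1 ≤ k) :
    (tp lam k ^ 2 - C 4).natDegree = 2 * Nat.fib k := by
  rw [natDegree_sub_C, (tp_monic lam k hk).natDegree_pow, tp_natDegree lam k hk]

/-- the break points -/
private def modF_B (lam : ℝ) (k j : ℕ) : ℝ :=
  if j = 0 then -3 else if j < Nat.fib k then cr lam k (j - 1) else 3 + lam

private lemma modF_B_pos (lam : ℝ) (hl : 0 < lam) (k : ℕ) (hk : 1 ≤ k) (j : ℕ) :
    2 < |(tp lam k).eval (modF_B lam k j)| := by
  unfold modF_B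
  by_cases h0 : j = 0
  · rw [if_pos h0]
    by_contra hcon
    push Not at hcon
    have := (sig_bound lam (-3) hl.le k hk hcon).1
    linarith
  · rw [if_neg h0]
    by_cases h1 : j < Nat.fib k
    · rw [if_pos h1]
      exact crit_abs lam hl k hk (j - 1) (by omega)
    · rw [if_neg h1]
      by_contra hcon
      push Not at hcon
      have := (sig_bound lam (3 + lam) hl.le k hk hcon).2
      linarith

private lemma modF_rt_bound (lam : ℝ) (hl : 0 < lam) (k : ℕ) (hk : 1 ≤ k) (j : ℕ)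
    (hj : j < Nat.fib k) : -2 ≤ rt lam k j ∧ rt lam k j ≤ 2 + lam := by
  have h : (tp lam k).eval (rt lam k j) = 0 := srt_isRoot (card_roots lam k hk) hj
  apply sig_bound lam _ hl.le k hk
  change |(tp lam k).eval (rt lam k j)| ≤ 2
  rw [h]; norm_num

private lemma modF_B_lt (lam : ℝ) (hl : 0 < lam) (k : ℕ) (hk : 1 ≤ k) (j : ℕ)
    (hj : j < Nat.fib k) : modF_B lam k j < rt lam k j ∧ rt lam k j < modF_B lam k (j + 1) := by
  have hb := modF_rt_bound lam hl k hk j hj
  constructor
  · unfold modF_B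
    by_cases h0 : j = 0
    · rw [if_pos h0]; linarith
    · rw [if_neg h0, if_pos hj]
      have := (rt_lt_cr lam k hk (j - 1) (by omega)).2
      rwa [Nat.sub_add_cancel (by omega)] at this
  · unfold modF_B
    rw [if_neg (by omega)]
    by_cases h1 : j + 1 < Nat.fib k
    · rw [if_pos h1]
      exact (rt_lt_cr lam k hk j h1).1
    · rw [if_neg h1]; linarith

private lemma modF_ivt_left (lam : ℝ) (k : ℕ) {a b : ℝ} (hab : a < b)
    (ha : 2 < |(tp lam k).eval a|) (hb : (tp lam k).eval b = 0) :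
    ∃ x, a < x ∧ x < b ∧ (tp lam k ^ 2 - C 4).eval x = 0 := by
  have hc : ContinuousOn (fun x => (tp lam k ^ 2 - C 4).eval x) (Set.Icc a b) :=
    (tp lam k ^ 2 - C 4).continuous.continuousOn
  have h1 : 0 < (tp lam k ^ 2 - C 4).eval a := (modF_eval_pos lam k a).2 ha
  have h2 : (tp lam k ^ 2 - C 4).eval b < 0 := by rw [modF_eval, hb]; norm_num
  obtain ⟨x, hx, hx0⟩ := intermediate_value_Ioo' hab.le hc ⟨h2, h1⟩
  exact ⟨x, hx.1, hx.2, hx0⟩

private lemma modF_ivt_right (lam : ℝ) (k : ℕ) {a b : ℝ} (hab : a < b)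
    (ha : (tp lam k).eval a = 0) (hb : 2 < |(tp lam k).eval b|) :
    ∃ x, a < x ∧ x < b ∧ (tp lam k ^ 2 - C 4).eval x = 0 := by
  have hc : ContinuousOn (fun x => (tp lam k ^ 2 - C 4).eval x) (Set.Icc a b) :=
    (tp lam k ^ 2 - C 4).continuous.continuousOn
  have h1 : 0 < (tp lam k ^ 2 - C 4).eval b := (modF_eval_pos lam k b).2 hb
  have h2 : (tp lam k ^ 2 - C 4).eval a < 0 := by rw [modF_eval, ha]; norm_num
  obtain ⟨x, hx, hx0⟩ := intermediate_value_Ioo hab.le hc ⟨h2, h1⟩
  exact ⟨x, hx.1, hx.2, hx0⟩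

private lemma modF_exists (lam : ℝ) (hl : 0 < lam) (k : ℕ) (hk : 1 ≤ k) :
    ∃ a b : ℕ → ℝ, ∀ j < Nat.fib k, modF_B lam k j < a j ∧ a j < rt lam k j ∧
      rt lam k j < b j ∧ b j < modF_B lam k (j + 1) ∧
      (tp lam k ^ 2 - C 4).eval (a j) = 0 ∧ (tp lam k ^ 2 - C 4).eval (b j) = 0 := by
  have hrt : ∀ j < Nat.fib k, (tp lam k).eval (rt lam k j) = 0 := fun j hj =>
    srt_isRoot (card_roots lam k hk) hj
  have h1 : ∀ j, ∃ x, j < Nat.fib k → modF_B lam k j < x ∧ x < rt lam k j ∧
      (tp lam k ^ 2 - C 4).eval x = 0 := by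
    intro j
    by_cases hj : j < Nat.fib k
    · obtain ⟨x, hx⟩ := modF_ivt_left lam k (modF_B_lt lam hl k hk j hj).1
        (modF_B_pos lam hl k hk j) (hrt j hj)
      exact ⟨x, fun _ => hx⟩
    · exact ⟨0, fun h => absurd h hj⟩
  have h2 : ∀ j, ∃ x, j < Nat.fib k → rt lam k j < x ∧ x < modF_B lam k (j + 1) ∧
      (tp lam k ^ 2 - C 4).eval x = 0 := by
    intro j
    by_cases hj : j < Nat.fib k
    · obtain ⟨x, hx⟩ := modF_ivt_right lam k (modF_B_lt lam hl k hk j hj).2
        (hrt j hj) (modF_B_pos lam hl k hk (j + 1))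
      exact ⟨x, fun _ => hx⟩
    · exact ⟨0, fun h => absurd h hj⟩
  choose a ha using h1
  choose b hb using h2
  exact ⟨a, b, fun j hj => ⟨(ha j hj).1, (ha j hj).2.1, (hb j hj).1, (hb j hj).2.1,
    (ha j hj).2.2, (hb j hj).2.2⟩⟩

private lemma modF_B_mono (lam : ℝ) (hl : 0 < lam) (k : ℕ) (hk : 1 ≤ k) {i j : ℕ} (hij : i ≤ j)
    (hj : j ≤ Nat.fib k) : modF_B lam k i ≤ modF_B lam k j := by
  induction j, hij using Nat.le_induction with
  | base => exact le_rfl
  | succ j hij ih =>
    have h := modF_B_lt lam hl k hk j (by omega)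
    exact (ih (by omega)).trans (h.1.trans h.2).le

/-- the sorted sequence of edges -/
private lemma modF_main (lam : ℝ) (hl : 0 < lam) (k : ℕ) (hk : 1 ≤ k) :
    (tp lam k ^ 2 - C 4).roots.toFinset.card = 2 * Nat.fib k ∧
    ∀ j < Nat.fib k, modF_B lam k j < lo lam k j ∧ lo lam k j < rt lam k j ∧
      rt lam k j < hi lam k j ∧ hi lam k j < modF_B lam k (j + 1) := by
  obtain ⟨a, b, hab⟩ := modF_exists lam hl k hk
  set x : ℕ → ℝ := fun i => if i % 2 = 0 then a (i / 2) else b (i / 2) with hxdef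
  have hx0 : ∀ j, x (2 * j) = a j := by
    intro j
    simp only [hxdef]
    rw [if_pos (by omega)]
    congr 1; omega
  have hx1 : ∀ j, x (2 * j + 1) = b j := by
    intro j
    simp only [hxdef]
    rw [if_neg (by omega)]
    congr 1; omega
  have hroot : ∀ i < 2 * Nat.fib k, (tp lam k ^ 2 - C 4).eval (x i) = 0 := by
    intro i hi
    have hi2 : i / 2 < Nat.fib k := by omega
    have h := hab (i / 2) hi2
    simp only [hxdef]
    by_cases h2 : i % 2 = 0
    · rw [if_pos h2]; exact h.2.2.2.2.1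
    · rw [if_neg h2]; exact h.2.2.2.2.2
  have hlow : ∀ i < 2 * Nat.fib k, modF_B lam k (i / 2) < x i := by
    intro i hi
    have hi2 : i / 2 < Nat.fib k := by omega
    have h := hab (i / 2) hi2
    simp only [hxdef]
    by_cases h2 : i % 2 = 0
    · rw [if_pos h2]; exact h.1
    · rw [if_neg h2]; linarith [h.1, h.2.1, h.2.2.1]
  have hhigh : ∀ i < 2 * Nat.fib k, x i < modF_B lam k (i / 2 + 1) := by
    intro i hi
    have hi2 : i / 2 < Nat.fib k := by omega
    have h := hab (i / 2) hi2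
    simp only [hxdef]
    by_cases h2 : i % 2 = 0
    · rw [if_pos h2]; linarith [h.2.1, h.2.2.1, h.2.2.2.1]
    · rw [if_neg h2]; exact h.2.2.2.1
  have hmono : ∀ i j, i < j → j < 2 * Nat.fib k → x i < x j := by
    intro i j hij hj
    by_cases h : i / 2 = j / 2
    · have hi0 : i % 2 = 0 := by omega
      have hj1 : ¬ j % 2 = 0 := by omega
      have h3 := hab (j / 2) (by omega)
      simp only [hxdef]
      rw [if_pos hi0, if_neg hj1, h]
      linarith [h3.2.1, h3.2.2.1]
    · have h1 := hhigh i (by omega)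
      have h2 := hlow j hj
      have h3 := modF_B_mono lam hl k hk (i := i / 2 + 1) (j := j / 2) (by omega) (by omega)
      linarith
  have hne := (modF_monic lam k hk).ne_zero
  have hcard := card_roots_of_seq hne (modF_natDegree lam k hk).le x hroot hmono
  refine ⟨hcard, fun j hj => ?_⟩
  have hu := srt_unique hcard hne x hroot hmono
  have e0 : lo lam k j = a j := by
    unfold lo
    rw [hu (2 * j) (by omega), hx0]
  have e1 : hi lam k j = b j := by
    unfold hi
    rw [hu (2 * j + 1) (by omega), hx1]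
  rw [e0, e1]
  have h := hab j hj
  exact ⟨h.1, h.2.1, h.2.2.1, h.2.2.2.1⟩

theorem card_edges (lam : ℝ) (hl : 0 < lam) (k : ℕ) (hk : 1 ≤ k) :
    (tp lam k ^ 2 - C 4).roots.toFinset.card = 2 * Nat.fib k := (modF_main lam hl k hk).1

theorem band_rt (lam : ℝ) (hl : 0 < lam) (k : ℕ) (hk : 1 ≤ k) (j : ℕ) (hj : j < Nat.fib k) :
    lo lam k j < rt lam k j ∧ rt lam k j < hi lam k j :=
  ⟨((modF_main lam hl k hk).2 j hj).2.1, ((modF_main lam hl k hk).2 j hj).2.2.1⟩

theorem band_gap (lam : ℝ) (hl : 0 < lam) (k : ℕ) (hk : 1 ≤ k) (j : ℕ)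
    (hj : j + 1 < Nat.fib k) : hi lam k j < cr lam k j ∧ cr lam k j < lo lam k (j + 1) := by
  have h1 := (modF_main lam hl k hk).2 j (by omega)
  have h2 := (modF_main lam hl k hk).2 (j + 1) hj
  have hB : modF_B lam k (j + 1) = cr lam k j := by
    unfold modF_B
    rw [if_neg (by omega), if_pos hj]
    rfl
  rw [hB] at h1 h2
  exact ⟨h1.2.2.2, h2.1⟩

private lemma modF_prod_pairs (f : ℕ → ℝ) (n : ℕ) :
    ∏ i ∈ Finset.range (2 * n), f i = ∏ j ∈ Finset.range n, (f (2 * j) * f (2 * j + 1)) := by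
  induction n with
  | zero => simp
  | succ n ih =>
    rw [show 2 * (n + 1) = 2 * n + 1 + 1 by ring, Finset.prod_range_succ, Finset.prod_range_succ,
      ih, Finset.prod_range_succ, mul_assoc]

theorem sig_eq (lam : ℝ) (hl : 0 < lam) (k : ℕ) (hk : 1 ≤ k) (E : ℝ) :
    E ∈ sig lam k ↔ ∃ j < Nat.fib k, E ∈ Set.Icc (lo lam k j) (hi lam k j) := by
  have hprod : (tp lam k ^ 2 - C 4).eval E =
      ∏ j ∈ Finset.range (Nat.fib k), ((E - lo lam k j) * (E - hi lam k j)) := by
    have h1 := eq_prod_srt (card_edges lam hl k hk) (modF_natDegree lam k hk)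
    rw [(modF_monic lam k hk).leadingCoeff, C_1, one_mul] at h1
    have h2 := congrArg (fun p => Polynomial.eval E p) h1
    simp only [eval_prod, eval_sub (p := X), eval_X, eval_C] at h2
    rw [h2]
    rw [modF_prod_pairs]
    rfl
  have hmain := (modF_main lam hl k hk).2
  have hsig : E ∈ sig lam k ↔ (tp lam k ^ 2 - C 4).eval E ≤ 0 := by
    rw [← not_lt, modF_eval_pos, not_lt]
    rfl
  have hpair : ∀ j < Nat.fib k, lo lam k j < hi lam k j := fun j hj =>
    (hmain j hj).2.1.trans (hmain j hj).2.2.1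
  have hsucc : ∀ i j, i < j → j < Nat.fib k → hi lam k i < lo lam k j := by
    intro i j hij hj
    have h1 := (hmain i (by omega)).2.2.2
    have h2 := (hmain j hj).1
    have h3 := modF_B_mono lam hl k hk (i := i + 1) (j := j) (by omega) (by omega)
    linarith
  rw [hsig, hprod]
  constructor
  · intro h
    by_contra hcon
    push Not at hcon
    refine absurd h (not_le.2 (Finset.prod_pos fun j hj => ?_))
    rw [Finset.mem_range] at hj
    have h1 := hcon j hj
    rw [Set.mem_Icc, not_and_or, not_le, not_le] at h1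
    have h2 := hpair j hj
    rcases h1 with h1 | h1
    · exact mul_pos_of_neg_of_neg (by linarith) (by linarith)
    · exact mul_pos (by linarith) (by linarith)
  · rintro ⟨j, hj, h1, h2⟩
    rw [← Finset.mul_prod_erase (Finset.range (Nat.fib k)) _ (Finset.mem_range.2 hj)]
    refine mul_nonpos_of_nonpos_of_nonneg
      (mul_nonpos_of_nonneg_of_nonpos (by linarith) (by linarith)) (Finset.prod_nonneg fun i hi => ?_)
    rw [Finset.mem_erase, Finset.mem_range] at hi
    obtain ⟨hij, hi⟩ := hi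
    have h3 := hpair i hi
    rcases lt_or_gt_of_ne hij with h | h
    · have := hsucc i j h hj
      exact mul_nonneg (by linarith) (by linarith)
    · have := hsucc j i h hi
      exact mul_nonneg_of_nonpos_of_nonpos (by linarith) (by linarith)

end Pool.Agent.H22.Fib
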