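import Pool.Agent.H22.Fib.ModE2
import Pool.Agent.H22.Fib.ModF

/-!
Module G: the velocity is antitone on bands.
-/

set_option autoImplicit false

noncomputable section

open Polynomial Filter Topology

namespace Pool.Agent.H22.Fib

/-- Positions of the critical points with respect to a band. -/
theorem modG_sep (lam : ℝ) (hl : 0 < lam) (k : ℕ) (hk : 1 ≤ k) (j : ℕ) (hj : j < Nat.fib k)
    (i : ℕ) (hi' : i + 1 < Nat.fib k) :
    cr lam k i < lo lam k j ∨ hi lam k j < cr lam k i := by
  have hcard := card_edges lam hl k hk
  rcases Nat.lt_or_ge i j with h | h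
  · left
    have h1 := (band_gap lam hl k hk i hi').2
    have h2 : lo lam k (i + 1) ≤ lo lam k j := by
      rcases Nat.eq_or_lt_of_le (Nat.succ_le_of_lt h) with h3 | h3
      · have : j = i + 1 := h3.symm
        rw [this]
      · exact (srt_lt hcard (by omega) (by omega : 2 * (i + 1) < 2 * j)).le
    exact h1.trans_le h2
  · right
    have h1 := (band_gap lam hl k hk i hi').1
    have h2 : hi lam k j ≤ hi lam k i := by
      rcases Nat.eq_or_lt_of_le h with h3 | h3
      · rw [h3]
      · exact (srt_lt hcard (by omega) (by omega : 2 * j + 1 < 2 * i + 1)).le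
    exact h2.trans_lt h1

/-- The derivative of the trace polynomial as a multiple of a nodal polynomial. -/
theorem modG_deriv (lam : ℝ) (k : ℕ) (hk : 1 ≤ k) :
    derivative (tp lam k) =
      C (Nat.fib k : ℝ) * Lagrange.nodal (Finset.range (Nat.fib k - 1)) (cr lam k) := by
  have hq : 1 ≤ Nat.fib k := Nat.fib_pos.2 hk
  have hmon := tp_monic lam k hk
  have hdeg := tp_natDegree lam k hk
  have hcoef : (derivative (tp lam k)).coeff (Nat.fib k - 1) = (Nat.fib k : ℝ) := by
    rw [coeff_derivative, Nat.sub_add_cancel hq]
    have : (tp lam k).coeff (Nat.fib k) = 1 := by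
      rw [← hdeg]; exact hmon.coeff_natDegree
    rw [this]
    push_cast [Nat.cast_sub hq]
    ring
  have hle : (derivative (tp lam k)).natDegree ≤ Nat.fib k - 1 := by
    have := natDegree_derivative_le (tp lam k)
    rwa [hdeg] at this
  have hne : (derivative (tp lam k)).coeff (Nat.fib k - 1) ≠ 0 := by
    rw [hcoef]; positivity
  have hdeg' : (derivative (tp lam k)).natDegree = Nat.fib k - 1 :=
    natDegree_eq_of_le_of_coeff_ne_zero hle hne
  have hlead : (derivative (tp lam k)).leadingCoeff = (Nat.fib k : ℝ) := by
    rw [leadingCoeff, hdeg', hcoef]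
  have h := eq_prod_srt (card_crit lam k hk) hdeg'
  rw [hlead] at h
  exact h

theorem modG_rep (lam : ℝ) (k : ℕ) (hk : 1 ≤ k) (E : ℝ)
    (hE : ∀ i, i + 1 < Nat.fib k → E ≠ cr lam k i) :
    -(dp lam k).eval E / (derivative (tp lam k)).eval E =
      -((dp lam k).coeff (Nat.fib k - 1) / Nat.fib k) -
        ∑ i ∈ Finset.range (Nat.fib k - 1),
          (dp lam k).eval (cr lam k i) / (derivative (derivative (tp lam k))).eval (cr lam k i)
            * (E - cr lam k i)⁻¹ := by
  have hq : 1 ≤ Nat.fib k := Nat.fib_pos.2 hk
  set q := Nat.fib k with hqdef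
  set s := Finset.range (q - 1) with hs
  set v := cr lam k with hv
  set a := (dp lam k).coeff (q - 1) with ha
  have hq0 : (q : ℝ) ≠ 0 := by positivity
  have hder := modG_deriv lam k hk
  rw [← hqdef, ← hs, ← hv] at hder
  have hinj : Set.InjOn v s := by
    intro x hx y hy hxy
    have hx' : x < q - 1 := by simpa [hs] using hx
    have hy' : y < q - 1 := by simpa [hs] using hy
    by_contra hne
    rcases Nat.lt_or_gt_of_ne hne with h | h
    · exact (srt_lt (card_crit lam k hk) hy' h).ne hxy
    · exact (srt_lt (card_crit lam k hk) hx' h).ne hxy.symm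
  set R := dp lam k - C (a / q) * derivative (tp lam k) with hR
  have hmon := tp_monic lam k hk
  have hdeg := tp_natDegree lam k hk
  rw [← hqdef] at hdeg
  have hcoefq : ∀ n, q - 1 ≤ n → R.coeff n = 0 := by
    intro n hn
    rw [hR, coeff_sub, coeff_C_mul, coeff_derivative]
    rcases Nat.eq_or_lt_of_le hn with h | h
    · rw [← h, Nat.sub_add_cancel hq]
      have : (tp lam k).coeff q = 1 := by
        rw [← hdeg]; exact hmon.coeff_natDegree
      rw [this, ← ha]
      push_cast [Nat.cast_sub hq]
      field_simp
      ring
    · have h1 : (tp lam k).coeff (n + 1) = 0 := coeff_eq_zero_of_natDegree_lt (by omega)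
      have h2 : (dp lam k).coeff n = 0 := by
        apply coeff_eq_zero_of_degree_lt
        refine (dp_degree_lt lam k hk).trans_le ?_
        exact_mod_cast (by omega : q ≤ n)
      rw [h1, h2]
      ring
  have hRdeg : R.degree < (s.card : ℕ) := by
    rw [hs, Finset.card_range, degree_lt_iff_coeff_zero]
    intro m hm
    exact hcoefq m hm
  have hRint := Lagrange.eq_interpolate hinj hRdeg
  have hvE : ∀ i ∈ s, E ≠ v i := by
    intro i hi
    have : i < q - 1 := by simpa [hs] using hi
    exact hE i (by omega)
  have hRe := congrArg (eval E) hRint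
  rw [Lagrange.eval_interpolate_not_at_node _ hvE] at hRe
  have hnod : eval E (Lagrange.nodal s v) ≠ 0 := by
    rw [Lagrange.eval_nodal]
    exact Finset.prod_ne_zero_iff.2 fun i hi => sub_ne_zero.2 (hvE i hi)
  have hD : (derivative (tp lam k)).eval E = q * eval E (Lagrange.nodal s v) := by
    rw [hder, eval_mul, eval_C]
  have hdp : (dp lam k).eval E = R.eval E + a / q * (derivative (tp lam k)).eval E := by
    rw [hR]; simp
  have hterm : ∀ i ∈ s, Lagrange.nodalWeight s v i * (E - v i)⁻¹ * R.eval (v i)
      = q * ((dp lam k).eval (v i) / (derivative (derivative (tp lam k))).eval (v i)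
            * (E - v i)⁻¹) := by
    intro i hi
    have hi' : i < q - 1 := by simpa [hs] using hi
    have hz : (derivative (tp lam k)).eval (v i) = 0 := srt_isRoot (card_crit lam k hk) hi'
    have h1 : R.eval (v i) = (dp lam k).eval (v i) := by
      rw [hR]; simp [hz]
    have h2 : (derivative (derivative (tp lam k))).eval (v i)
        = q * (derivative (Lagrange.nodal s v)).eval (v i) := by
      rw [hder, derivative_C_mul, eval_mul, eval_C]
    rw [h1, h2, Lagrange.nodalWeight_eq_eval_derivative_nodal hi]
    rw [mul_comm (q : ℝ) ((derivative (Lagrange.nodal s v)).eval (v i)), ← div_div]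
    field_simp
  rw [Finset.sum_congr rfl hterm, ← Finset.mul_sum] at hRe
  rw [hdp, hD, hRe]
  field_simp
  ring

theorem velocity_le (lam : ℝ) (hl : 0 < lam) (k : ℕ) (hk : 1 ≤ k) (j : ℕ) (hj : j < Nat.fib k) :
    -(dp lam k).eval (hi lam k j) / (derivative (tp lam k)).eval (hi lam k j) ≤
      -(dp lam k).eval (lo lam k j) / (derivative (tp lam k)).eval (lo lam k j) := by
  have hlh : lo lam k j < hi lam k j := (band_rt lam hl k hk j hj).1.trans (band_rt lam hl k hk j hj).2
  have hsep := modG_sep lam hl k hk j hj
  rw [modG_rep lam k hk (hi lam k j), modG_rep lam k hk (lo lam k j)]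
  · apply sub_le_sub_left
    apply Finset.sum_le_sum
    intro i hi'
    have hi'' : i + 1 < Nat.fib k := by
      have := Finset.mem_range.1 hi'
      omega
    have hc : (dp lam k).eval (cr lam k i) /
        (derivative (derivative (tp lam k))).eval (cr lam k i) < 0 := by
      have h1 := crit_second lam k hk i hi''
      have h2 := crit_dp lam hl k hk i hi''
      set f := (tp lam k).eval (cr lam k i)
      set g := (derivative (derivative (tp lam k))).eval (cr lam k i)
      set d := (dp lam k).eval (cr lam k i)
      rcases lt_trichotomy f 0 with hf | hf | hf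
      · have hg : 0 < g := by
          by_contra hg
          push Not at hg
          nlinarith [mul_nonneg_of_nonpos_of_nonpos hf.le hg]
        have hd : d < 0 := by
          by_contra hd
          push Not at hd
          nlinarith [mul_nonpos_of_nonpos_of_nonneg hf.le hd]
        exact div_neg_of_neg_of_pos hd hg
      · rw [hf] at h1; simp at h1
      · have hg : g < 0 := by
          by_contra hg
          push Not at hg
          nlinarith [mul_nonneg hf.le hg]
        have hd : 0 < d := by
          by_contra hd
          push Not at hd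
          nlinarith [mul_nonpos_of_nonneg_of_nonpos hf.le hd]
        exact div_neg_of_pos_of_neg hd hg
    apply mul_le_mul_of_nonpos_left _ hc.le
    rcases hsep i hi'' with h | h
    · exact inv_anti₀ (by linarith) (by linarith)
    · exact inv_le_inv_of_neg (by linarith) (by linarith) |>.2 (by linarith)
  · intro i hi'
    rcases hsep i hi' with h | h
    · exact h.ne'
    · exact (hlh.trans h).ne
  · intro i hi'
    rcases hsep i hi' with h | h
    · exact (h.trans hlh).ne'
    · exact h.ne

end Pool.Agent.H22.Fib
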