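import Pool.Agent.H22.Fib.ModG

/-!
Module H: band lengths.
-/

set_option autoImplicit false

noncomputable section

open Polynomial Filter Topology

namespace Pool.Agent.H22.Fib

theorem modH_fib_pos (k : ℕ) (hk : 1 ≤ k) : 0 < Nat.fib k := Nat.fib_pos.2 hk

theorem modH_natDegree_sq (lam : ℝ) (k : ℕ) (hk : 1 ≤ k) :
    (tp lam k ^ 2 - C 4).natDegree = 2 * Nat.fib k := by
  rw [Polynomial.natDegree_sub_C, (tp_monic lam k hk).natDegree_pow, tp_natDegree lam k hk]

theorem modH_eval_sq (lam E : ℝ) (k : ℕ) :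
    (tp lam k ^ 2 - C 4).eval E = (tp lam k).eval E ^ 2 - 4 := by
  simp

theorem modH_contDiff (k : ℕ) :
    ContDiff ℝ 2 (fun x : ℝ × ℝ => (tp x.1 k ^ 2 - C 4).eval x.2) := by
  have : (fun x : ℝ × ℝ => (tp x.1 k ^ 2 - C 4).eval x.2)
      = fun x : ℝ × ℝ => (tp x.1 k).eval x.2 ^ 2 - 4 := by
    funext x
    exact modH_eval_sq x.1 x.2 k
  rw [this]
  exact ((contDiff_tp k).pow 2).sub contDiff_const

theorem modH_edge_continuousOn (k : ℕ) (hk : 1 ≤ k) (i : ℕ) (hi : i < 2 * Nat.fib k) :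
    ContinuousOn (fun l => srt (tp l k ^ 2 - C 4) i) (Set.Ioi 0) :=
  srt_continuousOn (fun l => tp l k ^ 2 - C 4) (2 * Nat.fib k) (Set.Ioi 0)
    (modH_contDiff k).continuous (fun l hl => card_edges l hl k hk)
    (fun l _ => modH_natDegree_sq l k hk) i hi

theorem modH_edge_sq (l : ℝ) (hl : 0 < l) (k : ℕ) (hk : 1 ≤ k) (i : ℕ) (hi : i < 2 * Nat.fib k) :
    (tp l k).eval (srt (tp l k ^ 2 - C 4) i) ^ 2 = 4 := by
  have h := srt_isRoot (card_edges l hl k hk) hi
  rw [modH_eval_sq] at h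
  linarith

theorem modH_edge_hasDerivAt (l0 : ℝ) (hl : 0 < l0) (k : ℕ) (hk : 1 ≤ k) (i : ℕ)
    (hi : i < 2 * Nat.fib k) :
    HasDerivAt (fun l => srt (tp l k ^ 2 - C 4) i)
      (-(dp l0 k).eval (srt (tp l0 k ^ 2 - C 4) i) /
        (derivative (tp l0 k)).eval (srt (tp l0 k ^ 2 - C 4) i)) l0 := by
  set r : ℝ → ℝ := fun l => srt (tp l k ^ 2 - C 4) i with hr
  have hsq : (tp l0 k).eval (r l0) ^ 2 = 4 := modH_edge_sq l0 hl k hk i hi
  have ht : (tp l0 k).eval (r l0) ≠ 0 := by
    intro h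
    rw [h] at hsq
    norm_num at hsq
  have habs : |(tp l0 k).eval (r l0)| ≤ 2 := by
    apply abs_le_of_sq_le_sq _ (by norm_num)
    rw [hsq]
    norm_num
  have hd : (derivative (tp l0 k)).eval (r l0) ≠ 0 := deriv_ne_of_le l0 _ hl.ne' k hk habs
  have h1 : HasDerivAt (fun l => (tp l k ^ 2 - C 4).eval (r l0))
      (2 * (tp l0 k).eval (r l0) * (dp l0 k).eval (r l0)) l0 := by
    have := ((hasDerivAt_tp k (r l0) l0).pow 2).sub_const 4
    have h2 : (fun l => (tp l k ^ 2 - C 4).eval (r l0))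
        = fun l => (tp l k).eval (r l0) ^ 2 - 4 := by
      funext l
      exact modH_eval_sq l _ k
    rw [h2]
    simpa using this
  have h2 : HasDerivAt (fun E => (tp l0 k ^ 2 - C 4).eval E)
      (2 * (tp l0 k).eval (r l0) * (derivative (tp l0 k)).eval (r l0)) (r l0) := by
    have := (((tp l0 k).hasDerivAt (r l0)).pow 2).sub_const 4
    have h2 : (fun E => (tp l0 k ^ 2 - C 4).eval E)
        = fun E => (tp l0 k).eval E ^ 2 - 4 := by
      funext E
      exact modH_eval_sq l0 _ k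
    rw [h2]
    simpa using this
  have hc : ContinuousAt r l0 :=
    (modH_edge_continuousOn k hk i hi).continuousAt (Ioi_mem_nhds hl)
  have h0 : ∀ᶠ l in 𝓝 l0, (fun x : ℝ × ℝ => (tp x.1 k ^ 2 - C 4).eval x.2) (l, r l) = 0 := by
    filter_upwards [Ioi_mem_nhds hl] with l hl'
    exact srt_isRoot (card_edges l hl' k hk) hi
  have := hasDerivAt_root (fun x : ℝ × ℝ => (tp x.1 k ^ 2 - C 4).eval x.2) r l0 0 _ _
    (((modH_contDiff k).of_le (by norm_num)).contDiffAt) h1 h2 hc h0
    (mul_ne_zero (mul_ne_zero two_ne_zero ht) hd)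
  have h3 : -(2 * (tp l0 k).eval (r l0) * (dp l0 k).eval (r l0)) /
      (2 * (tp l0 k).eval (r l0) * (derivative (tp l0 k)).eval (r l0)) =
      -(dp l0 k).eval (r l0) / (derivative (tp l0 k)).eval (r l0) := by
    field_simp
  rw [h3] at this
  exact this

theorem band_antitone (lam1 lam2 : ℝ) (h1 : 0 < lam1) (h2 : lam1 ≤ lam2) (k : ℕ) (hk : 1 ≤ k)
    (j : ℕ) (hj : j < Nat.fib k) :
    hi lam2 k j - lo lam2 k j ≤ hi lam1 k j - lo lam1 k j := by
  have hA : AntitoneOn (fun l => hi l k j - lo l k j) (Set.Ioi 0) := by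
    have hder : ∀ l : ℝ, 0 < l → HasDerivAt (fun l => hi l k j - lo l k j)
        (-(dp l k).eval (hi l k j) / (derivative (tp l k)).eval (hi l k j) -
          -(dp l k).eval (lo l k j) / (derivative (tp l k)).eval (lo l k j)) l := by
      intro l hl
      exact (modH_edge_hasDerivAt l hl k hk (2 * j + 1) (by omega)).sub
        (modH_edge_hasDerivAt l hl k hk (2 * j) (by omega))
    apply antitoneOn_of_deriv_nonpos (convex_Ioi 0)
    · intro l hl
      exact (hder l hl).continuousAt.continuousWithinAt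
    · intro l hl
      rw [interior_Ioi] at hl
      exact (hder l hl).differentiableAt.differentiableWithinAt
    · intro l hl
      rw [interior_Ioi] at hl
      rw [(hder l hl).deriv]
      have := velocity_le l hl k hk j hj
      linarith
  exact hA h1 (h1.trans_le h2) h2

/-- The end points of the intervals enclosing the bands: the critical points together with
`-2` and `2 + l`. -/
def modH_U (k : ℕ) (l : ℝ) (j : ℕ) : ℝ :=
  if j = 0 then -2 else if j = Nat.fib k then 2 + l else cr l k (j - 1)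

theorem modH_lo_ge (l : ℝ) (hl : 0 < l) (k : ℕ) (hk : 1 ≤ k) (j : ℕ) (hj : j < Nat.fib k) :
    modH_U k l j ≤ lo l k j := by
  unfold modH_U
  by_cases h0 : j = 0
  · rw [if_pos h0]
    have hr := band_rt l hl k hk j hj
    have : lo l k j ∈ sig l k := (sig_eq l hl k hk _).2 ⟨j, hj, le_refl _, (hr.1.trans hr.2).le⟩
    exact (sig_bound l _ hl.le k hk this).1
  · rw [if_neg h0, if_neg hj.ne]
    have := (band_gap l hl k hk (j - 1) (by omega)).2
    rw [Nat.sub_add_cancel (by omega)] at this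
    exact this.le

theorem modH_hi_le (l : ℝ) (hl : 0 < l) (k : ℕ) (hk : 1 ≤ k) (j : ℕ) (hj : j < Nat.fib k) :
    hi l k j ≤ modH_U k l (j + 1) := by
  unfold modH_U
  rw [if_neg (by omega)]
  by_cases h0 : j + 1 = Nat.fib k
  · rw [if_pos h0]
    have hr := band_rt l hl k hk j hj
    have : hi l k j ∈ sig l k := (sig_eq l hl k hk _).2 ⟨j, hj, (hr.1.trans hr.2).le, le_refl _⟩
    exact (sig_bound l _ hl.le k hk this).2
  · rw [if_neg h0]
    have := (band_gap l hl k hk j (by omega)).1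
    simpa using this.le

theorem modH_U_tendsto (k : ℕ) (hk : 1 ≤ k) (j : ℕ) (hj : j ≤ Nat.fib k) :
    Tendsto (fun l => modH_U k l j) (𝓝[>] 0)
      (𝓝 (2 * Real.cos (Real.pi * ((Nat.fib k : ℝ) - j) / Nat.fib k))) := by
  have hq : (Nat.fib k : ℝ) ≠ 0 := by exact_mod_cast (modH_fib_pos k hk).ne'
  unfold modH_U
  by_cases h0 : j = 0
  · simp only [if_pos h0]
    subst h0
    have : Real.pi * ((Nat.fib k : ℝ) - (0 : ℕ)) / Nat.fib k = Real.pi := by
      simp only [Nat.cast_zero, sub_zero]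
      field_simp
    rw [this, Real.cos_pi]
    norm_num
  · simp only [if_neg h0]
    by_cases h1 : j = Nat.fib k
    · simp only [if_pos h1]
      subst h1
      have : Real.pi * ((Nat.fib k : ℝ) - (Nat.fib k : ℝ)) / Nat.fib k = 0 := by simp
      rw [this, Real.cos_zero]
      have h2 : Tendsto (fun l : ℝ => 2 + l) (𝓝[>] 0) (𝓝 (2 + 0)) :=
        (tendsto_const_nhds.add tendsto_id).mono_left nhdsWithin_le_nhds
      simpa using h2
    · simp only [if_neg h1]
      have hcont : ContinuousOn (fun l => srt (derivative (tp l k)) (j - 1)) Set.univ :=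
        srt_continuousOn (fun l => derivative (tp l k)) (Nat.fib k - 1) Set.univ
          (contDiff_dtp k).continuous (fun l _ => card_crit l k hk)
          (fun l _ => by
            rw [Polynomial.natDegree_derivative, tp_natDegree l k hk]) (j - 1) (by omega)
      have h2 : Tendsto (fun l => cr l k (j - 1)) (𝓝[>] 0) (𝓝 (cr 0 k (j - 1))) := by
        have := (hcont.continuousAt Filter.univ_mem (x := 0)).tendsto
        exact this.mono_left nhdsWithin_le_nhds
      have h3 := crit_zero k hk (j - 1) (by omega)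
      have h4 : ((Nat.fib k : ℝ) - 1 - ((j - 1 : ℕ) : ℝ)) = (Nat.fib k : ℝ) - j := by
        rw [Nat.cast_sub (by omega)]
        push_cast
        ring
      rw [h4] at h3
      rw [← h3]
      exact h2

theorem modH_cos_sub (a b : ℝ) : Real.cos a - Real.cos b ≤ |a - b| := by
  have h := Real.cos_sub_cos a b
  have h1 : |Real.cos a - Real.cos b| ≤ |a - b| := by
    rw [h, abs_mul, abs_mul]
    have h2 : |Real.sin ((a + b) / 2)| ≤ 1 := Real.abs_sin_le_one _
    have h3 : |Real.sin ((a - b) / 2)| ≤ |(a - b) / 2| := Real.abs_sin_le_abs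
    have h4 : |(a - b) / 2| = |a - b| / 2 := by
      rw [abs_div]
      norm_num
    have h5 : |(-2 : ℝ)| = 2 := by norm_num
    rw [h5]
    rw [h4] at h3
    have h6 : 0 ≤ |Real.sin ((a + b) / 2)| := abs_nonneg _
    have h7 : 0 ≤ |Real.sin ((a - b) / 2)| := abs_nonneg _
    nlinarith
  exact (le_abs_self _).trans h1

theorem band_le (lam : ℝ) (hl : 0 < lam) (k : ℕ) (hk : 1 ≤ k) (j : ℕ) (hj : j < Nat.fib k) :
    hi lam k j - lo lam k j ≤ 2 * Real.pi / Nat.fib k := by
  have hq : (0 : ℝ) < Nat.fib k := by exact_mod_cast (modH_fib_pos k hk)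
  have h1 := (modH_U_tendsto k hk (j + 1) hj).sub (modH_U_tendsto k hk j hj.le)
  have h2 : hi lam k j - lo lam k j ≤
      2 * Real.cos (Real.pi * ((Nat.fib k : ℝ) - (j + 1 : ℕ)) / Nat.fib k) -
        2 * Real.cos (Real.pi * ((Nat.fib k : ℝ) - j) / Nat.fib k) := by
    apply ge_of_tendsto h1
    have h3 : Set.Ioo (0 : ℝ) lam ∈ 𝓝[>] (0 : ℝ) := Ioo_mem_nhdsGT hl
    filter_upwards [h3] with mu hmu
    have h4 := band_antitone mu lam hmu.1 hmu.2.le k hk j hj
    have h5 := modH_hi_le mu hmu.1 k hk j hj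
    have h6 := modH_lo_ge mu hmu.1 k hk j hj
    linarith
  have h7 := modH_cos_sub (Real.pi * ((Nat.fib k : ℝ) - (j + 1 : ℕ)) / Nat.fib k)
    (Real.pi * ((Nat.fib k : ℝ) - j) / Nat.fib k)
  have h8 : Real.pi * ((Nat.fib k : ℝ) - (j + 1 : ℕ)) / Nat.fib k -
    Real.pi * ((Nat.fib k : ℝ) - j) / Nat.fib k = -(Real.pi / Nat.fib k) := by
    push_cast
    field_simp
    ring
  rw [h8, abs_neg, abs_of_pos (by positivity)] at h7
  have h9 : 2 * Real.pi / Nat.fib k = 2 * (Real.pi / Nat.fib k) := by ring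
  rw [h9]
  linarith

end Pool.Agent.H22.Fib
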