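import Pool.Agent.H22.Fib.ModI

/-!
Module J: twisted cycles.
-/

set_option autoImplicit false

noncomputable section

open Polynomial Filter Topology

namespace Pool.Agent.H22.Fib

theorem cyc_herm (lam : ℝ) (w : List Bool) : (cyc lam w).IsHermitian := by
  ext i j
  rw [Matrix.conjTranspose_apply]
  unfold cyc
  simp only [star_add, RCLike.star_def]
  have h1 : (starRingEnd ℂ) (if j = i then (lv lam (w.get j) : ℂ) else 0) =
      if i = j then (lv lam (w.get i) : ℂ) else 0 := by
    by_cases h : i = j
    · subst h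
      rw [if_pos rfl, Complex.conj_ofReal]
    · rw [if_neg h, if_neg (Ne.symm h), map_zero]
  have h2 : (starRingEnd ℂ) (if (j : ℕ) + 1 = i then 1 else 0) =
      if (j : ℕ) + 1 = i then 1 else 0 := by
    split_ifs <;> simp
  have h3 : (starRingEnd ℂ) (if (i : ℕ) + 1 = j then 1 else 0) =
      if (i : ℕ) + 1 = j then 1 else 0 := by
    split_ifs <;> simp
  have h4 : (starRingEnd ℂ) (if (j : ℕ) + 1 = w.length ∧ (i : ℕ) = 0 then Complex.I else 0) =
      if (i : ℕ) = 0 ∧ (j : ℕ) + 1 = w.length then -Complex.I else 0 := by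
    by_cases h : (j : ℕ) + 1 = w.length ∧ (i : ℕ) = 0
    · rw [if_pos h, if_pos h.symm, Complex.conj_I]
    · rw [if_neg h, if_neg (fun h' => h h'.symm), map_zero]
  have h5 : (starRingEnd ℂ) (if (j : ℕ) = 0 ∧ (i : ℕ) + 1 = w.length then -Complex.I else 0) =
      if (i : ℕ) + 1 = w.length ∧ (j : ℕ) = 0 then Complex.I else 0 := by
    by_cases h : (j : ℕ) = 0 ∧ (i : ℕ) + 1 = w.length
    · rw [if_pos h, if_pos h.symm, map_neg, Complex.conj_I, neg_neg]
    · rw [if_neg h, if_neg (fun h' => h h'.symm), map_zero]
  rw [h1, h2, h3, h4, h5]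
  ring

/-- The operator of a twisted cycle in coordinates. -/
theorem modJ_mulVec (lam : ℝ) (w : List Bool) (hw : 0 < w.length) (v : Fin w.length → ℂ)
    (i : Fin w.length) : (cyc lam w).mulVec v i = lv lam (w.get i) * v i +
      (if h : (i : ℕ) + 1 < w.length then v ⟨i + 1, h⟩ else Complex.I * v ⟨0, hw⟩) +
      (if (i : ℕ) = 0 then -Complex.I * v ⟨w.length - 1, by omega⟩
        else v ⟨(i : ℕ) - 1, by omega⟩) := by
  have hi := i.2
  unfold Matrix.mulVec dotProduct cyc
  simp only [add_mul, Finset.sum_add_distrib]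
  have h1 : ∑ j, (if i = j then (lv lam (w.get i) : ℂ) else 0) * v j =
      lv lam (w.get i) * v i := by
    rw [Finset.sum_eq_single i]
    · rw [if_pos rfl]
    · intro j _ hj
      rw [if_neg (Ne.symm hj), zero_mul]
    · intro h
      exact absurd (Finset.mem_univ _) h
  have h2 : ∑ j : Fin w.length, (if (i : ℕ) + 1 = j then (1 : ℂ) else 0) * v j =
      if h : (i : ℕ) + 1 < w.length then v ⟨i + 1, h⟩ else 0 := by
    split_ifs with h
    · rw [Finset.sum_eq_single (⟨i + 1, h⟩ : Fin w.length)]
      · rw [if_pos rfl, one_mul]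
      · intro j _ hj
        rw [if_neg, zero_mul]
        intro h'
        exact hj (Fin.ext h'.symm)
      · intro h
        exact absurd (Finset.mem_univ _) h
    · refine Finset.sum_eq_zero fun j _ => ?_
      have := j.2
      rw [if_neg (by omega), zero_mul]
  have h3 : ∑ j : Fin w.length, (if (j : ℕ) + 1 = i then (1 : ℂ) else 0) * v j =
      if (i : ℕ) = 0 then 0 else v ⟨(i : ℕ) - 1, by omega⟩ := by
    split_ifs with h
    · refine Finset.sum_eq_zero fun j _ => ?_
      rw [if_neg (by omega), zero_mul]
    · rw [Finset.sum_eq_single (⟨(i : ℕ) - 1, by omega⟩ : Fin w.length)]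
      · rw [if_pos (by simp only; omega), one_mul]
      · intro j _ hj
        rw [if_neg, zero_mul]
        intro h'
        exact hj (Fin.ext (by simp only; omega))
      · intro h
        exact absurd (Finset.mem_univ _) h
  have h4 : ∑ j : Fin w.length, (if (i : ℕ) + 1 = w.length ∧ (j : ℕ) = 0 then Complex.I else 0) *
      v j = if (i : ℕ) + 1 < w.length then 0 else Complex.I * v ⟨0, hw⟩ := by
    split_ifs with h
    · refine Finset.sum_eq_zero fun j _ => ?_
      rw [if_neg (by omega), zero_mul]
    · rw [Finset.sum_eq_single (⟨0, hw⟩ : Fin w.length)]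
      · rw [if_pos ⟨by omega, rfl⟩]
      · intro j _ hj
        rw [if_neg, zero_mul]
        intro h'
        exact hj (Fin.ext h'.2)
      · intro h
        exact absurd (Finset.mem_univ _) h
  have h5 : ∑ j : Fin w.length, (if (i : ℕ) = 0 ∧ (j : ℕ) + 1 = w.length then -Complex.I else 0) *
      v j = if (i : ℕ) = 0 then -Complex.I * v ⟨w.length - 1, by omega⟩ else 0 := by
    split_ifs with h
    · rw [Finset.sum_eq_single (⟨w.length - 1, by omega⟩ : Fin w.length)]
      · rw [if_pos ⟨h, by simp only; omega⟩]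
      · intro j _ hj
        rw [if_neg, zero_mul]
        intro h'
        exact hj (Fin.ext (by simp only; omega))
      · intro h
        exact absurd (Finset.mem_univ _) h
    · refine Finset.sum_eq_zero fun j _ => ?_
      rw [if_neg (fun h' => h h'.1), zero_mul]
  rw [h1, h2, h3, h4, h5]
  split_ifs <;> ring

/-- The solution with the initial condition `u`. -/
def modJ_P (lam E : ℝ) (w : List Bool) (u : Fin 2 → ℂ) (i : ℕ) : Fin 2 → ℂ :=
  ((mon lam E (w.take i)).map (fun x : ℝ => (x : ℂ))).mulVec u

theorem modJ_P_zero (lam E : ℝ) (w : List Bool) (u : Fin 2 → ℂ) : modJ_P lam E w u 0 = u := by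
  unfold modJ_P
  rw [List.take_zero, mon]
  have h : (1 : Matrix (Fin 2) (Fin 2) ℝ).map (fun x : ℝ => (x : ℂ)) = 1 :=
    Matrix.map_one _ (by simp) (by simp)
  rw [h, Matrix.one_mulVec]

theorem modJ_P_succ (lam E : ℝ) (w : List Bool) (u : Fin 2 → ℂ) (i : ℕ) (hi : i < w.length) :
    modJ_P lam E w u (i + 1) 0 =
      ((E : ℂ) - lv lam (w.get ⟨i, hi⟩)) * modJ_P lam E w u i 0 - modJ_P lam E w u i 1 ∧
    modJ_P lam E w u (i + 1) 1 = modJ_P lam E w u i 0 := by
  have h : modJ_P lam E w u (i + 1) =
      ((tm (E - lv lam (w.get ⟨i, hi⟩))).map (fun x : ℝ => (x : ℂ))).mulVec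
        (modJ_P lam E w u i) := by
    unfold modJ_P
    have h1 : w.take (i + 1) = w.take i ++ [w.get ⟨i, hi⟩] := by
      rw [List.take_add_one, List.getElem?_eq_getElem hi]
      rfl
    rw [h1, mon_append, Matrix.mulVec_mulVec]
    have h2 : mon lam E [w.get ⟨i, hi⟩] = tm (E - lv lam (w.get ⟨i, hi⟩)) := by
      simp [mon]
    rw [h2]
    congr 1
    exact Matrix.map_mul (f := Complex.ofRealHom)
  rw [h]
  unfold tm
  constructor
  · simp [Matrix.mulVec, dotProduct, Fin.sum_univ_two]
    ring
  · simp [Matrix.mulVec, dotProduct, Fin.sum_univ_two]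

theorem modJ_det (lam E : ℝ) (w : List Bool) :
    ((mon lam E w).map (fun x : ℝ => (x : ℂ)) - Complex.I • (1 : Matrix (Fin 2) (Fin 2) ℂ)).det =
      -Complex.I * ((mon lam E w).trace : ℂ) := by
  have hd := mon_det lam E w
  rw [Matrix.det_fin_two] at hd ⊢
  rw [Matrix.trace_fin_two]
  have hd' : ((mon lam E w 0 0 : ℝ) : ℂ) * (mon lam E w 1 1 : ℝ) -
      (mon lam E w 0 1 : ℝ) * (mon lam E w 1 0 : ℝ) = 1 := by
    exact_mod_cast hd
  simp only [Matrix.sub_apply, Matrix.map_apply, Matrix.smul_apply, Matrix.one_apply_eq,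
    smul_eq_mul, mul_one, Complex.ofReal_add]
  rw [Matrix.one_apply_ne (by decide), Matrix.one_apply_ne (by decide)]
  linear_combination hd' + Complex.I_mul_I

theorem cyc_eig (lam E : ℝ) (w : List Bool) (hw : w ≠ []) :
    (∃ v : Fin w.length → ℂ, v ≠ 0 ∧ (cyc lam w).mulVec v = (E : ℂ) • v) ↔
      (mon lam E w).trace = 0 := by
  have hq : 0 < w.length := List.length_pos_of_ne_nil hw
  have htr : (mon lam E w).trace = 0 ↔ ∃ u : Fin 2 → ℂ, u ≠ 0 ∧
      ((mon lam E w).map (fun x : ℝ => (x : ℂ))).mulVec u = Complex.I • u := by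
    have h1 : (∃ u : Fin 2 → ℂ, u ≠ 0 ∧
        ((mon lam E w).map (fun x : ℝ => (x : ℂ)) -
          Complex.I • (1 : Matrix (Fin 2) (Fin 2) ℂ)).mulVec u = 0) ↔
        ((mon lam E w).map (fun x : ℝ => (x : ℂ)) -
          Complex.I • (1 : Matrix (Fin 2) (Fin 2) ℂ)).det = 0 :=
      Matrix.exists_mulVec_eq_zero_iff
    rw [modJ_det] at h1
    constructor
    · intro h
      obtain ⟨u, hu, hu'⟩ := h1.2 (by rw [h]; simp)
      refine ⟨u, hu, ?_⟩
      rw [Matrix.sub_mulVec, Matrix.smul_mulVec, Matrix.one_mulVec, sub_eq_zero] at hu'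
      exact hu'
    · rintro ⟨u, hu, hu'⟩
      have h2 := h1.1 ⟨u, hu, by
        rw [Matrix.sub_mulVec, Matrix.smul_mulVec, Matrix.one_mulVec, hu', sub_self]⟩
      rcases mul_eq_zero.1 h2 with h3 | h3
      · exact absurd h3 (neg_ne_zero.2 Complex.I_ne_zero)
      · exact_mod_cast h3
  rw [htr]
  have hlast : ∀ u, modJ_P lam E w u w.length =
      ((mon lam E w).map (fun x : ℝ => (x : ℂ))).mulVec u := by
    intro u
    unfold modJ_P
    rw [List.take_length]
  constructor
  · rintro ⟨v, hv, hev⟩
    -- the solution of the recursion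
    let u : Fin 2 → ℂ := ![v ⟨0, hq⟩, -Complex.I * v ⟨w.length - 1, by omega⟩]
    have key : ∀ i ≤ w.length, modJ_P lam E w u i 0 =
        (if h : i < w.length then v ⟨i, h⟩ else Complex.I * v ⟨0, hq⟩) ∧
        modJ_P lam E w u i 1 = (if h : i = 0 then -Complex.I * v ⟨w.length - 1, by omega⟩
          else if h' : i - 1 < w.length then v ⟨i - 1, h'⟩ else 0) := by
      intro i
      induction i with
      | zero =>
        intro _
        rw [modJ_P_zero, dif_pos hq, dif_pos rfl]
        exact ⟨rfl, rfl⟩
      | succ i ih =>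
        intro hi
        obtain ⟨h1, h2⟩ := ih (by omega)
        have hi' : i < w.length := by omega
        obtain ⟨h3, h4⟩ := modJ_P_succ lam E w u i hi'
        rw [dif_pos hi'] at h1
        have h5 := congrFun hev ⟨i, hi'⟩
        rw [modJ_mulVec lam w hq, Pi.smul_apply, smul_eq_mul] at h5
        simp only at h5
        constructor
        · rw [h3, h1, h2]
          by_cases h0 : i = 0
          · rw [dif_pos h0]
            rw [if_pos h0] at h5
            linear_combination (-1 : ℂ) * h5
          · rw [dif_neg h0, dif_pos (by omega)]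
            rw [if_neg h0] at h5
            linear_combination (-1 : ℂ) * h5
        · rw [h4, h1, dif_neg (by omega), dif_pos (by omega)]
          congr 1
    obtain ⟨h1, h2⟩ := key w.length le_rfl
    rw [dif_neg (lt_irrefl _)] at h1
    rw [dif_neg (by omega), dif_pos (by omega)] at h2
    refine ⟨u, ?_, ?_⟩
    · intro hu
      -- all values vanish
      apply hv
      have h0 : ∀ i, i ≤ w.length → modJ_P lam E w u i = 0 := by
        intro i _
        unfold modJ_P
        rw [hu, Matrix.mulVec_zero]
      funext i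
      have h3 := (key i i.2.le).1
      rw [h0 i i.2.le, dif_pos i.2] at h3
      exact h3.symm
    · rw [← hlast]
      funext j
      fin_cases j
      · change modJ_P lam E w u w.length 0 = Complex.I * v ⟨0, hq⟩
        exact h1
      · change modJ_P lam E w u w.length 1 =
          Complex.I * (-Complex.I * v ⟨w.length - 1, by omega⟩)
        rw [h2]
        linear_combination (v ⟨w.length - 1, by omega⟩) * Complex.I_mul_I
  · rintro ⟨u, hu, hu'⟩
    rw [← hlast] at hu'
    have e0 : modJ_P lam E w u w.length 0 = Complex.I * u 0 := congrFun hu' 0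
    have e1 : modJ_P lam E w u w.length 1 = Complex.I * u 1 := congrFun hu' 1
    have hP0 := modJ_P_zero lam E w u
    have hprev : modJ_P lam E w u (w.length - 1) 0 = modJ_P lam E w u w.length 1 := by
      have h1 := (modJ_P_succ lam E w u (w.length - 1) (by omega)).2
      have h2 : w.length - 1 + 1 = w.length := by omega
      rw [h2] at h1
      exact h1.symm
    refine ⟨fun i => modJ_P lam E w u i 0, ?_, ?_⟩
    · intro h0
      apply hu
      have h1 : u 0 = 0 := by
        have := congrFun h0 ⟨0, hq⟩
        simp only [hP0] at this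
        exact this
      have h2 : u 1 = 0 := by
        have h3 := congrFun h0 ⟨w.length - 1, by omega⟩
        simp only at h3
        rw [hprev, e1] at h3
        rcases mul_eq_zero.1 h3 with h4 | h4
        · exact absurd h4 Complex.I_ne_zero
        · exact h4
      funext j
      fin_cases j
      · exact h1
      · exact h2
    · funext i
      rw [modJ_mulVec lam w hq, Pi.smul_apply, smul_eq_mul]
      obtain ⟨h3, h4⟩ := modJ_P_succ lam E w u i i.2
      have hnext : (if h : (i : ℕ) + 1 < w.length then modJ_P lam E w u ((i : ℕ) + 1) 0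
          else Complex.I * modJ_P lam E w u 0 0) = modJ_P lam E w u (i + 1) 0 := by
        split_ifs with h
        · rfl
        · have h5 : (i : ℕ) + 1 = w.length := by
            have := i.2
            omega
          rw [h5, e0, hP0]
      have hprv : (if (i : ℕ) = 0 then -Complex.I * modJ_P lam E w u (w.length - 1) 0
          else modJ_P lam E w u ((i : ℕ) - 1) 0) = modJ_P lam E w u i 1 := by
        split_ifs with h
        · rw [hprev, e1, h, hP0]
          linear_combination (-(u 1)) * Complex.I_mul_I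
        · have h5 := (modJ_P_succ lam E w u ((i : ℕ) - 1) (by
            have := i.2
            omega)).2
          have h6 : (i : ℕ) - 1 + 1 = i := by omega
          rw [h6] at h5
          exact h5.symm
      simp only
      rw [hnext, hprv, h3]
      ring

end Pool.Agent.H22.Fib
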