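import Pool.Agent.H22.Fib.ModJ

/-!
Module K1: eigenvalue counting and concatenation.
-/

set_option autoImplicit false

noncomputable section

open Polynomial Filter Topology

namespace Pool.Agent.H22.Fib

/-! ### Quadratic forms in eigencoordinates -/

section

variable {n : Type*} [Fintype n] [DecidableEq n]

/-- The coordinates in an orthonormal basis of eigenvectors. -/
def k1_coord {A : Matrix n n ℂ} (hA : A.IsHermitian) (v : n → ℂ) : n → ℂ :=
  (star (hA.eigenvectorUnitary : Matrix n n ℂ)).mulVec v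

theorem k1_coord_sum {A : Matrix n n ℂ} (hA : A.IsHermitian) (v : n → ℂ) (j : n) :
    k1_coord hA v j = ∑ i, (star (hA.eigenvectorUnitary : Matrix n n ℂ)) j i * v i := rfl

theorem k1_back {A : Matrix n n ℂ} (hA : A.IsHermitian) (v : n → ℂ) :
    (hA.eigenvectorUnitary : Matrix n n ℂ).mulVec (k1_coord hA v) = v := by
  unfold k1_coord
  rw [Matrix.mulVec_mulVec]
  have h : (hA.eigenvectorUnitary : Matrix n n ℂ) *
      star (hA.eigenvectorUnitary : Matrix n n ℂ) = 1 :=
    Unitary.mul_star_self_of_mem hA.eigenvectorUnitary.2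
  rw [h, Matrix.one_mulVec]

omit [DecidableEq n] in
theorem k1_star_dot (x : n → ℂ) : star x ⬝ᵥ x = ((∑ j, Complex.normSq (x j) : ℝ) : ℂ) := by
  unfold dotProduct
  push_cast
  refine Finset.sum_congr rfl fun j _ => ?_
  rw [Pi.star_apply, Complex.normSq_eq_conj_mul_self]
  rfl

omit [DecidableEq n] in
theorem k1_star_mulVec (U : Matrix n n ℂ) (v w : n → ℂ) :
    star v ⬝ᵥ U.mulVec w = star ((star U).mulVec v) ⬝ᵥ w := by
  rw [Matrix.star_mulVec, Matrix.dotProduct_mulVec]
  congr 2
  rw [Matrix.star_eq_conjTranspose, Matrix.conjTranspose_conjTranspose]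

theorem k1_norm {A : Matrix n n ℂ} (hA : A.IsHermitian) (v : n → ℂ) :
    ∑ j, Complex.normSq (v j) = ∑ j, Complex.normSq (k1_coord hA v j) := by
  have h1 : star v ⬝ᵥ v = star (k1_coord hA v) ⬝ᵥ k1_coord hA v := by
    conv_lhs =>
      rhs
      rw [← k1_back hA v]
    rw [k1_star_mulVec]
    rfl
  rw [k1_star_dot, k1_star_dot] at h1
  exact_mod_cast h1

theorem k1_form {A : Matrix n n ℂ} (hA : A.IsHermitian) (v : n → ℂ) :
    star v ⬝ᵥ A.mulVec v =
      ((∑ j, hA.eigenvalues j * Complex.normSq (k1_coord hA v j) : ℝ) : ℂ) := by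
  have h1 : A.mulVec v = (hA.eigenvectorUnitary : Matrix n n ℂ).mulVec
      ((Matrix.diagonal (RCLike.ofReal ∘ hA.eigenvalues)).mulVec (k1_coord hA v)) := by
    conv_lhs => rw [hA.spectral_theorem]
    rw [Unitary.conjStarAlgAut_apply]
    unfold k1_coord
    rw [Matrix.mulVec_mulVec, Matrix.mulVec_mulVec, Matrix.mul_assoc]
  rw [h1, k1_star_mulVec]
  change star (k1_coord hA v) ⬝ᵥ _ = _
  unfold dotProduct
  push_cast
  refine Finset.sum_congr rfl fun j _ => ?_
  rw [Matrix.mulVec_diagonal, Pi.star_apply, Complex.normSq_eq_conj_mul_self]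
  simp only [Function.comp_apply, RCLike.star_def]
  change (starRingEnd ℂ) (k1_coord hA v j) * ((hA.eigenvalues j : ℂ) * k1_coord hA v j) = _
  ring

theorem k1_ge {A : Matrix n n ℂ} (hA : A.IsHermitian) {E : ℝ} {v : n → ℂ}
    (h : ∀ j, hA.eigenvalues j < E → k1_coord hA v j = 0) :
    E * ∑ j, Complex.normSq (v j) ≤ (star v ⬝ᵥ A.mulVec v).re := by
  rw [k1_form, Complex.ofReal_re, k1_norm hA, Finset.mul_sum]
  refine Finset.sum_le_sum fun j _ => ?_
  by_cases hj : hA.eigenvalues j < E
  · rw [h j hj]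
    simp
  · exact mul_le_mul_of_nonneg_right (not_lt.1 hj) (Complex.normSq_nonneg _)

theorem k1_le {A : Matrix n n ℂ} (hA : A.IsHermitian) {E : ℝ} {v : n → ℂ}
    (h : ∀ j, E ≤ hA.eigenvalues j → k1_coord hA v j = 0) :
    (star v ⬝ᵥ A.mulVec v).re ≤ E * ∑ j, Complex.normSq (v j) := by
  rw [k1_form, Complex.ofReal_re, k1_norm hA, Finset.mul_sum]
  refine Finset.sum_le_sum fun j _ => ?_
  by_cases hj : E ≤ hA.eigenvalues j
  · rw [h j hj]
    simp
  · exact mul_le_mul_of_nonneg_right (not_le.1 hj).le (Complex.normSq_nonneg _)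

theorem k1_lt {A : Matrix n n ℂ} (hA : A.IsHermitian) {E : ℝ} {v : n → ℂ} (hv : v ≠ 0)
    (h : ∀ j, E ≤ hA.eigenvalues j → k1_coord hA v j = 0) :
    (star v ⬝ᵥ A.mulVec v).re < E * ∑ j, Complex.normSq (v j) := by
  have hne : ∃ j, k1_coord hA v j ≠ 0 := by
    by_contra hall
    push Not at hall
    apply hv
    rw [← k1_back hA v]
    have h0 : k1_coord hA v = 0 := funext hall
    rw [h0, Matrix.mulVec_zero]
  obtain ⟨j, hj⟩ := hne
  rw [k1_form, Complex.ofReal_re, k1_norm hA, Finset.mul_sum]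
  refine Finset.sum_lt_sum (fun j _ => ?_) ⟨j, Finset.mem_univ _, ?_⟩
  · by_cases hj : E ≤ hA.eigenvalues j
    · rw [h j hj]
      simp
    · exact mul_le_mul_of_nonneg_right (not_le.1 hj).le (Complex.normSq_nonneg _)
  · have h1 : hA.eigenvalues j < E := by
      by_contra h2
      exact hj (h j (not_lt.1 h2))
    exact mul_lt_mul_of_pos_right h1 (Complex.normSq_pos.2 hj)

end

/-- A homogeneous linear system with fewer equations than unknowns. -/
theorem k1_exists {n κ : Type*} [Fintype n] [Fintype κ] (M : κ → n → ℂ)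
    (h : Fintype.card κ < Fintype.card n) : ∃ v : n → ℂ, v ≠ 0 ∧ ∀ x, ∑ i, M x i * v i = 0 := by
  classical
  have h1 : LinearMap.ker (Matrix.mulVecLin (Matrix.of M)) ≠ ⊥ := by
    apply LinearMap.ker_ne_bot_of_finrank_lt
    rw [Module.finrank_fintype_fun_eq_card, Module.finrank_fintype_fun_eq_card]
    exact h
  obtain ⟨v, hv, hv0⟩ := Submodule.exists_mem_ne_zero_of_ne_bot h1
  refine ⟨v, hv0, fun x => ?_⟩
  rw [LinearMap.mem_ker, Matrix.mulVecLin_apply] at hv
  exact congrFun hv x

/-! ### Concatenation -/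

section

variable (w w' : List Bool)

/-- The first block of indices. -/
def k1_e1 (i : Fin w.length) : Fin (w ++ w').length :=
  ⟨i, by rw [List.length_append]; omega⟩

/-- The second block of indices. -/
def k1_e2 (i : Fin w'.length) : Fin (w ++ w').length :=
  ⟨w.length + i, by rw [List.length_append]; omega⟩

theorem k1_sum {M : Type*} [AddCommMonoid M] (F : Fin (w ++ w').length → M) :
    ∑ i, F i = ∑ i, F (k1_e1 w w' i) + ∑ i, F (k1_e2 w w' i) := by
  have h : w.length + w'.length = (w ++ w').length := by rw [List.length_append]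
  rw [← (finCongr h).sum_comp, Fin.sum_univ_add]
  rfl

variable {w w'}

theorem k1_entry11 (lam : ℝ) (hw' : w' ≠ []) {i j : Fin w.length} (hi : (i : ℕ) + 1 ≠ w.length)
    (hj : (j : ℕ) + 1 ≠ w.length) :
    cyc lam (w ++ w') (k1_e1 w w' i) (k1_e1 w w' j) = cyc lam w i j := by
  have hb : 0 < w'.length := List.length_pos_of_ne_nil hw'
  have hlen : (w ++ w').length = w.length + w'.length := List.length_append
  have hget : (w ++ w').get (k1_e1 w w' i) = w.get i := by
    simp [k1_e1, List.getElem_append_left]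
  unfold cyc
  rw [hget]
  have h1 : (k1_e1 w w' i = k1_e1 w w' j) = (i = j) := by
    simp [k1_e1, Fin.ext_iff]
  have h2 : ((k1_e1 w w' i : ℕ) + 1 = k1_e1 w w' j) = ((i : ℕ) + 1 = j) := rfl
  have h3 : ((k1_e1 w w' j : ℕ) + 1 = k1_e1 w w' i) = ((j : ℕ) + 1 = i) := rfl
  have h4 : ¬ ((k1_e1 w w' i : ℕ) + 1 = (w ++ w').length ∧ (k1_e1 w w' j : ℕ) = 0) := by
    rintro ⟨h, -⟩
    have h5 : (k1_e1 w w' i : ℕ) = i := rfl
    omega
  have h4' : ¬ ((i : ℕ) + 1 = w.length ∧ (j : ℕ) = 0) := fun h => hi h.1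
  have h5 : ¬ ((k1_e1 w w' i : ℕ) = 0 ∧ (k1_e1 w w' j : ℕ) + 1 = (w ++ w').length) := by
    rintro ⟨-, h⟩
    have h5 : (k1_e1 w w' j : ℕ) = j := rfl
    omega
  have h5' : ¬ ((i : ℕ) = 0 ∧ (j : ℕ) + 1 = w.length) := fun h => hj h.2
  rw [if_neg h4, if_neg h4', if_neg h5, if_neg h5']
  simp only [h1, h2, h3]

theorem k1_entry22 (lam : ℝ) (hw : w ≠ []) {i j : Fin w'.length}
    (hi : (i : ℕ) + 1 ≠ w'.length) (hj : (j : ℕ) + 1 ≠ w'.length) :
    cyc lam (w ++ w') (k1_e2 w w' i) (k1_e2 w w' j) = cyc lam w' i j := by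
  have hb : 0 < w.length := List.length_pos_of_ne_nil hw
  have hlen : (w ++ w').length = w.length + w'.length := List.length_append
  have hget : (w ++ w').get (k1_e2 w w' i) = w'.get i := by
    simp [k1_e2]
  unfold cyc
  rw [hget]
  have hv : ∀ i : Fin w'.length, (k1_e2 w w' i : ℕ) = w.length + i := fun _ => rfl
  have h1 : (k1_e2 w w' i = k1_e2 w w' j) = (i = j) := by
    simp [k1_e2, Fin.ext_iff]
  have h2 : ((k1_e2 w w' i : ℕ) + 1 = k1_e2 w w' j) = ((i : ℕ) + 1 = j) := by
    rw [hv, hv]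
    apply propext
    omega
  have h3 : ((k1_e2 w w' j : ℕ) + 1 = k1_e2 w w' i) = ((j : ℕ) + 1 = i) := by
    rw [hv, hv]
    apply propext
    omega
  have h4 : ¬ ((k1_e2 w w' i : ℕ) + 1 = (w ++ w').length ∧ (k1_e2 w w' j : ℕ) = 0) := by
    rintro ⟨-, h⟩
    rw [hv] at h
    omega
  have h4' : ¬ ((i : ℕ) + 1 = w'.length ∧ (j : ℕ) = 0) := fun h => hi h.1
  have h5 : ¬ ((k1_e2 w w' i : ℕ) = 0 ∧ (k1_e2 w w' j : ℕ) + 1 = (w ++ w').length) := by
    rintro ⟨h, -⟩
    rw [hv] at h
    omega
  have h5' : ¬ ((i : ℕ) = 0 ∧ (j : ℕ) + 1 = w'.length) := fun h => hj h.2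
  rw [if_neg h4, if_neg h4', if_neg h5, if_neg h5']
  simp only [h1, h2, h3]

theorem k1_entry12 (lam : ℝ) {i : Fin w.length} {j : Fin w'.length}
    (hi : (i : ℕ) + 1 ≠ w.length) (hj : (j : ℕ) + 1 ≠ w'.length) :
    cyc lam (w ++ w') (k1_e1 w w' i) (k1_e2 w w' j) = 0 := by
  have hlen : (w ++ w').length = w.length + w'.length := List.length_append
  unfold cyc
  have hv1 : (k1_e1 w w' i : ℕ) = i := rfl
  have hv2 : (k1_e2 w w' j : ℕ) = w.length + j := rfl
  have := i.2
  have := j.2
  rw [if_neg (fun h => by rw [Fin.ext_iff, hv1, hv2] at h; omega),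
    if_neg (fun h => by rw [hv1, hv2] at h; omega),
    if_neg (fun h => by rw [hv1, hv2] at h; omega),
    if_neg (fun h => by rw [hv1, hv2] at h; omega),
    if_neg (fun h => by rw [hv1, hv2] at h; omega)]
  simp

theorem k1_entry21 (lam : ℝ) {i : Fin w'.length} {j : Fin w.length}
    (hi : (i : ℕ) + 1 ≠ w'.length) (hj : (j : ℕ) + 1 ≠ w.length) :
    cyc lam (w ++ w') (k1_e2 w w' i) (k1_e1 w w' j) = 0 := by
  have hlen : (w ++ w').length = w.length + w'.length := List.length_append
  unfold cyc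
  have hv1 : (k1_e1 w w' j : ℕ) = j := rfl
  have hv2 : (k1_e2 w w' i : ℕ) = w.length + i := rfl
  have := i.2
  have := j.2
  rw [if_neg (fun h => by rw [Fin.ext_iff, hv1, hv2] at h; omega),
    if_neg (fun h => by rw [hv1, hv2] at h; omega),
    if_neg (fun h => by rw [hv1, hv2] at h; omega),
    if_neg (fun h => by rw [hv1, hv2] at h; omega),
    if_neg (fun h => by rw [hv1, hv2] at h; omega)]
  simp

theorem k1_split (lam : ℝ) (hw : w ≠ []) (hw' : w' ≠ []) (v : Fin (w ++ w').length → ℂ)
    (h1 : ∀ i : Fin w.length, (i : ℕ) + 1 = w.length → v (k1_e1 w w' i) = 0)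
    (h2 : ∀ i : Fin w'.length, (i : ℕ) + 1 = w'.length → v (k1_e2 w w' i) = 0) :
    star v ⬝ᵥ (cyc lam (w ++ w')).mulVec v =
      star (fun i => v (k1_e1 w w' i)) ⬝ᵥ (cyc lam w).mulVec (fun i => v (k1_e1 w w' i)) +
      star (fun i => v (k1_e2 w w' i)) ⬝ᵥ (cyc lam w').mulVec (fun i => v (k1_e2 w w' i)) := by
  have hexp : ∀ {m : Type} [Fintype m] (x : m → ℂ) (A : Matrix m m ℂ),
      star x ⬝ᵥ A.mulVec x = ∑ i, ∑ j, star (x i) * (A i j * x j) := by
    intro m _ x A
    unfold dotProduct Matrix.mulVec dotProduct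
    refine Finset.sum_congr rfl fun i _ => ?_
    rw [Finset.mul_sum]
    rfl
  rw [hexp, hexp, hexp, k1_sum w w']
  congr 1
  · refine Finset.sum_congr rfl fun i _ => ?_
    rw [k1_sum w w', Finset.sum_eq_zero (s := Finset.univ) (f := fun j : Fin w'.length =>
      star (v (k1_e1 w w' i)) * (cyc lam (w ++ w') (k1_e1 w w' i) (k1_e2 w w' j) *
        v (k1_e2 w w' j))), add_zero]
    · refine Finset.sum_congr rfl fun j _ => ?_
      by_cases hi : (i : ℕ) + 1 = w.length
      · rw [h1 i hi]
        simp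
      · by_cases hj : (j : ℕ) + 1 = w.length
        · rw [h1 j hj]
          simp
        · rw [k1_entry11 lam hw' hi hj]
    · intro j _
      by_cases hi : (i : ℕ) + 1 = w.length
      · rw [h1 i hi]
        simp
      · by_cases hj : (j : ℕ) + 1 = w'.length
        · rw [h2 j hj]
          simp
        · rw [k1_entry12 lam hi hj]
          simp
  · refine Finset.sum_congr rfl fun i _ => ?_
    rw [k1_sum w w', Finset.sum_eq_zero (s := Finset.univ) (f := fun j : Fin w.length =>
      star (v (k1_e2 w w' i)) * (cyc lam (w ++ w') (k1_e2 w w' i) (k1_e1 w w' j) *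
        v (k1_e1 w w' j))), zero_add]
    · refine Finset.sum_congr rfl fun j _ => ?_
      by_cases hi : (i : ℕ) + 1 = w'.length
      · rw [h2 i hi]
        simp
      · by_cases hj : (j : ℕ) + 1 = w'.length
        · rw [h2 j hj]
          simp
        · rw [k1_entry22 lam hw hi hj]
    · intro j _
      by_cases hi : (i : ℕ) + 1 = w'.length
      · rw [h2 i hi]
        simp
      · by_cases hj : (j : ℕ) + 1 = w.length
        · rw [h1 j hj]
          simp
        · rw [k1_entry21 lam hi hj]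
          simp

/-- The linear conditions: coordinates with index in `S₁`, `S₂`, `S` and two last entries. -/
theorem k1_cond (lam : ℝ) (hw : w ≠ []) (hw' : w' ≠ []) (S₁ : Finset (Fin w.length))
    (S₂ : Finset (Fin w'.length)) (S : Finset (Fin (w ++ w').length))
    (h : S₁.card + S₂.card + S.card + 2 < (w ++ w').length) :
    ∃ v : Fin (w ++ w').length → ℂ, v ≠ 0 ∧
      (∀ i : Fin w.length, (i : ℕ) + 1 = w.length → v (k1_e1 w w' i) = 0) ∧
      (∀ i : Fin w'.length, (i : ℕ) + 1 = w'.length → v (k1_e2 w w' i) = 0) ∧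
      (∀ j ∈ S₁, k1_coord (cyc_herm lam w) (fun i => v (k1_e1 w w' i)) j = 0) ∧
      (∀ j ∈ S₂, k1_coord (cyc_herm lam w') (fun i => v (k1_e2 w w' i)) j = 0) ∧
      (∀ j ∈ S, k1_coord (cyc_herm lam (w ++ w')) v j = 0) := by
  classical
  have ha : 0 < w.length := List.length_pos_of_ne_nil hw
  have hb : 0 < w'.length := List.length_pos_of_ne_nil hw'
  -- a linear map
  let φ : (Fin (w ++ w').length → ℂ) →ₗ[ℂ]
      ((S₁ → ℂ) × (S₂ → ℂ) × (S → ℂ) × ℂ × ℂ) :=
    { toFun := fun v => (fun j => k1_coord (cyc_herm lam w) (fun i => v (k1_e1 w w' i)) j,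
        fun j => k1_coord (cyc_herm lam w') (fun i => v (k1_e2 w w' i)) j,
        fun j => k1_coord (cyc_herm lam (w ++ w')) v j,
        v (k1_e1 w w' ⟨w.length - 1, by omega⟩), v (k1_e2 w w' ⟨w'.length - 1, by omega⟩))
      map_add' := by
        intro x y
        simp only [k1_coord_sum, Pi.add_apply, mul_add, Finset.sum_add_distrib, Prod.mk_add_mk]
        rfl
      map_smul' := by
        intro c x
        simp only [k1_coord_sum, Pi.smul_apply, smul_eq_mul, RingHom.id_apply, Prod.smul_mk]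
        refine Prod.ext ?_ (Prod.ext ?_ (Prod.ext ?_ rfl))
        · funext j
          simp only [Pi.smul_apply, smul_eq_mul, Finset.mul_sum]
          exact Finset.sum_congr rfl fun i _ => by ring
        · funext j
          simp only [Pi.smul_apply, smul_eq_mul, Finset.mul_sum]
          exact Finset.sum_congr rfl fun i _ => by ring
        · funext j
          simp only [Pi.smul_apply, smul_eq_mul, Finset.mul_sum]
          exact Finset.sum_congr rfl fun i _ => by ring }
  have hker : LinearMap.ker φ ≠ ⊥ := by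
    apply LinearMap.ker_ne_bot_of_finrank_lt
    rw [Module.finrank_prod, Module.finrank_prod, Module.finrank_prod, Module.finrank_prod,
      Module.finrank_fintype_fun_eq_card, Module.finrank_fintype_fun_eq_card,
      Module.finrank_fintype_fun_eq_card, Module.finrank_fintype_fun_eq_card,
      Module.finrank_self, Fintype.card_coe, Fintype.card_coe, Fintype.card_coe,
      Fintype.card_fin]
    omega
  obtain ⟨v, hv, hv0⟩ := Submodule.exists_mem_ne_zero_of_ne_bot hker
  rw [LinearMap.mem_ker] at hv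
  have e1 := congrArg Prod.fst hv
  have e2 := congrArg (fun x => x.2.1) hv
  have e3 := congrArg (fun x => x.2.2.1) hv
  have e4 := congrArg (fun x => x.2.2.2.1) hv
  have e5 := congrArg (fun x => x.2.2.2.2) hv
  refine ⟨v, hv0, ?_, ?_, ?_, ?_, ?_⟩
  · intro i hi
    have h1 : i = ⟨w.length - 1, by omega⟩ := Fin.ext (by simp only; omega)
    rw [h1]
    exact e4
  · intro i hi
    have h1 : i = ⟨w'.length - 1, by omega⟩ := Fin.ext (by simp only; omega)
    rw [h1]
    exact e5
  · intro j hj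
    exact congrFun e1 ⟨j, hj⟩
  · intro j hj
    exact congrFun e2 ⟨j, hj⟩
  · intro j hj
    exact congrFun e3 ⟨j, hj⟩

end

theorem k1_card_filter {n : ℕ} (p : Fin n → Prop) [DecidablePred p] :
    (Finset.univ.filter p).card + (Finset.univ.filter fun i => ¬ p i).card = n := by
  rw [Finset.card_filter_add_card_filter_not]
  simp

theorem cyc_append (lam : ℝ) (w w' : List Bool) (hw : w ≠ []) (hw' : w' ≠ []) (E : ℝ) :
    |((Finset.univ.filter (fun i => (cyc_herm lam (w ++ w')).eigenvalues i < E)).card : ℤ)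
      - (Finset.univ.filter (fun i => (cyc_herm lam w).eigenvalues i < E)).card
      - (Finset.univ.filter (fun i => (cyc_herm lam w').eigenvalues i < E)).card| ≤ 2 := by
  classical
  have hlen : (w ++ w').length = w.length + w'.length := List.length_append
  have c1 := k1_card_filter fun i => (cyc_herm lam w).eigenvalues i < E
  have c2 := k1_card_filter fun i => (cyc_herm lam w').eigenvalues i < E
  have c3 := k1_card_filter fun i => (cyc_herm lam (w ++ w')).eigenvalues i < E
  rw [abs_le]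
  constructor
  · by_contra hcon
    push Not at hcon
    obtain ⟨v, hv, hl1, hl2, h1, h2, h3⟩ := k1_cond lam hw hw'
      (Finset.univ.filter fun i => ¬ (cyc_herm lam w).eigenvalues i < E)
      (Finset.univ.filter fun i => ¬ (cyc_herm lam w').eigenvalues i < E)
      (Finset.univ.filter fun i => (cyc_herm lam (w ++ w')).eigenvalues i < E) (by omega)
    have hs := k1_split lam hw hw' v hl1 hl2
    have hge := k1_ge (cyc_herm lam (w ++ w')) (E := E) (v := v)
      (fun j hj => h3 j (Finset.mem_filter.2 ⟨Finset.mem_univ _, hj⟩))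
    have hn := k1_sum w w' fun i => Complex.normSq (v i)
    have hle1 := k1_le (cyc_herm lam w) (E := E) (v := fun i => v (k1_e1 w w' i))
      (fun j hj => h1 j (Finset.mem_filter.2 ⟨Finset.mem_univ _, not_lt.2 hj⟩))
    have hle2 := k1_le (cyc_herm lam w') (E := E) (v := fun i => v (k1_e2 w w' i))
      (fun j hj => h2 j (Finset.mem_filter.2 ⟨Finset.mem_univ _, not_lt.2 hj⟩))
    have hne : (fun i => v (k1_e1 w w' i)) ≠ 0 ∨ (fun i => v (k1_e2 w w' i)) ≠ 0 := by
      by_contra hall
      push Not at hall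
      have h0 : ∑ i, Complex.normSq (v i) = 0 := by
        rw [hn]
        have e1 : ∀ i, v (k1_e1 w w' i) = 0 := fun i => congrFun hall.1 i
        have e2 : ∀ i, v (k1_e2 w w' i) = 0 := fun i => congrFun hall.2 i
        simp [e1, e2]
      apply hv
      funext i
      have h4 := (Finset.sum_eq_zero_iff_of_nonneg
        (fun i _ => Complex.normSq_nonneg (v i))).1 h0 i (Finset.mem_univ _)
      exact Complex.normSq_eq_zero.1 h4
    rw [hs, Complex.add_re, hn, mul_add] at hge
    rcases hne with hne | hne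
    · have hlt := k1_lt (cyc_herm lam w) (E := E) hne
        (fun j hj => h1 j (Finset.mem_filter.2 ⟨Finset.mem_univ _, not_lt.2 hj⟩))
      linarith
    · have hlt := k1_lt (cyc_herm lam w') (E := E) hne
        (fun j hj => h2 j (Finset.mem_filter.2 ⟨Finset.mem_univ _, not_lt.2 hj⟩))
      linarith
  · by_contra hcon
    push Not at hcon
    obtain ⟨v, hv, hl1, hl2, h1, h2, h3⟩ := k1_cond lam hw hw'
      (Finset.univ.filter fun i => (cyc_herm lam w).eigenvalues i < E)
      (Finset.univ.filter fun i => (cyc_herm lam w').eigenvalues i < E)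
      (Finset.univ.filter fun i => ¬ (cyc_herm lam (w ++ w')).eigenvalues i < E) (by omega)
    have hs := k1_split lam hw hw' v hl1 hl2
    have hlt := k1_lt (cyc_herm lam (w ++ w')) (E := E) hv
      (fun j hj => h3 j (Finset.mem_filter.2 ⟨Finset.mem_univ _, not_lt.2 hj⟩))
    have hn := k1_sum w w' fun i => Complex.normSq (v i)
    have hge1 := k1_ge (cyc_herm lam w) (E := E) (v := fun i => v (k1_e1 w w' i))
      (fun j hj => h1 j (Finset.mem_filter.2 ⟨Finset.mem_univ _, hj⟩))
    have hge2 := k1_ge (cyc_herm lam w') (E := E) (v := fun i => v (k1_e2 w w' i))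
      (fun j hj => h2 j (Finset.mem_filter.2 ⟨Finset.mem_univ _, hj⟩))
    rw [hs, Complex.add_re, hn, mul_add] at hlt
    linarith

end Pool.Agent.H22.Fib
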