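import Pool.Agent.H22.Fib.ModD
import Pool.Agent.H22.Fib.ModK1

/-!
Module K2: the roots of the trace polynomial are the eigenvalues of the cycle.
-/

set_option autoImplicit false

noncomputable section

open Polynomial Filter Topology

namespace Pool.Agent.H22.Fib

section General

variable {m : Type} [Fintype m] [DecidableEq m] {A : Matrix m m ℂ} (hA : A.IsHermitian)

include hA

private lemma modK2_inner (j : m) (x : EuclideanSpace ℂ m) :
    inner ℂ (hA.eigenvectorBasis j) (Matrix.toEuclideanLin A x) =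
      (hA.eigenvalues j : ℂ) * inner ℂ (hA.eigenvectorBasis j) x := by
  have hT := Matrix.isSymmetric_toEuclideanLin_iff.mpr hA
  rw [← hT (hA.eigenvectorBasis j) x]
  have h1 : Matrix.toEuclideanLin A (hA.eigenvectorBasis j) =
      (hA.eigenvalues j : ℂ) • hA.eigenvectorBasis j := by
    have h2 := hA.mulVec_eigenvectorBasis j
    ext i
    have h3 := congrFun h2 i
    rw [Matrix.toLpLin_apply]
    simpa using h3
  rw [h1, inner_smul_left, Complex.conj_ofReal]

private lemma modK2_norm (x : EuclideanSpace ℂ m) (E : ℝ) :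
    ‖Matrix.toEuclideanLin A x - (E : ℂ) • x‖ ^ 2 =
      ∑ j, (hA.eigenvalues j - E) ^ 2 * ‖inner ℂ (hA.eigenvectorBasis j) x‖ ^ 2 := by
  rw [← hA.eigenvectorBasis.sum_sq_norm_inner_right]
  refine Finset.sum_congr rfl fun j _ => ?_
  rw [inner_sub_right, inner_smul_right, modK2_inner hA, ← sub_mul, norm_mul, mul_pow]
  congr 1
  rw [← Complex.ofReal_sub, Complex.norm_real, Real.norm_eq_abs, sq_abs]

private lemma modK2_eig_of_vec (E : ℝ) (v : m → ℂ) (hv : v ≠ 0)
    (h : A.mulVec v = (E : ℂ) • v) : ∃ j, hA.eigenvalues j = E := by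
  by_contra hcon
  push Not at hcon
  set x : EuclideanSpace ℂ m := WithLp.toLp 2 v with hx
  have h1 : Matrix.toEuclideanLin A x - (E : ℂ) • x = 0 := by
    ext i
    rw [Matrix.toLpLin_apply]
    have := congrFun h i
    simp only [hx, PiLp.sub_apply, PiLp.smul_apply, PiLp.zero_apply]
    rw [this]
    simp
  have h2 := modK2_norm hA x E
  rw [h1, norm_zero, zero_pow (by norm_num)] at h2
  have h3 : ∀ j, ‖inner ℂ (hA.eigenvectorBasis j) x‖ ^ 2 = 0 := by
    intro j
    have h4 := (Finset.sum_eq_zero_iff_of_nonneg (fun j _ => by positivity)).1 h2.symm j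
      (Finset.mem_univ j)
    rcases mul_eq_zero.1 h4 with h5 | h5
    · exact absurd (sub_eq_zero.1 (pow_eq_zero_iff (by norm_num) |>.1 h5)) (hcon j)
    · exact h5
  have h4 := hA.eigenvectorBasis.sum_sq_norm_inner_right x
  simp only [h3, Finset.sum_const_zero] at h4
  have h5 : x = 0 := by
    rw [← norm_eq_zero]
    exact pow_eq_zero_iff (by norm_num) |>.1 h4.symm
  apply hv
  funext i
  have := congrFun (congrArg WithLp.ofLp h5) i
  simpa [hx] using this

private lemma modK2_vec_of_eig (j : m) : ∃ v : m → ℂ, v ≠ 0 ∧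
    A.mulVec v = ((hA.eigenvalues j : ℝ) : ℂ) • v := by
  refine ⟨hA.eigenvectorBasis j, ?_, ?_⟩
  · intro h
    have h1 := hA.eigenvectorBasis.orthonormal.1 j
    have h2 : hA.eigenvectorBasis j = 0 := by
      ext i
      exact congrFun h i
    rw [h2, norm_zero] at h1
    exact zero_ne_one h1
  · have h2 := hA.mulVec_eigenvectorBasis j
    rw [h2]
    ext i
    simp

end General

private lemma modK2_ne_nil (n : ℕ) (hn : 1 ≤ n) : cw n ≠ [] := by
  intro h
  have h1 := cw_length n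
  rw [h, List.length_nil] at h1
  have := Nat.fib_pos.2 hn
  omega

private lemma modK2_eig_iff (lam : ℝ) (n : ℕ) (hn : 1 ≤ n) (E : ℝ) :
    (∃ j, (cyc_herm lam (cw n)).eigenvalues j = E) ↔ (tp lam n).eval E = 0 := by
  rw [← mon_trace lam E n hn, ← cyc_eig lam E (cw n) (modK2_ne_nil n hn)]
  constructor
  · rintro ⟨j, rfl⟩
    exact modK2_vec_of_eig (cyc_herm lam (cw n)) j
  · rintro ⟨v, hv, h⟩
    exact modK2_eig_of_vec (cyc_herm lam (cw n)) E v hv h

private lemma modK2_image (lam : ℝ) (n : ℕ) (hn : 1 ≤ n) :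
    Finset.univ.image (cyc_herm lam (cw n)).eigenvalues = (tp lam n).roots.toFinset := by
  ext E
  rw [Finset.mem_image, Multiset.mem_toFinset, mem_roots (tp_monic lam n hn).ne_zero, IsRoot.def,
    ← modK2_eig_iff lam n hn]
  constructor
  · rintro ⟨j, -, h⟩; exact ⟨j, h⟩
  · rintro ⟨j, h⟩; exact ⟨j, Finset.mem_univ _, h⟩

private lemma modK2_inj (lam : ℝ) (n : ℕ) (hn : 1 ≤ n) :
    Function.Injective (cyc_herm lam (cw n)).eigenvalues := by
  have h1 : (Finset.univ.image (cyc_herm lam (cw n)).eigenvalues).card =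
      (Finset.univ : Finset (Fin (cw n).length)).card := by
    rw [modK2_image lam n hn, card_roots lam n hn, Finset.card_univ, Fintype.card_fin, cw_length]
  have h2 := Finset.card_image_iff.1 h1
  intro i j hij
  exact h2 (Finset.mem_coe.2 (Finset.mem_univ i)) (Finset.mem_coe.2 (Finset.mem_univ j)) hij

theorem cyc_count (lam : ℝ) (n : ℕ) (hn : 1 ≤ n) (E : ℝ) :
    (Finset.univ.filter (fun i => (cyc_herm lam (cw n)).eigenvalues i < E)).card =
      Zc lam n E := by
  unfold Zc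
  rw [← modK2_image lam n hn, Finset.filter_image,
    Finset.card_image_of_injective _ (modK2_inj lam n hn)]

theorem Zc_rec (lam : ℝ) (k : ℕ) (hk : 1 ≤ k) (E : ℝ) :
    |(Zc lam (k + 2) E : ℤ) - Zc lam (k + 1) E - Zc lam k E| ≤ 2 := by
  obtain ⟨m, rfl⟩ : ∃ m, k = m + 1 := ⟨k - 1, by omega⟩
  rw [← cyc_count lam (m + 1 + 2) (by omega), ← cyc_count lam (m + 1 + 1) (by omega),
    ← cyc_count lam (m + 1) (by omega)]
  have h1 := modK2_ne_nil (m + 1) (by omega)
  have h2 := modK2_ne_nil (m + 2) (by omega)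
  have hcw : cw (m + 1 + 2) = cw (m + 1) ++ cw (m + 2) ∨ cw (m + 1 + 2) = cw (m + 2) ++ cw (m + 1) := by
    change cw (m + 3) = _ ∨ cw (m + 3) = _
    rw [cw]
    by_cases h : m % 2 = 0
    · rw [if_pos h]; left; rfl
    · rw [if_neg h]; right; rfl
  rcases hcw with h | h
  · have h3 := cyc_append lam (cw (m + 1)) (cw (m + 2)) h1 h2 E
    rw [h]
    rw [abs_le] at h3 ⊢
    change _ ≤ (_ : ℤ) - ((Finset.univ.filter (fun i =>
      (cyc_herm lam (cw (m + 2))).eigenvalues i < E)).card : ℤ) - _ ∧ _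
    constructor
    · linarith [h3.1]
    · linarith [h3.2]
  · have h3 := cyc_append lam (cw (m + 2)) (cw (m + 1)) h2 h1 E
    rw [h]
    exact h3

theorem cyc_bound (lam : ℝ) (n : ℕ) (hn : 1 ≤ n) (E δ : ℝ) (hδ : 0 ≤ δ)
    (h : ∀ x, (tp lam n).eval x = 0 → δ ≤ |x - E|) (v : Fin (cw n).length → ℂ) :
    δ ^ 2 * ∑ i, ‖v i‖ ^ 2 ≤ ∑ i, ‖((cyc lam (cw n)).mulVec v) i - (E : ℂ) * v i‖ ^ 2 := by
  have hA := cyc_herm lam (cw n)
  set x : EuclideanSpace ℂ (Fin (cw n).length) := WithLp.toLp 2 v with hx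
  have h1 := modK2_norm hA x E
  have h2 := hA.eigenvectorBasis.sum_sq_norm_inner_right x
  have h3 : ∑ i, ‖v i‖ ^ 2 = ‖x‖ ^ 2 := by
    rw [EuclideanSpace.norm_sq_eq]
  have h4 : ∑ i, ‖((cyc lam (cw n)).mulVec v) i - (E : ℂ) * v i‖ ^ 2 =
      ‖Matrix.toEuclideanLin (cyc lam (cw n)) x - (E : ℂ) • x‖ ^ 2 := by
    rw [EuclideanSpace.norm_sq_eq]
    refine Finset.sum_congr rfl fun i _ => ?_
    rw [Matrix.toLpLin_apply]
    simp [hx]
  rw [h3, h4, h1, ← h2, Finset.mul_sum]
  refine Finset.sum_le_sum fun j _ => ?_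
  refine mul_le_mul_of_nonneg_right ?_ (by positivity)
  have h5 := h (hA.eigenvalues j) ((modK2_eig_iff lam n hn _).1 ⟨j, rfl⟩)
  rw [← sq_abs (hA.eigenvalues j - E)]
  exact pow_le_pow_left₀ hδ h5 2

end Pool.Agent.H22.Fib
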