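import Mathlib

/-!
Module O: dimension and covers.
-/

set_option autoImplicit false

noncomputable section

open Polynomial Filter Topology

namespace Pool.Agent.H22.Fib

open MeasureTheory Measure in
theorem modO_cover (S1 : Set ℝ) (hS1 : IsCompact S1) (s : ℝ) (hs : 0 < s)
    (h0 : hausdorffMeasure s S1 = 0) (δ : ℝ) (hδ : 0 < δ) :
    ∃ (n : ℕ) (c d : ℕ → ℝ), (∀ i < n, c i < d i ∧ d i - c i ≤ δ) ∧
      S1 ⊆ ⋃ i ∈ Finset.range n, Set.Ioo (c i) (d i) ∧
      ∑ i ∈ Finset.range n, (d i - c i) ^ s ≤ 4 ^ s * 2 := by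
  classical
  have hr : (0 : ENNReal) < ENNReal.ofReal (δ / 4) := ENNReal.ofReal_pos.2 (by positivity)
  have h1 := hausdorffMeasure_apply s S1
  rw [h0] at h1
  have h2 : (⨅ (t : ℕ → Set ℝ) (_ : S1 ⊆ ⋃ n, t n)
      (_ : ∀ n, Metric.ediam (t n) ≤ ENNReal.ofReal (δ / 4)),
          ∑' n, ⨆ _ : (t n).Nonempty, Metric.ediam (t n) ^ s) ≤ 0 := by
    rw [h1]
    exact le_iSup₂ (f := fun (r : ENNReal) (_ : 0 < r) => ⨅ (t : ℕ → Set ℝ)
      (_ : S1 ⊆ ⋃ n, t n) (_ : ∀ n, Metric.ediam (t n) ≤ r),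
          ∑' n, ⨆ _ : (t n).Nonempty, Metric.ediam (t n) ^ s) (ENNReal.ofReal (δ / 4)) hr
  have h3 := lt_of_le_of_lt h2 (zero_lt_one : (0 : ENNReal) < 1)
  simp only [iInf_lt_iff] at h3
  obtain ⟨t, ht1, ht2, ht3⟩ := h3
  have hfin : ∀ i, Metric.ediam (t i) ≠ ⊤ := fun i =>
    ne_top_of_le_ne_top ENNReal.ofReal_ne_top (ht2 i)
  set D : ℕ → ℝ := fun i => (Metric.ediam (t i)).toReal with hD
  have hD0 : ∀ i, 0 ≤ D i := fun i => ENNReal.toReal_nonneg
  have hDδ : ∀ i, D i ≤ δ / 4 := fun i =>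
    ENNReal.toReal_le_of_le_ofReal (by positivity) (ht2 i)
  set η : ℕ → ℝ := fun i => min (δ / 4) (((1 / 2 : ℝ) ^ (i + 1)) ^ (1 / s)) with hη
  have hη0 : ∀ i, 0 < η i := fun i => lt_min (by positivity) (by positivity)
  have hηδ : ∀ i, η i ≤ δ / 4 := fun i => min_le_left _ _
  have hηs : ∀ i, η i ^ s ≤ (1 / 2 : ℝ) ^ (i + 1) := by
    intro i
    calc η i ^ s ≤ (((1 / 2 : ℝ) ^ (i + 1)) ^ (1 / s)) ^ s :=
          Real.rpow_le_rpow (hη0 i).le (min_le_right _ _) hs.le
      _ = (1 / 2 : ℝ) ^ (i + 1) := by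
          rw [← Real.rpow_mul (by positivity), one_div_mul_cancel hs.ne', Real.rpow_one]
  set x : ℕ → ℝ := fun i => if h : (t i).Nonempty then h.choose else 0 with hx
  have hsub : ∀ i, t i ⊆ Set.Ioo (x i - (D i + η i)) (x i + (D i + η i)) := by
    intro i y hy
    have hne : (t i).Nonempty := ⟨y, hy⟩
    have hxi : x i ∈ t i := by
      simp only [hx, dif_pos hne]
      exact hne.choose_spec
    have h4 : edist y (x i) ≤ Metric.ediam (t i) := Metric.edist_le_ediam_of_mem hy hxi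
    have h5 : dist y (x i) ≤ D i := by
      rw [dist_edist]
      exact ENNReal.toReal_mono (hfin i) h4
    rw [Real.dist_eq, abs_le] at h5
    have := hη0 i
    constructor
    · linarith [h5.1]
    · linarith [h5.2]
  have hcov : S1 ⊆ ⋃ i, Set.Ioo (x i - (D i + η i)) (x i + (D i + η i)) :=
    ht1.trans (Set.iUnion_mono hsub)
  obtain ⟨T, hT⟩ := hS1.elim_finite_subcover
    (fun i => Set.Ioo (x i - (D i + η i)) (x i + (D i + η i))) (fun i => isOpen_Ioo) hcov
  refine ⟨T.sup id + 1, fun i => x i - (D i + η i), fun i => x i + (D i + η i), ?_, ?_, ?_⟩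
  · intro i _
    have := hη0 i
    have := hD0 i
    have := hDδ i
    have := hηδ i
    constructor <;> linarith
  · refine hT.trans ?_
    intro y hy
    simp only [Set.mem_iUnion] at hy ⊢
    obtain ⟨i, hi, hyi⟩ := hy
    refine ⟨i, ?_, hyi⟩
    rw [Finset.mem_range]
    exact Nat.lt_succ_of_le (Finset.le_sup (f := id) hi)
  · set n := T.sup id + 1
    have h6 : ∀ i, ((x i + (D i + η i)) - (x i - (D i + η i))) ^ s ≤
        4 ^ s * (D i ^ s + η i ^ s) := by
      intro i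
      have h7 : (x i + (D i + η i)) - (x i - (D i + η i)) ≤ 4 * max (D i) (η i) := by
        have := le_max_left (D i) (η i)
        have := le_max_right (D i) (η i)
        linarith
      have h8 : 0 ≤ (x i + (D i + η i)) - (x i - (D i + η i)) := by
        have := hη0 i
        have := hD0 i
        linarith
      have hm : 0 ≤ max (D i) (η i) := (hD0 i).trans (le_max_left _ _)
      calc ((x i + (D i + η i)) - (x i - (D i + η i))) ^ s ≤ (4 * max (D i) (η i)) ^ s :=
            Real.rpow_le_rpow h8 h7 hs.le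
        _ = 4 ^ s * max (D i) (η i) ^ s := Real.mul_rpow (by norm_num) hm
        _ ≤ 4 ^ s * (D i ^ s + η i ^ s) := by
            gcongr
            rcases max_choice (D i) (η i) with h | h
            · rw [h]
              have := Real.rpow_nonneg (hη0 i).le s
              linarith
            · rw [h]
              have := Real.rpow_nonneg (hD0 i) s
              linarith
    have h9 : ∑ i ∈ Finset.range n, η i ^ s ≤ 1 := by
      calc ∑ i ∈ Finset.range n, η i ^ s ≤ ∑ i ∈ Finset.range n, (1 / 2 : ℝ) ^ (i + 1) :=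
            Finset.sum_le_sum fun i _ => hηs i
        _ = (1 / 2) * ∑ i ∈ Finset.range n, (1 / 2 : ℝ) ^ i := by
            rw [Finset.mul_sum]
            refine Finset.sum_congr rfl fun i _ => ?_
            rw [pow_succ, mul_comm]
        _ ≤ (1 / 2) * 2 := by
            gcongr
            exact sum_geometric_two_le n
        _ = 1 := by norm_num
    have h10 : ∑ i ∈ Finset.range n, D i ^ s ≤ 1 := by
      set f : ℕ → ENNReal := fun i => ⨆ _ : (t i).Nonempty, Metric.ediam (t i) ^ s with hf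
      have h11 : ∑ i ∈ Finset.range n, f i ≤ 1 := (ENNReal.sum_le_tsum _).trans ht3.le
      have h12 : ∀ i ∈ Finset.range n, f i ≠ ⊤ := by
        intro i hi
        refine ne_top_of_le_ne_top ENNReal.one_ne_top (le_trans ?_ h11)
        exact Finset.single_le_sum (f := f) (fun _ _ => zero_le) hi
      have h13 : ∀ i ∈ Finset.range n, D i ^ s ≤ (f i).toReal := by
        intro i hi
        rcases (t i).eq_empty_or_nonempty with h | h
        · have : D i = 0 := by
            simp only [hD, h, Metric.ediam_empty, ENNReal.toReal_zero]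
          rw [this, Real.zero_rpow hs.ne']
          exact ENNReal.toReal_nonneg
        · have : f i = Metric.ediam (t i) ^ s := by
            simp only [hf]
            exact ciSup_pos h
          rw [this, ← ENNReal.toReal_rpow]
      calc ∑ i ∈ Finset.range n, D i ^ s ≤ ∑ i ∈ Finset.range n, (f i).toReal :=
            Finset.sum_le_sum h13
        _ = (∑ i ∈ Finset.range n, f i).toReal := (ENNReal.toReal_sum h12).symm
        _ ≤ 1 := by
            have := ENNReal.toReal_mono ENNReal.one_ne_top h11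
            simpa using this
    calc ∑ i ∈ Finset.range n, ((x i + (D i + η i)) - (x i - (D i + η i))) ^ s
        ≤ ∑ i ∈ Finset.range n, 4 ^ s * (D i ^ s + η i ^ s) := Finset.sum_le_sum fun i _ => h6 i
      _ = 4 ^ s * (∑ i ∈ Finset.range n, D i ^ s + ∑ i ∈ Finset.range n, η i ^ s) := by
          rw [← Finset.mul_sum, Finset.sum_add_distrib]
      _ ≤ 4 ^ s * 2 := by
          have : (0 : ℝ) ≤ 4 ^ s := by positivity
          nlinarith

theorem dimH_le_of_cover (S1 S2 : Set ℝ) (hS1 : IsCompact S1)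
    (h : ∀ s s' : ℝ, 0 < s → s < s' → ∃ K ρ : ℝ, 0 < ρ ∧
      ∀ (n : ℕ) (c d : ℕ → ℝ) (δ : ℝ), δ ≤ ρ → (∀ i < n, c i < d i ∧ d i - c i ≤ δ) →
        S1 ⊆ ⋃ i ∈ Finset.range n, Set.Ioo (c i) (d i) →
        ∃ (T : Finset (ℕ × ℕ)) (a b : ℕ × ℕ → ℝ), (∀ x ∈ T, a x ≤ b x ∧ b x - a x ≤ δ) ∧
          S2 ⊆ ⋃ x ∈ T, Set.Icc (a x) (b x) ∧
          ∑ x ∈ T, (b x - a x) ^ s' ≤ K * ∑ i ∈ Finset.range n, (d i - c i) ^ s) :
    dimH S2 ≤ dimH S1 := by
  refine le_of_forall_gt_imp_ge_of_dense fun e he => ?_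
  obtain ⟨s', h1, h2⟩ := ENNReal.lt_iff_exists_nnreal_btwn.1 he
  obtain ⟨s, h3, h4⟩ := ENNReal.lt_iff_exists_nnreal_btwn.1 h1
  have hs : 0 < (s : ℝ) := by
    have : (0 : ENNReal) < s := lt_of_le_of_lt zero_le h3
    exact_mod_cast this
  have hss' : (s : ℝ) < s' := by exact_mod_cast h4
  have h0 : MeasureTheory.Measure.hausdorffMeasure (s : ℝ) S1 = 0 := hausdorffMeasure_of_dimH_lt h3
  obtain ⟨K, ρ, hρ, H⟩ := h s s' hs hss'
  -- the covers
  have hcov : ∀ m : ℕ, ∃ (T : Finset (ℕ × ℕ)) (a b : ℕ × ℕ → ℝ),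
      (∀ x ∈ T, a x ≤ b x ∧ b x - a x ≤ 1 / ((m : ℝ) + 1)) ∧
          S2 ⊆ ⋃ x ∈ T, Set.Icc (a x) (b x) ∧
          ∑ x ∈ T, (b x - a x) ^ (s' : ℝ) ≤ |K| * (4 ^ (s : ℝ) * 2) := by
    intro m
    have hδ : 0 < min ρ (1 / ((m : ℝ) + 1)) := lt_min hρ (by positivity)
    obtain ⟨n, c, d, h5, h6, h7⟩ := modO_cover S1 hS1 s hs h0 _ hδ
    obtain ⟨T, a, b, h8, h9, h10⟩ := H n c d _ (min_le_left _ _) h5 h6
    refine ⟨T, a, b, fun x hx => ⟨(h8 x hx).1, (h8 x hx).2.trans (min_le_right _ _)⟩, h9,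
      h10.trans ?_⟩
    have h11 : 0 ≤ ∑ i ∈ Finset.range n, (d i - c i) ^ (s : ℝ) := by
      refine Finset.sum_nonneg fun i hi => Real.rpow_nonneg ?_ _
      have := (h5 i (Finset.mem_range.1 hi)).1
      linarith
    calc K * ∑ i ∈ Finset.range n, (d i - c i) ^ (s : ℝ)
        ≤ |K| * ∑ i ∈ Finset.range n, (d i - c i) ^ (s : ℝ) := by
          gcongr
          exact le_abs_self K
      _ ≤ |K| * (4 ^ (s : ℝ) * 2) := by gcongr
  choose T a b hT1 hT2 hT3 using hcov
  have hlim : Tendsto (fun m : ℕ => ENNReal.ofReal (1 / ((m : ℝ) + 1))) atTop (𝓝 0) := by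
    rw [← ENNReal.ofReal_zero]
    exact (ENNReal.continuous_ofReal.tendsto 0).comp tendsto_one_div_add_atTop_nhds_zero_nat
  have hmain := MeasureTheory.Measure.hausdorffMeasure_le_liminf_sum (ι := fun m => ↥(T m))
    (s' : ℝ) S2 (l := atTop) (fun m : ℕ => ENNReal.ofReal (1 / ((m : ℝ) + 1))) hlim
    (fun m x => Set.Icc (a m x) (b m x)) ?_ ?_
  · have hbound : liminf (fun m => ∑ i : ↥(T m), Metric.ediam (Set.Icc (a m i) (b m i)) ^ (s' : ℝ))
        atTop ≤ ENNReal.ofReal (|K| * (4 ^ (s : ℝ) * 2)) := by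
      refine liminf_le_of_le (by isBoundedDefault) fun y hy => ?_
      obtain ⟨m, hm⟩ := hy.exists
      refine hm.trans ?_
      have h5 : ∑ i : ↥(T m), Metric.ediam (Set.Icc (a m i) (b m i)) ^ (s' : ℝ) =
          ENNReal.ofReal (∑ x ∈ T m, (b m x - a m x) ^ (s' : ℝ)) := by
        rw [ENNReal.ofReal_sum_of_nonneg, ← Finset.sum_coe_sort (T m)]
        · refine Finset.sum_congr rfl fun i _ => ?_
          have h6 := (hT1 m i i.2).1
          rw [Real.ediam_Icc, ENNReal.ofReal_rpow_of_nonneg (by linarith) (by positivity)]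
        · intro x hx
          have h6 := (hT1 m x hx).1
          exact Real.rpow_nonneg (by linarith) _
      rw [h5]
      exact ENNReal.ofReal_le_ofReal (hT3 m)
    have h6 : MeasureTheory.Measure.hausdorffMeasure (s' : ℝ) S2 ≠ ⊤ :=
      ne_top_of_le_ne_top ENNReal.ofReal_ne_top (hmain.trans hbound)
    exact (dimH_le_of_hausdorffMeasure_ne_top h6).trans h2.le
  · refine Eventually.of_forall fun m i => ?_
    rw [Real.ediam_Icc]
    exact ENNReal.ofReal_le_ofReal (hT1 m i i.2).2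
  · refine Eventually.of_forall fun m => ?_
    refine (hT2 m).trans ?_
    intro y hy
    simp only [Set.mem_iUnion] at hy ⊢
    obtain ⟨x, hx, hyx⟩ := hy
    exact ⟨⟨x, hx⟩, hyx⟩

end Pool.Agent.H22.Fib
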